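import Pool.Agent.GP.Cut

set_option autoImplicit false

open Complex MeasureTheory Set Filter Topology

namespace Pool.Agent.GP

lemma cp_aux {F : ℂ → ℂ} {U : Set ℂ} {x : ℂ} {R : ℝ} (hR : 0 < R) (hU : IsOpen U)
    (hs : Metric.closedBall x (2 * R) ⊆ U) (hF : DifferentiableOn ℂ F U) :
    Integrable (fun z => dbar (cut x R) z * F z / (z - x)) ∧
    ∫ z, dbar (cut x R) z * F z / (z - x) = -(2 * Real.pi) * F x := by
  have hxU : x ∈ U := hs (Metric.mem_closedBall_self (by positivity))
  have hd : DifferentiableOn ℂ (dslope F x) U :=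
    (Complex.differentiableOn_dslope (hU.mem_nhds hxU)).2 hF
  have hsup : tsupport (cut x R) ⊆ U := (tsupport_cut_subset x hR).trans hs
  have hpt : ∀ z, dbar (cut x R) z * F z / (z - x)
      = dbar (cut x R) z * dslope F x z + F x * (dbar (cut x R) z / (z - x)) := by
    intro z
    by_cases hz : z = x
    · subst hz
      rw [dbar_cut_eq_zero_of_lt hR (by simpa using hR)]
      simp
    · have hz' : z - x ≠ 0 := sub_ne_zero.mpr hz
      rw [dslope_of_ne F hz, slope_def_field]
      field_simp
      ring
  have i1 : Integrable (fun z => dbar (cut x R) z * dslope F x z) :=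
    integrable_dbar_mul (cut_contDiff x R) (hasCompactSupport_cut x hR) hU hsup hd
  have i2 : Integrable (fun z => dbar (cut x R) z / (z - x)) := by
    by_contra h
    have h0 := integral_undef h
    rw [integral_dbar_cut_div x hR] at h0
    have : (2 * (Real.pi : ℂ)) = 0 := by linear_combination (-1 : ℂ) * h0
    have h3 : (Real.pi : ℂ) ≠ 0 := by exact_mod_cast Real.pi_ne_zero
    simp [h3] at this
  have i3 : Integrable (fun z => F x * (dbar (cut x R) z / (z - x))) := i2.const_mul _
  constructor
  · simp_rw [hpt]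
    exact i1.add i3
  · simp_rw [hpt]
    rw [integral_add i1 i3, integral_dbar_mul_eq_zero (cut_contDiff x R)
      (hasCompactSupport_cut x hR) hU hsup hd, integral_const_mul, integral_dbar_cut_div x hR]
    ring

/-- Cauchy-Pompeiu formula for a cutoff equal to one near the point. -/
theorem integral_dbar_mul_div {χ F : ℂ → ℂ} {U : Set ℂ} {x : ℂ} (hχ : ContDiff ℝ 1 χ)
    (hc : HasCompactSupport χ) (hU : IsOpen U) (hs : tsupport χ ⊆ U)
    (hF : DifferentiableOn ℂ F U) (hx : χ =ᶠ[𝓝 x] fun _ => 1) :
    Integrable (fun z => dbar χ z * F z / (z - x)) ∧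
    ∫ z, dbar χ z * F z / (z - x) = -(2 * Real.pi) * F x := by
  have hxs : x ∈ tsupport χ := by
    apply subset_tsupport
    rw [Function.mem_support, hx.self_of_nhds]
    exact one_ne_zero
  obtain ⟨ε, hε, hball⟩ : ∃ ε > 0, Metric.ball x ε ⊆ {z | χ z = 1} ∩ U :=
    Metric.mem_nhds_iff.mp (inter_mem hx (hU.mem_nhds (hs hxs)))
  set R := ε / 4 with hRdef
  have hR : 0 < R := by positivity
  have hcb : Metric.closedBall x (2 * R) ⊆ U := by
    intro z hz
    apply (hball _).2
    rw [Metric.mem_ball]
    rw [Metric.mem_closedBall] at hz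
    linarith
  set β := cut x R with hβ
  have hβc : ContDiff ℝ 1 β := cut_contDiff x R
  have hβs : HasCompactSupport β := hasCompactSupport_cut x hR
  obtain ⟨iβ, eβ⟩ := cp_aux hR hU hcb hF
  -- the difference vanishes near x
  set δ : ℂ → ℂ := fun z => χ z - β z with hδ
  have hδc : ContDiff ℝ 1 δ := hχ.sub hβc
  have hδs : HasCompactSupport δ := hc.sub hβs
  have hδ0 : x ∉ tsupport δ := by
    rw [notMem_tsupport_iff_eventuallyEq]
    filter_upwards [hx, Metric.ball_mem_nhds x hR] with z hz1 hz2
    simp only [hδ, Pi.zero_apply]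
    rw [hz1, hβ, cut_eq_one hR, sub_self]
    rw [Metric.mem_ball, dist_eq_norm] at hz2
    exact hz2.le
  have hδU : tsupport δ ⊆ U \ {x} := by
    intro z hz
    refine ⟨?_, ?_⟩
    · have h1 : tsupport δ ⊆ tsupport χ ∪ tsupport β := tsupport_sub χ β
      rcases h1 hz with h | h
      · exact hs h
      · exact hcb (tsupport_cut_subset x hR h)
    · intro h
      rw [mem_singleton_iff] at h
      subst h
      exact hδ0 hz
  have hU' : IsOpen (U \ {x}) := hU.sdiff isClosed_singleton
  have hF' : DifferentiableOn ℂ (fun z => F z / (z - x)) (U \ {x}) := by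
    apply DifferentiableOn.div (hF.mono diff_subset) (by fun_prop)
    intro z hz
    exact sub_ne_zero.mpr hz.2
  have iδ := integrable_dbar_mul hδc hδs hU' hδU hF'
  have eδ := integral_dbar_mul_eq_zero hδc hδs hU' hδU hF'
  have hpt : ∀ z, dbar χ z * F z / (z - x)
      = dbar δ z * (F z / (z - x)) + dbar β z * F z / (z - x) := by
    intro z
    have : dbar δ z = dbar χ z - dbar β z :=
      dbar_sub (hχ.differentiable (by norm_num)).differentiableAt
        (hβc.differentiable (by norm_num)).differentiableAt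
    rw [this]
    ring
  constructor
  · simp_rw [hpt]
    exact iδ.add iβ
  · simp_rw [hpt]
    rw [integral_add iδ iβ, eδ, eβ, zero_add]

end Pool.Agent.GP
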