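import Mathlib

set_option autoImplicit false

open Set Filter Topology

namespace Pool.Agent.GP

section Gen

variable {Y : Type*} [TopologicalSpace Y] [CompactSpace Y]

/-- Recovering a simple pole from a sum with a small tail. -/
lemma gen_pole {B : Subalgebra ℂ C(Y, ℂ)} (hB : IsClosed (B : Set C(Y, ℂ)))
    {u v h : C(Y, ℂ)} {d : ℂ} (hd : d ≠ 0) (hu : u ∈ B) (huv : u * v = 1)
    (hmem : d • v + h ∈ B) (hsmall : ‖u * h‖ < ‖d‖) : v ∈ B := by
  set e : C(Y, ℂ) := -(d⁻¹ • (u * h)) with he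
  have hd0 : 0 < ‖d‖ := norm_pos_iff.mpr hd
  have hen : ‖e‖ < 1 := by
    rw [he, norm_neg, norm_smul, norm_inv, inv_mul_lt_iff₀ hd0, mul_one]
    exact hsmall
  have h1e : 1 - e = d⁻¹ • (u * (d • v + h)) := by
    rw [he, mul_add, mul_smul_comm, huv, smul_add, smul_smul, inv_mul_cancel₀ hd, one_smul,
      sub_neg_eq_add]
  have heB : e ∈ B := by
    have h2 : 1 - e ∈ B := by
      rw [h1e]
      exact B.smul_mem (B.mul_mem hu hmem) _
    have : e = 1 - (1 - e) := by abel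
    rw [this]
    exact B.sub_mem B.one_mem h2
  have hs : Summable fun n : ℕ => e ^ n := summable_geometric_of_norm_lt_one hen
  have hsum : (∑' n : ℕ, e ^ n) ∈ B := by
    apply hB.mem_of_tendsto hs.hasSum.tendsto_sum_nat
    apply Eventually.of_forall
    intro n
    exact B.sum_mem fun i _ => B.pow_mem heB i
  have hinv : (1 - e) * (∑' n : ℕ, e ^ n) = 1 := mul_neg_geom_series e hen
  have hv : v = d⁻¹ • ((d • v + h) * ∑' n : ℕ, e ^ n) := by
    have h3 : d⁻¹ • (d • v + h) = v * (1 - e) := by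
      rw [h1e, mul_smul_comm, ← mul_assoc, mul_comm v u, huv, one_mul]
    rw [← smul_mul_assoc, h3, mul_assoc, hinv, mul_one]
  rw [hv]
  exact B.smul_mem (B.mul_mem hmem hsum) _

/-- Recovering an inverse square root from a sum with a small tail. -/
lemma gen_root {B : Subalgebra ℂ C(Y, ℂ)} (hB : IsClosed (B : Set C(Y, ℂ)))
    {f t h : C(Y, ℂ)} {c : ℂ} (hc : c ≠ 0) (hf : f ∈ B) (htf : t * t * f = 1)
    (hmem : c • t + h ∈ B) (hsmall : ‖h * (t * f)‖ ≤ ‖c‖ / 4) : t ∈ B := by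
  set e : C(Y, ℂ) := c⁻¹ • (h * (t * f)) with he
  have hc0 : 0 < ‖c‖ := norm_pos_iff.mpr hc
  have hen : ‖e‖ ≤ 1 / 4 := by
    rw [he, norm_smul, norm_inv, inv_mul_le_iff₀ hc0]
    linarith
  set W : C(Y, ℂ) := c⁻¹ • (c • t + h) with hW
  have hWB : W ∈ B := B.smul_mem hmem _
  have hWt : W = t * (1 + e) := by
    have h1 : t * e = c⁻¹ • h := by
      rw [he, mul_smul_comm]
      congr 1
      calc t * (h * (t * f)) = h * (t * t * f) := by ring
        _ = h := by rw [htf, mul_one]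
    rw [mul_add, mul_one, h1, hW, smul_add, smul_smul, inv_mul_cancel₀ hc, one_smul]
  set τ : C(Y, ℂ) := W * W * f with hτ
  have hτB : τ ∈ B := B.mul_mem (B.mul_mem hWB hWB) hf
  have hτe : τ = (1 + e) * (1 + e) := by
    rw [hτ, hWt]
    calc t * (1 + e) * (t * (1 + e)) * f = (t * t * f) * ((1 + e) * (1 + e)) := by ring
      _ = (1 + e) * (1 + e) := by rw [htf, one_mul]
  -- Newton iteration
  let g : ℕ → C(Y, ℂ) := fun n => Nat.rec 1 (fun _ gn => (2⁻¹ : ℂ) • (gn * (3 - τ * (gn * gn)))) n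
  have hg0 : g 0 = 1 := rfl
  have hgs : ∀ n, g (n + 1) = (2⁻¹ : ℂ) • (g n * (3 - τ * (g n * g n))) := fun n => rfl
  have h3B : (3 : C(Y, ℂ)) ∈ B := by
    have : (3 : C(Y, ℂ)) = algebraMap ℂ C(Y, ℂ) 3 := by
      rw [map_ofNat]
    rw [this]
    exact B.algebraMap_mem 3
  have h3y : ∀ y : Y, (3 : C(Y, ℂ)) y = 3 := fun y => rfl
  have hgB : ∀ n, g n ∈ B := by
    intro n
    induction n with
    | zero => rw [hg0]; exact B.one_mem
    | succ n ih =>
      rw [hgs]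
      exact B.smul_mem (B.mul_mem ih (B.sub_mem h3B (B.mul_mem hτB (B.mul_mem ih ih)))) _
  set δ : ℕ → C(Y, ℂ) := fun n => (1 + e) * g n - 1 with hδ
  have hδs : ∀ n, δ (n + 1) = -((2⁻¹ : ℂ) • (δ n * δ n * (δ n + 3))) := by
    intro n
    simp only [hδ]
    rw [hgs, hτe]
    ext y
    simp [h3y]
    ring
  have h3n : ‖(3 : C(Y, ℂ))‖ ≤ 3 := by
    rw [ContinuousMap.norm_le _ (by norm_num)]
    intro y
    simp [h3y]
  have hδn : ∀ n, ‖δ n‖ ≤ 1 / 4 * (1 / 2) ^ n := by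
    intro n
    induction n with
    | zero =>
      simp only [hδ, hg0, mul_one, pow_zero]
      rw [add_sub_cancel_left]
      exact hen
    | succ n ih =>
      have h1 : ‖δ n‖ ≤ 1 / 4 := by
        refine ih.trans ?_
        have : ((1:ℝ) / 2) ^ n ≤ 1 := pow_le_one₀ (by norm_num) (by norm_num)
        linarith
      rw [hδs, norm_neg, norm_smul]
      have h2 : ‖δ n * δ n * (δ n + 3)‖ ≤ ‖δ n‖ * ‖δ n‖ * (‖δ n‖ + 3) := by
        refine (norm_mul_le _ _).trans ?_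
        gcongr
        · exact norm_mul_le _ _
        · exact (norm_add_le _ _).trans (by gcongr)
      have h0 : 0 ≤ ‖δ n‖ := norm_nonneg _
      have h4 : ‖(2⁻¹ : ℂ)‖ = 2⁻¹ := by simp
      rw [h4]
      calc 2⁻¹ * ‖δ n * δ n * (δ n + 3)‖ ≤ 2⁻¹ * (‖δ n‖ * ‖δ n‖ * (‖δ n‖ + 3)) := by gcongr
        _ ≤ 2⁻¹ * (‖δ n‖ * (1/4) * (1/4 + 3)) := by gcongr
        _ ≤ 1 / 2 * ‖δ n‖ := by linarith
        _ ≤ 1 / 2 * (1 / 4 * (1 / 2) ^ n) := by gcongr
        _ = 1 / 4 * (1 / 2) ^ (n + 1) := by ring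
  have hlim : Tendsto (fun n => W * g n) atTop (𝓝 t) := by
    have h1 : ∀ n, W * g n = t + t * δ n := by
      intro n
      simp only [hδ]
      rw [hWt]; ring
    simp_rw [h1]
    have h2 : Tendsto δ atTop (𝓝 0) := by
      apply squeeze_zero_norm hδn
      have := (tendsto_pow_atTop_nhds_zero_of_lt_one (r := (1/2:ℝ)) (by norm_num)
        (by norm_num)).const_mul (1/4)
      simpa using this
    have h3 := (h2.const_mul t).const_add t
    simpa using h3
  exact hB.mem_of_tendsto hlim (Eventually.of_forall fun n => B.mul_mem hWB (hgB n))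

end Gen

section Ext

variable {Y : Type*} [TopologicalSpace Y] [CompactSpace Y] {N : ℕ}

lemma ext_functional (Φ : MvPolynomial (Fin N) ℂ →ₗ[ℂ] C(Y, ℂ))
    (L : MvPolynomial (Fin N) ℂ →ₗ[ℂ] ℂ) {C : ℝ} (hC0 : 0 ≤ C) (hL : ∀ p, ‖L p‖ ≤ C * ‖Φ p‖) :
    ∃ L' : C(Y, ℂ) →L[ℂ] ℂ, (∀ p, L' (Φ p) = L p) ∧ ∀ f, ‖L' f‖ ≤ C * ‖f‖ := by
  obtain ⟨g, hg⟩ := Φ.rangeRestrict.exists_rightInverse_of_surjective
    (LinearMap.range_rangeRestrict Φ)
  have hg' : ∀ s : LinearMap.range Φ, Φ (g s) = s := by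
    intro s
    have := congrArg (fun k => ((k s : LinearMap.range Φ) : C(Y, ℂ))) hg
    simpa using this
  let LS : LinearMap.range Φ →ₗ[ℂ] ℂ := L.comp g
  have hLS : ∀ s, ‖LS s‖ ≤ C * ‖s‖ := by
    intro s
    refine (hL (g s)).trans (le_of_eq ?_)
    rw [hg' s]
    rfl
  obtain ⟨L', h1, h2⟩ := exists_extension_norm_eq (LinearMap.range Φ) (LS.mkContinuous C hLS)
  refine ⟨L', ?_, ?_⟩
  · intro p
    have h3 := h1 ⟨Φ p, LinearMap.mem_range_self Φ p⟩
    rw [LinearMap.mkContinuous_apply] at h3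
    rw [show (Φ p) = ((⟨Φ p, LinearMap.mem_range_self Φ p⟩ : LinearMap.range Φ) : C(Y, ℂ)) from rfl,
      h3]
    show L (g _) = L p
    rw [← sub_eq_zero, ← map_sub, ← norm_eq_zero]
    apply le_antisymm _ (norm_nonneg _)
    refine (hL _).trans (le_of_eq ?_)
    rw [map_sub, hg' _]
    simp
  · intro f
    refine (L'.le_opNorm f).trans ?_
    gcongr
    rw [h2]
    exact LinearMap.mkContinuous_norm_le _ hC0 _

end Ext

end Pool.Agent.GP
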