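import Mathlib

set_option autoImplicit false

open Set Filter Topology

namespace Pool.Agent.GP

/-- Rapidly decreasing coefficients relative to the bounds `R`. -/
noncomputable def cc (R : ℕ → ℝ) (j : ℕ) : ℝ := ∏ i ∈ Finset.range (j + 1), (16 * R i)⁻¹

variable {R : ℕ → ℝ}

lemma cc_pos (hR : ∀ j, 1 ≤ R j) (j : ℕ) : 0 < cc R j :=
  Finset.prod_pos fun i _ => by
    have := hR i
    positivity

lemma cc_succ (hR : ∀ j, 1 ≤ R j) (j : ℕ) : cc R (j + 1) * R (j + 1) = cc R j / 16 := by
  unfold cc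
  rw [Finset.prod_range_succ _ (j + 1)]
  have : R (j + 1) ≠ 0 := by
    have := hR (j + 1)
    positivity
  field_simp

lemma cc_le (hR : ∀ j, 1 ≤ R j) (n k : ℕ) : cc R (n + k) ≤ cc R n * (1 / 16) ^ k := by
  induction k with
  | zero => simp
  | succ k ih =>
    have h1 := cc_succ hR (n + k)
    have h2 := hR (n + k + 1)
    have h3 := cc_pos hR (n + k + 1)
    rw [show n + (k + 1) = n + k + 1 by ring]
    calc cc R (n + k + 1) ≤ cc R (n + k + 1) * R (n + k + 1) := by nlinarith
      _ = cc R (n + k) / 16 := h1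
      _ ≤ (cc R n * (1 / 16) ^ k) / 16 := by gcongr
      _ = cc R n * (1 / 16) ^ (k + 1) := by ring

lemma cc_mul_le (hR : ∀ j, 1 ≤ R j) (n k : ℕ) :
    cc R (k + (n + 1)) * R (k + (n + 1)) ≤ (cc R n / 16) * (1 / 16) ^ k := by
  have h1 := cc_succ hR (n + k)
  rw [show k + (n + 1) = n + k + 1 by ring, h1]
  have := cc_le hR n k
  linarith

lemma cc_summable (hR : ∀ j, 1 ≤ R j) : Summable fun j => cc R j * R j := by
  rw [← summable_nat_add_iff 1]
  apply Summable.of_nonneg_of_le _ _ (((summable_geometric_of_lt_one (r := (1/16:ℝ)) (by norm_num)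
    (by norm_num)).mul_left (cc R 0 / 16)))
  · intro j
    have := cc_pos hR (j + 1)
    have := hR (j + 1)
    positivity
  · intro j
    exact cc_mul_le hR 0 j

lemma cc_tail (hR : ∀ j, 1 ≤ R j) (n : ℕ) :
    ∑' j, cc R (j + (n + 1)) * R (j + (n + 1)) ≤ cc R n / 8 := by
  have hs : Summable fun k : ℕ => (cc R n / 16) * (1 / 16 : ℝ) ^ k :=
    (summable_geometric_of_lt_one (r := (1/16:ℝ)) (by norm_num) (by norm_num)).mul_left _
  have hs' : Summable fun j => cc R (j + (n + 1)) * R (j + (n + 1)) :=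
    (summable_nat_add_iff (f := fun j => cc R j * R j) (n + 1)).mpr (cc_summable hR)
  refine (hs'.tsum_le_tsum (fun k => cc_mul_le hR n k) hs).trans ?_
  rw [tsum_mul_left, tsum_geometric_of_lt_one (by norm_num) (by norm_num)]
  have := cc_pos hR n
  norm_num
  linarith

end Pool.Agent.GP
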