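import Pool.Agent.GP.Ext

set_option autoImplicit false

open Set Filter Topology

namespace Pool.Agent.GP

section

variable {Y : Type*} [TopologicalSpace Y] [CompactSpace Y]

/-- Poles are recovered from the generating series. -/
lemma pole_mem {A : ℕ → ℂ} {R d : ℕ → ℝ} {V : ℕ → C(Y, ℂ)} {Z W : C(Y, ℂ)}
    (hV : ∀ j, (Z - algebraMap ℂ C(Y, ℂ) (A j)) * V j = 1)
    (hVn : ∀ j, ‖V j‖ ≤ R j) (hZ : ‖Z‖ ≤ 1) (hA : ∀ j, ‖A j‖ ≤ 2)
    (hd : ∀ j, 0 < d j) (hsum : Summable fun j => d j * R j)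
    (htail : ∀ n, ∑' j, d (j + (n + 1)) * R (j + (n + 1)) ≤ d n / 8)
    (hW : W = ∑' j, (d j : ℂ) • V j)
    {B : Subalgebra ℂ C(Y, ℂ)} (hBc : IsClosed (B : Set C(Y, ℂ))) (hZB : Z ∈ B) (hWB : W ∈ B) :
    ∀ n, V n ∈ B := by
  have hsummV : Summable fun j => (d j : ℂ) • V j := by
    apply Summable.of_norm_bounded hsum
    intro j
    rw [norm_smul, Complex.norm_real, Real.norm_eq_abs, abs_of_pos (hd j)]
    have := hVn j
    have := hd j
    gcongr
  set f : ℕ → C(Y, ℂ) := fun j => Z - algebraMap ℂ C(Y, ℂ) (A j) with hf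
  have hfB : ∀ j, f j ∈ B := fun j => B.sub_mem hZB (B.algebraMap_mem _)
  have hfn : ∀ j, ‖f j‖ ≤ 3 := by
    intro j
    refine (norm_sub_le _ _).trans ?_
    have h1 : ‖algebraMap ℂ C(Y, ℂ) (A j)‖ ≤ 2 := by
      rw [ContinuousMap.norm_le _ (by norm_num)]
      intro y
      simpa using hA j
    linarith
  intro n
  induction n using Nat.strong_induction_on with
  | _ n ih =>
    set h : C(Y, ℂ) := ∑' j, (d (j + (n + 1)) : ℂ) • V (j + (n + 1)) with hh
    have hnh : ‖h‖ ≤ d n / 8 := by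
      refine le_trans ?_ (htail n)
      have hs1 : Summable fun j => d (j + (n + 1)) * R (j + (n + 1)) :=
        (summable_nat_add_iff (f := fun j => d j * R j) (n + 1)).mpr hsum
      apply tsum_of_norm_bounded hs1.hasSum
      intro j
      rw [norm_smul, Complex.norm_real, Real.norm_eq_abs, abs_of_pos (hd _)]
      have := hd (j + (n + 1))
      gcongr
      exact hVn _
    have hsplit : (d n : ℂ) • V n + h = W - ∑ j ∈ Finset.range n, (d j : ℂ) • V j := by
      have := hsummV.sum_add_tsum_nat_add (n + 1)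
      rw [hW, ← this, Finset.sum_range_succ]
      simp only [hh]
      abel
    apply gen_pole hBc (u := f n) (v := V n) (h := h) (d := (d n : ℂ))
    · exact_mod_cast (hd n).ne'
    · exact hfB n
    · exact hV n
    · rw [hsplit]
      refine B.sub_mem hWB (B.sum_mem ?_)
      intro j hj
      exact B.smul_mem (ih j (Finset.mem_range.mp hj)) _
    · rw [Complex.norm_real, Real.norm_eq_abs, abs_of_pos (hd n)]
      have h2 : 0 < d n := hd n
      calc ‖f n * h‖ ≤ ‖f n‖ * ‖h‖ := norm_mul_le _ _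
        _ ≤ 3 * (d n / 8) := by
            gcongr
            exact hfn n
        _ < d n := by linarith

/-- Wermer's criterion in our setting: no bounded point derivations. -/
theorem pole_noDer {A : ℕ → ℂ} {ρ R d : ℕ → ℝ} {V : ℕ → C(Y, ℂ)} {Z W : C(Y, ℂ)}
    (hV : ∀ j, (Z - algebraMap ℂ C(Y, ℂ) (A j)) * V j = 1)
    (hρ : ∀ j, 0 < ρ j) (hRρ : ∀ j, R j * ρ j = 1)
    (hVn : ∀ j, ‖V j‖ ≤ R j) (hZ : ‖Z‖ ≤ 1) (hA : ∀ j, ‖A j‖ ≤ 2)
    (hd : ∀ j, 0 < d j) (hsum : Summable fun j => d j * R j)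
    (htail : ∀ n, ∑' j, d (j + (n + 1)) * R (j + (n + 1)) ≤ d n / 8)
    (hW : W = ∑' j, (d j : ℂ) • V j)
    {C : ℝ}
    (hH : ∀ ζ : ℂ, ‖ζ‖ ≤ 1 → (∀ j, ρ j ≤ ‖ζ - A j‖) → ∀ M : ℝ, ∃ (S : Finset ℕ) (r : ℝ), 0 ≤ r ∧
      (∀ y : Y, ∑ j ∈ S, r * ‖V j y‖ ≤ C) ∧ M ≤ ∑ j ∈ S, r / ‖ζ - A j‖ ^ 2) :
    NoDer (Set.range fun (y : Y) (i : Fin 2) => (![Z, W] : Fin 2 → C(Y, ℂ)) i y) := by
  set F : Fin 2 → C(Y, ℂ) := ![Z, W] with hF
  intro z hz D hD hDb
  obtain ⟨D', φ', hD', hφ', hder, hmul, hφn⟩ := der_ext (F := F) hz hD hDb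
  set B := PB F with hB
  have hBc : IsClosed (B : Set C(Y, ℂ)) := PB_closed F
  have hZB : Z ∈ B := mem_PB F 0
  have hWB : W ∈ B := mem_PB F 1
  have hVB : ∀ n, V n ∈ B := pole_mem hV hVn hZ hA hd hsum htail hW hBc hZB hWB
  set f : ℕ → C(Y, ℂ) := fun j => Z - algebraMap ℂ C(Y, ℂ) (A j) with hf
  have hfB : ∀ j, f j ∈ B := fun j => B.sub_mem hZB (B.algebraMap_mem _)
  have hsummV : Summable fun j => (d j : ℂ) • V j := by
    apply Summable.of_norm_bounded hsum
    intro j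
    rw [norm_smul, Complex.norm_real, Real.norm_eq_abs, abs_of_pos (hd j)]
    have := hVn j
    have := hd j
    gcongr
  have hD1 : D' 1 = 0 := by
    have := hD' 1
    rw [map_one] at this
    rw [this, der_one hD]
  have hφ1 : φ' 1 = 1 := by
    have := hφ' 1
    rw [map_one, (MvPolynomial.eval z).map_one] at this
    exact this
  have hDf : ∀ j, D' (f j) = D' Z := by
    intro j
    simp only [hf]
    rw [map_sub, Algebra.algebraMap_eq_smul_one, map_smul, hD1, smul_zero, sub_zero]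
  have hφf : ∀ j, φ' (f j) = φ' Z - A j := by
    intro j
    simp only [hf]
    rw [map_sub, Algebra.algebraMap_eq_smul_one, map_smul, hφ1, smul_eq_mul, mul_one]
  set ζ := φ' Z with hζ
  have hζ1 : ‖ζ‖ ≤ 1 := (hφn _).trans hZ
  have hφV : ∀ j, (ζ - A j) * φ' (V j) = 1 := by
    intro j
    rw [← hφf, ← hmul _ (hfB j) _ (hVB j), hV j, hφ1]
  have hζne : ∀ j, ζ - A j ≠ 0 := by
    intro j h
    have := hφV j
    rw [h, zero_mul] at this
    exact zero_ne_one this
  have hζρ : ∀ j, ρ j ≤ ‖ζ - A j‖ := by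
    intro j
    have h1 : ‖ζ - A j‖ * ‖φ' (V j)‖ = 1 := by rw [← norm_mul, hφV, norm_one]
    have h2 : ‖φ' (V j)‖ ≤ R j := (hφn _).trans (hVn j)
    have h3 := hρ j
    have h4 := hRρ j
    have h5 : 0 ≤ ‖ζ - A j‖ := norm_nonneg _
    calc ρ j = ρ j * (‖ζ - A j‖ * ‖φ' (V j)‖) := by rw [h1, mul_one]
      _ ≤ ρ j * (‖ζ - A j‖ * R j) := by gcongr
      _ = ‖ζ - A j‖ * (R j * ρ j) := by ring
      _ = ‖ζ - A j‖ := by rw [h4, mul_one]
  have hDV : ∀ j, D' (V j) = - (D' Z / (ζ - A j) ^ 2) := by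
    intro j
    have h1 : D' (f j * V j) = 0 := by rw [hV, hD1]
    rw [hder _ (hfB j) _ (hVB j), hDf, hφf] at h1
    have h2 : φ' (V j) = (ζ - A j)⁻¹ := by
      have := hφV j
      exact eq_inv_of_mul_eq_one_right this
    rw [h2] at h1
    have h3 := hζne j
    field_simp at h1 ⊢
    linear_combination h1
  have hDZ : D' Z = 0 := by
    by_contra hne
    have hpos : 0 < ‖D' Z‖ := norm_pos_iff.mpr hne
    obtain ⟨S, r, hr, hS1, hS2⟩ := hH ζ hζ1 hζρ ((‖D'‖ * C + 1) / ‖D' Z‖)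
    set g : C(Y, ℂ) := ∑ j ∈ S, ((r : ℂ) * ((ζ - A j) ^ 2 / (‖ζ - A j‖ ^ 2 : ℝ))) • V j with hg
    by_cases hYe : Nonempty Y
    · have hC0 : 0 ≤ C := by
        obtain ⟨y⟩ := hYe
        refine le_trans ?_ (hS1 y)
        apply Finset.sum_nonneg
        intro j _
        positivity
      have hgn : ‖g‖ ≤ C := by
        rw [ContinuousMap.norm_le _ hC0]
        intro y
        refine le_trans ?_ (hS1 y)
        rw [hg]
        simp only [ContinuousMap.coe_sum, Finset.sum_apply, ContinuousMap.coe_smul, Pi.smul_apply,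
          smul_eq_mul]
        refine (norm_sum_le _ _).trans (Finset.sum_le_sum fun j _ => ?_)
        rw [norm_mul, norm_mul, Complex.norm_real, Real.norm_eq_abs, abs_of_nonneg hr, norm_div,
          norm_pow, Complex.norm_real, Real.norm_eq_abs, abs_of_nonneg (by positivity)]
        have h3 : ‖ζ - A j‖ ^ 2 ≠ 0 := pow_ne_zero _ (norm_ne_zero_iff.mpr (hζne j))
        rw [div_self h3, mul_one]
      have hDg : D' g = - (D' Z * ((∑ j ∈ S, r / ‖ζ - A j‖ ^ 2 : ℝ) : ℂ)) := by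
        rw [hg, map_sum]
        simp only [map_smul, smul_eq_mul, hDV]
        rw [Complex.ofReal_sum, Finset.mul_sum, ← Finset.sum_neg_distrib]
        apply Finset.sum_congr rfl
        intro j _
        have h3 := hζne j
        have h4 : ((‖ζ - A j‖ : ℝ) : ℂ) ≠ 0 := by
          exact_mod_cast norm_ne_zero_iff.mpr (hζne j)
        push_cast
        field_simp
      have h5 : ‖D' g‖ ≤ ‖D'‖ * C := (D'.le_opNorm g).trans (by gcongr)
      rw [hDg, norm_neg, norm_mul, Complex.norm_real, Real.norm_eq_abs] at h5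
      have h6 := le_abs_self (∑ j ∈ S, r / ‖ζ - A j‖ ^ 2)
      have h7 : ‖D' Z‖ * ((‖D'‖ * C + 1) / ‖D' Z‖) = ‖D'‖ * C + 1 := by
        field_simp
      have h8 : ‖D' Z‖ * ((‖D'‖ * C + 1) / ‖D' Z‖) ≤ ‖D' Z‖ * |∑ j ∈ S, r / ‖ζ - A j‖ ^ 2| := by
        gcongr
        exact hS2.trans h6
      linarith
    · -- empty space: impossible
      rw [not_nonempty_iff] at hYe
      have : Z = 0 := by
        ext y
        exact hYe.elim y
      rw [this, map_zero] at hne
      exact hne rfl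
  have hDW : D' W = 0 := by
    rw [hW, D'.map_tsum hsummV]
    simp [hDV, hDZ]
  apply der_eq_zero hD
  intro i
  rw [← hD', Phi_X]
  fin_cases i
  · exact hDZ
  · exact hDW

end

end Pool.Agent.GP
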