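import Pool.Agent.GP.Gleason
import Pool.Agent.GP.PoleNoDer
import Pool.Agent.GP.Decay

set_option autoImplicit false

open Set Filter Topology

namespace Pool.Agent.GP

/-- The point of `ℂ^2` over `z`, truncated. -/
noncomputable def pt2 (A : ℕ → ℂ) (d : ℕ → ℂ) (m : ℕ) (z : ℂ) : Fin 2 → ℂ :=
  ![z, ∑ j ∈ Finset.range m, d j * (z - A j)⁻¹]

lemma pt2_differentiableOn (A : ℕ → ℂ) (d : ℕ → ℂ) (m : ℕ) (p : MvPolynomial (Fin 2) ℂ) :
    DifferentiableOn ℂ (fun z => MvPolynomial.eval (pt2 A d m z) p)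
      {z | ∀ j ∈ Finset.range m, z ≠ A j} := by
  have hcoord : ∀ i : Fin 2, DifferentiableOn ℂ (fun z => pt2 A d m z i)
      {z | ∀ j ∈ Finset.range m, z ≠ A j} := by
    intro i
    fin_cases i
    · exact differentiableOn_id
    · show DifferentiableOn ℂ (fun z => ∑ j ∈ Finset.range m, d j * (z - A j)⁻¹) _
      apply DifferentiableOn.fun_sum
      intro j hj
      apply DifferentiableOn.const_mul
      apply DifferentiableOn.inv (by fun_prop)
      intro z hz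
      exact sub_ne_zero.mpr (hz j hj)
  induction p using MvPolynomial.induction_on with
  | C a => simp only [MvPolynomial.eval_C]; exact differentiableOn_const _
  | add p q hp hq => simp only [map_add]; exact hp.add hq
  | mul_X p i hp =>
    simp only [map_mul, MvPolynomial.eval_X]
    exact hp.mul (hcoord i)

theorem cheese_abs {A : ℕ → ℂ} {ρ : ℕ → ℝ} (hρ0 : ∀ j, 0 < ρ j) (hρ1 : ∀ j, ρ j ≤ 1)
    (hA : ∀ j, ‖A j‖ ≤ 2) {B : ℝ} (hB : ∀ x, |deriv Real.smoothTransition x| ≤ B)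
    {x y : ℂ} (hxy : x ≠ y) (hx : ‖x‖ ≤ 1 / 4) (hy : ‖y‖ ≤ 1 / 4)
    (hxA : ∀ j, 4 * ρ j ≤ ‖x - A j‖) (hyA : ∀ j, 4 * ρ j ≤ ‖y - A j‖)
    {τ : ℝ} (hτx : ∀ S : Finset ℕ, ∑ j ∈ S, ρ j / ‖x - A j‖ ≤ τ)
    (hτy : ∀ S : Finset ℕ, ∑ j ∈ S, ρ j / ‖y - A j‖ ≤ τ)
    (hsmall : B * (64 * ‖x - y‖ + 32 * τ) ≤ 1) {C : ℝ}
    (hH : ∀ ζ : ℂ, ‖ζ‖ ≤ 1 → (∀ j, ρ j ≤ ‖ζ - A j‖) → ∀ M : ℝ, ∃ (S : Finset ℕ) (r : ℝ), 0 ≤ r ∧
      (∀ z : ℂ, ‖z‖ ≤ 1 → (∀ j, ρ j ≤ ‖z - A j‖) → ∑ j ∈ S, r / ‖z - A j‖ ≤ C) ∧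
      M ≤ ∑ j ∈ S, r / ‖ζ - A j‖ ^ 2) :
    ∃ K : Set (Fin 2 → ℂ), IsCompact K ∧ NoDer K ∧ ∃ κ₁ ∈ K, ∃ κ₂ ∈ K, κ₂ ≠ κ₁ ∧
      ∃ c < (2:ℝ), ∀ p : MvPolynomial (Fin 2) ℂ, (∀ x ∈ K, ‖MvPolynomial.eval x p‖ ≤ 1) →
        ‖MvPolynomial.eval κ₁ p - MvPolynomial.eval κ₂ p‖ ≤ c := by
  set K0 : Set ℂ := {z | ‖z‖ ≤ 1 ∧ ∀ j, ρ j ≤ ‖z - A j‖} with hK0
  have hK0closed : IsClosed K0 := by
    have : K0 = {z : ℂ | ‖z‖ ≤ 1} ∩ ⋂ j, {z : ℂ | ρ j ≤ ‖z - A j‖} := by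
      ext z; simp [hK0]
    rw [this]
    apply IsClosed.inter (isClosed_le continuous_norm continuous_const)
    apply isClosed_iInter
    intro j
    exact isClosed_le continuous_const (by fun_prop)
  have hK0c : IsCompact K0 := (isCompact_closedBall (0:ℂ) 1).of_isClosed_subset hK0closed (by
    intro z hz
    rw [Metric.mem_closedBall, dist_zero_right]
    exact hz.1)
  have hYc : CompactSpace K0 := isCompact_iff_compactSpace.mp hK0c
  set R : ℕ → ℝ := fun j => (ρ j)⁻¹ with hR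
  have hR1 : ∀ j, 1 ≤ R j := fun j => (one_le_inv₀ (hρ0 j)).mpr (hρ1 j)
  have hne : ∀ z ∈ K0, ∀ j, z - A j ≠ 0 := by
    intro z hz j h
    have := hz.2 j
    rw [h, norm_zero] at this
    linarith [hρ0 j]
  let Z : C(K0, ℂ) := ⟨fun z => z.1, continuous_subtype_val⟩
  let V : ℕ → C(K0, ℂ) := fun j => ⟨fun z => (z.1 - A j)⁻¹,
    (continuous_subtype_val.sub continuous_const).inv₀ (fun z => hne z.1 z.2 j)⟩
  have hVn : ∀ j, ‖V j‖ ≤ R j := by
    intro j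
    rw [ContinuousMap.norm_le _ (by linarith [hR1 j])]
    intro z
    show ‖(z.1 - A j)⁻¹‖ ≤ R j
    rw [norm_inv]
    exact inv_anti₀ (hρ0 j) (z.2.2 j)
  have hsummV : Summable fun j => (cc R j : ℂ) • V j := by
    apply Summable.of_norm_bounded (cc_summable hR1)
    intro j
    rw [norm_smul, Complex.norm_real, Real.norm_eq_abs, abs_of_pos (cc_pos hR1 j)]
    have := hVn j
    have := (cc_pos hR1 j).le
    gcongr
  let W : C(K0, ℂ) := ∑' j, (cc R j : ℂ) • V j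
  have hZn : ‖Z‖ ≤ 1 := by
    rw [ContinuousMap.norm_le _ zero_le_one]
    intro z
    exact z.2.1
  have hVZ : ∀ j, (Z - algebraMap ℂ C(K0, ℂ) (A j)) * V j = 1 := by
    intro j
    ext z
    have e : ((Z - algebraMap ℂ C(K0, ℂ) (A j)) * V j) z = (z.1 - A j) * (z.1 - A j)⁻¹ := by
      simp [Z, V]
    rw [e, mul_inv_cancel₀ (hne z.1 z.2 j)]
    rfl
  have hNoDer := pole_noDer (A := A) (ρ := ρ) (R := R) (d := cc R) (V := V) (Z := Z) (W := W)
    hVZ hρ0 (fun j => inv_mul_cancel₀ (hρ0 j).ne') hVn hZn hA (cc_pos hR1) (cc_summable hR1)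
    (cc_tail hR1) rfl (C := C) (by
      intro ζ hζ hζA M
      obtain ⟨S, r, hr, h1, h2⟩ := hH ζ hζ hζA M
      refine ⟨S, r, hr, ?_, h2⟩
      intro z
      have := h1 z.1 z.2.1 z.2.2
      refine le_trans (le_of_eq ?_) this
      apply Finset.sum_congr rfl
      intro j _
      show r * ‖(z.1 - A j)⁻¹‖ = _
      rw [norm_inv, div_eq_mul_inv])
  set F : Fin 2 → C(K0, ℂ) := ![Z, W] with hF
  set K : Set (Fin 2 → ℂ) := Set.range fun (z : K0) (i : Fin 2) => F i z with hK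
  have hxK : x ∈ K0 := ⟨by linarith, fun j => by linarith [hxA j, hρ0 j]⟩
  have hyK : y ∈ K0 := ⟨by linarith, fun j => by linarith [hyA j, hρ0 j]⟩
  have hKc : IsCompact K := by
    apply isCompact_range
    apply continuous_pi
    intro i
    exact (F i).continuous
  refine ⟨K, hKc, hNoDer, fun i => F i ⟨x, hxK⟩, ⟨⟨x, hxK⟩, rfl⟩, fun i => F i ⟨y, hyK⟩,
    ⟨⟨y, hyK⟩, rfl⟩, ?_, 3 / 2, by norm_num, ?_⟩
  · intro h
    have h0 := congrFun h 0
    exact hxy h0.symm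
  intro p hp
  -- partial sums
  let Wn : ℕ → C(K0, ℂ) := fun m => ∑ j ∈ Finset.range m, (cc R j : ℂ) • V j
  have hWn : Tendsto Wn atTop (𝓝 W) := hsummV.hasSum.tendsto_sum_nat
  have hPhi : Tendsto (fun m => Phi (![Z, Wn m] : Fin 2 → C(K0, ℂ)) p) atTop (𝓝 (Phi F p)) := by
    have hcoord : ∀ i : Fin 2, Tendsto (fun m => (![Z, Wn m] : Fin 2 → C(K0, ℂ)) i) atTop
        (𝓝 (F i)) := by
      intro i
      fin_cases i
      · exact tendsto_const_nhds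
      · exact hWn
    clear hp
    induction p using MvPolynomial.induction_on with
    | C a =>
      have : ∀ G : Fin 2 → C(K0, ℂ), Phi G (MvPolynomial.C a) = algebraMap ℂ C(K0, ℂ) a := by
        intro G
        unfold Phi
        exact MvPolynomial.aeval_C G a
      simp only [this]
      exact tendsto_const_nhds
    | add p q hp hq => simp only [map_add]; exact hp.add hq
    | mul_X p i hp =>
      simp only [map_mul, Phi_X]
      exact hp.mul (hcoord i)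
  have hev : ∀ᶠ m in atTop, ‖Phi (![Z, Wn m] : Fin 2 → C(K0, ℂ)) p - Phi F p‖ < 1 / 8 := by
    have := hPhi.sub_const (Phi F p)
    rw [sub_self] at this
    have h2 := this.norm
    rw [norm_zero] at h2
    exact h2.eventually_lt_const (by norm_num)
  obtain ⟨m, hm⟩ := hev.exists
  set d : ℕ → ℂ := fun j => (cc R j : ℂ) with hd
  set f : ℂ → ℂ := fun z => MvPolynomial.eval (pt2 A d m z) p with hf
  have hfd := pt2_differentiableOn A d m p
  have hfPhi : ∀ z : K0, f z.1 = Phi (![Z, Wn m] : Fin 2 → C(K0, ℂ)) p z := by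
    intro z
    rw [Phi_apply]
    simp only [hf]
    have h1 : (fun i : Fin 2 => (![Z, Wn m] : Fin 2 → C(K0, ℂ)) i z) = pt2 A d m z.1 := by
      ext i
      fin_cases i
      · rfl
      · show (∑ j ∈ Finset.range m, (cc R j : ℂ) • V j) z = ∑ j ∈ Finset.range m, d j * (z.1 - A j)⁻¹
        simp [V, hd]
    rw [h1]
  have hPhiK : ∀ z : K0, ‖Phi F p z‖ ≤ 1 := by
    intro z
    rw [Phi_apply]
    exact hp _ ⟨z, rfl⟩
  have hdiff : ∀ z : K0, ‖f z.1 - Phi F p z‖ ≤ 1 / 8 := by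
    intro z
    rw [hfPhi z]
    have := (Phi (![Z, Wn m] : Fin 2 → C(K0, ℂ)) p - Phi F p).norm_coe_le_norm z
    exact (this.trans hm.le)
  have hfK : ∀ z ∈ K0, ‖f z‖ ≤ 9 / 8 := by
    intro z hz
    have h1 := hdiff ⟨z, hz⟩
    have h2 := hPhiK ⟨z, hz⟩
    calc ‖f z‖ = ‖(f z - Phi F p ⟨z, hz⟩) + Phi F p ⟨z, hz⟩‖ := by congr 1; ring
      _ ≤ ‖f z - Phi F p ⟨z, hz⟩‖ + ‖Phi F p ⟨z, hz⟩‖ := norm_add_le _ _
      _ ≤ 9 / 8 := by linarith
  -- finitely many holes suffice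
  obtain ⟨M, hmM, hM⟩ : ∃ M, m ≤ M ∧ ∀ z : ℂ, ‖z‖ ≤ 1 → (∀ j ∈ Finset.range M, ρ j ≤ ‖z - A j‖) →
      ‖f z‖ ≤ 5 / 4 := by
    by_contra hcon
    push Not at hcon
    set t : ℕ → Set ℂ := fun i => {z : ℂ | (‖z‖ ≤ 1 ∧ ∀ j ∈ Finset.range (m + i), ρ j ≤ ‖z - A j‖) ∧
      5 / 4 ≤ ‖f z‖} with ht
    have hcl0 : ∀ i, IsClosed {z : ℂ | ‖z‖ ≤ 1 ∧ ∀ j ∈ Finset.range (m + i), ρ j ≤ ‖z - A j‖} := by
      intro i
      have : {z : ℂ | ‖z‖ ≤ 1 ∧ ∀ j ∈ Finset.range (m + i), ρ j ≤ ‖z - A j‖}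
          = {z : ℂ | ‖z‖ ≤ 1} ∩ ⋂ j ∈ Finset.range (m + i), {z : ℂ | ρ j ≤ ‖z - A j‖} := by
        ext z; simp
      rw [this]
      apply IsClosed.inter (isClosed_le continuous_norm continuous_const)
      apply isClosed_biInter
      intro j _
      exact isClosed_le continuous_const (by fun_prop)
    have htcl : ∀ i, IsClosed (t i) := by
      intro i
      have hcont : ContinuousOn (fun z => ‖f z‖)
          {z : ℂ | ‖z‖ ≤ 1 ∧ ∀ j ∈ Finset.range (m + i), ρ j ≤ ‖z - A j‖} := by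
        apply ContinuousOn.norm
        apply hfd.continuousOn.mono
        intro z hz j hj h
        have hj' : j ∈ Finset.range (m + i) := by
          rw [Finset.mem_range] at hj ⊢
          omega
        have := hz.2 j hj'
        rw [h, sub_self, norm_zero] at this
        linarith [hρ0 j]
      have := hcont.preimage_isClosed_of_isClosed (hcl0 i) (isClosed_Ici (a := (5/4 : ℝ)))
      exact this
    have hne' : (⋂ i, t i).Nonempty := by
      apply IsCompact.nonempty_iInter_of_sequence_nonempty_isCompact_isClosed t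
      · intro i z hz
        refine ⟨⟨hz.1.1, fun j hj => hz.1.2 j ?_⟩, hz.2⟩
        rw [Finset.mem_range] at hj ⊢
        omega
      · intro i
        obtain ⟨z, hz1, hz2, hz3⟩ := hcon (m + i) (by omega)
        exact ⟨z, ⟨hz1, hz2⟩, hz3.le⟩
      · apply (isCompact_closedBall (0:ℂ) 1).of_isClosed_subset (htcl 0)
        intro z hz
        rw [Metric.mem_closedBall, dist_zero_right]
        exact hz.1.1
      · exact htcl
    obtain ⟨z, hz⟩ := hne'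
    rw [mem_iInter] at hz
    have hzK : z ∈ K0 := by
      refine ⟨(hz 0).1.1, fun j => (hz (j + 1)).1.2 j ?_⟩
      rw [Finset.mem_range]
      omega
    have h1 := hfK z hzK
    have h2 := (hz 0).2
    linarith
  have hfd' : DifferentiableOn ℂ f {z | ∀ j ∈ Finset.range M, z ≠ A j} := by
    apply hfd.mono
    intro z hz j hj
    apply hz j
    rw [Finset.mem_range] at hj ⊢
    omega
  have hgl := gleason_est hB hρ0 (Finset.range M) hfd' hM hx hy (fun j _ => hxA j)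
    (fun j _ => hyA j)
  have hsumb : ∑ j ∈ Finset.range M, (2 / ‖x - A j‖ + 2 / ‖y - A j‖) * (16 * Real.pi * B * ρ j)
      ≤ 64 * Real.pi * B * τ := by
    have hB0 : 0 ≤ B := (abs_nonneg _).trans (hB 0)
    have e : ∑ j ∈ Finset.range M, (2 / ‖x - A j‖ + 2 / ‖y - A j‖) * (16 * Real.pi * B * ρ j)
        = 32 * Real.pi * B * (∑ j ∈ Finset.range M, ρ j / ‖x - A j‖
          + ∑ j ∈ Finset.range M, ρ j / ‖y - A j‖) := by
      rw [← Finset.sum_add_distrib, Finset.mul_sum]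
      apply Finset.sum_congr rfl
      intro j _
      ring
    rw [e]
    have h1 := hτx (Finset.range M)
    have h2 := hτy (Finset.range M)
    have h3 : 0 ≤ 32 * Real.pi * B := by positivity
    nlinarith
  have hfxy : ‖f x - f y‖ ≤ 5 / 4 := by
    have hpi := Real.pi_pos
    have h1 : 2 * Real.pi * ‖f x - f y‖ ≤ 5 / 4 * (16 * ‖x - y‖ * (8 * Real.pi * B)
        + 64 * Real.pi * B * τ) := by
      refine hgl.trans ?_
      gcongr
    have h2 : 5 / 4 * (16 * ‖x - y‖ * (8 * Real.pi * B) + 64 * Real.pi * B * τ)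
        = (2 * Real.pi) * (5 / 4 * (B * (64 * ‖x - y‖ + 32 * τ))) := by ring
    rw [h2] at h1
    have h3 := le_of_mul_le_mul_left h1 (by positivity)
    linarith
  have hPx := hdiff ⟨x, hxK⟩
  have hPy := hdiff ⟨y, hyK⟩
  have e1 : MvPolynomial.eval (fun i => F i ⟨x, hxK⟩) p = Phi F p ⟨x, hxK⟩ := (Phi_apply F p _).symm
  have e2 : MvPolynomial.eval (fun i => F i ⟨y, hyK⟩) p = Phi F p ⟨y, hyK⟩ := (Phi_apply F p _).symm
  rw [e1, e2]
  calc ‖Phi F p ⟨x, hxK⟩ - Phi F p ⟨y, hyK⟩‖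
      = ‖(f x - f y) - (f x - Phi F p ⟨x, hxK⟩) + (f y - Phi F p ⟨y, hyK⟩)‖ := by congr 1; ring
    _ ≤ ‖(f x - f y) - (f x - Phi F p ⟨x, hxK⟩)‖ + ‖f y - Phi F p ⟨y, hyK⟩‖ := norm_add_le _ _
    _ ≤ ‖f x - f y‖ + ‖f x - Phi F p ⟨x, hxK⟩‖ + ‖f y - Phi F p ⟨y, hyK⟩‖ := by
        gcongr
        exact norm_sub_le _ _
    _ ≤ 5 / 4 + 1 / 8 + 1 / 8 := by gcongr
    _ = 3 / 2 := by norm_num

end Pool.Agent.GP
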