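import Pool.Agent.GP.DBar

set_option autoImplicit false

open Complex MeasureTheory Set Filter Topology

namespace Pool.Agent.GP

/-- Radial smooth cutoff: equal to one on the closed ball of radius `R` about `p`, zero
outside the ball of radius `2 R`. -/
noncomputable def cut (p : ℂ) (R : ℝ) (z : ℂ) : ℂ :=
  ((Real.smoothTransition (2 - ‖z - p‖ ^ 2 / R ^ 2) : ℝ) : ℂ)

lemma cut_contDiff (p : ℂ) (R : ℝ) : ContDiff ℝ 1 (cut p R) := by
  unfold cut
  have h1 : ContDiff ℝ 1 (fun z : ℂ => ‖z - p‖ ^ 2) := (contDiff_id.sub contDiff_const).norm_sq ℝ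
  have h2 : ContDiff ℝ 1 (fun z : ℂ => 2 - ‖z - p‖ ^ 2 / R ^ 2) :=
    contDiff_const.sub (h1.div_const _)
  have h3 : ContDiff ℝ 1 (fun z : ℂ => Real.smoothTransition (2 - ‖z - p‖ ^ 2 / R ^ 2)) :=
    (Real.smoothTransition.contDiff (n := 1)).comp h2
  exact ofRealCLM.contDiff.comp h3

lemma cut_eq_one {p : ℂ} {R : ℝ} (hR : 0 < R) {z : ℂ} (hz : ‖z - p‖ ≤ R) : cut p R z = 1 := by
  unfold cut
  rw [Real.smoothTransition.one_of_one_le]
  · simp
  · have : ‖z - p‖ ^ 2 / R ^ 2 ≤ 1 := by
      rw [div_le_one (by positivity)]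
      gcongr
    linarith

lemma cut_eq_zero {p : ℂ} {R : ℝ} (hR : 0 < R) {z : ℂ} (hz : 2 * R ≤ ‖z - p‖) :
    cut p R z = 0 := by
  unfold cut
  rw [Real.smoothTransition.zero_of_nonpos]
  · simp
  · have : 2 ≤ ‖z - p‖ ^ 2 / R ^ 2 := by
      rw [le_div_iff₀ (by positivity)]
      nlinarith [mul_self_le_mul_self (by positivity) hz]
    linarith

lemma norm_cut_le (p : ℂ) (R : ℝ) (z : ℂ) : ‖cut p R z‖ ≤ 1 := by
  unfold cut
  rw [Complex.norm_real, Real.norm_eq_abs, abs_of_nonneg (Real.smoothTransition.nonneg _)]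
  exact Real.smoothTransition.le_one _

lemma norm_one_sub_cut_le (p : ℂ) (R : ℝ) (z : ℂ) : ‖1 - cut p R z‖ ≤ 1 := by
  unfold cut
  rw [← ofReal_one, ← ofReal_sub, Complex.norm_real, Real.norm_eq_abs, abs_of_nonneg]
  · linarith [Real.smoothTransition.nonneg (2 - ‖z - p‖ ^ 2 / R ^ 2)]
  · linarith [Real.smoothTransition.le_one (2 - ‖z - p‖ ^ 2 / R ^ 2)]

lemma tsupport_cut_subset (p : ℂ) {R : ℝ} (hR : 0 < R) :
    tsupport (cut p R) ⊆ Metric.closedBall p (2 * R) := by
  apply closure_minimal _ Metric.isClosed_closedBall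
  intro z hz
  by_contra h
  apply hz
  apply cut_eq_zero hR
  rw [Metric.mem_closedBall, not_le, dist_eq_norm] at h
  exact h.le

lemma hasCompactSupport_cut (p : ℂ) {R : ℝ} (hR : 0 < R) : HasCompactSupport (cut p R) :=
  (isCompact_closedBall p (2 * R)).of_isClosed_subset (isClosed_tsupport _)
    (tsupport_cut_subset p hR)

lemma hasDerivAt_smoothTransition (x : ℝ) :
    HasDerivAt Real.smoothTransition (deriv Real.smoothTransition x) x :=
  ((Real.smoothTransition.contDiff (n := 1)).differentiable (by norm_num)).differentiableAt.hasDerivAt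

lemma continuous_deriv_smoothTransition : Continuous (deriv Real.smoothTransition) :=
  (Real.smoothTransition.contDiff (n := 1)).continuous_deriv (by norm_num)

lemma deriv_smoothTransition_of_one_lt {x : ℝ} (hx : 1 < x) :
    deriv Real.smoothTransition x = 0 := by
  have : Real.smoothTransition =ᶠ[𝓝 x] fun _ => 1 := by
    filter_upwards [lt_mem_nhds hx] with y hy
    exact Real.smoothTransition.one_of_one_le hy.le
  rw [this.deriv_eq]; simp

lemma deriv_smoothTransition_of_neg {x : ℝ} (hx : x < 0) :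
    deriv Real.smoothTransition x = 0 := by
  have : Real.smoothTransition =ᶠ[𝓝 x] fun _ => 0 := by
    filter_upwards [gt_mem_nhds hx] with y hy
    exact Real.smoothTransition.zero_of_nonpos hy.le
  rw [this.deriv_eq]; simp

/-- The derivative of the standard transition function is bounded. -/
lemma exists_bound_deriv_smoothTransition :
    ∃ B : ℝ, 0 < B ∧ ∀ x, |deriv Real.smoothTransition x| ≤ B := by
  obtain ⟨B, hB⟩ := (isCompact_Icc (a := (0:ℝ)) (b := 1)).exists_bound_of_continuousOn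
    continuous_deriv_smoothTransition.continuousOn
  refine ⟨max B 1, by positivity, fun x => ?_⟩
  by_cases h0 : x < 0
  · rw [deriv_smoothTransition_of_neg h0]; simp
  by_cases h1 : 1 < x
  · rw [deriv_smoothTransition_of_one_lt h1]; simp
  · exact (hB x ⟨not_lt.mp h0, not_lt.mp h1⟩).trans (le_max_left _ _)

lemma hasFDerivAt_cut (p : ℂ) (R : ℝ) (z : ℂ) :
    HasFDerivAt (cut p R) (ofRealCLM.comp
      ((-(2 / R ^ 2) * deriv Real.smoothTransition (2 - ‖z - p‖ ^ 2 / R ^ 2)) •
        (innerSL ℝ (z - p)))) z := by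
  have h0 : HasFDerivAt (fun w : ℂ => w - p) (ContinuousLinearMap.id ℝ ℂ) z :=
    (hasFDerivAt_id (𝕜 := ℝ) z).sub_const p
  have h0' := h0.norm_sq
  have h1 : HasFDerivAt (fun w : ℂ => 2 - ‖w - p‖ ^ 2 / R ^ 2)
      (-((R ^ 2)⁻¹ • (2 • (innerSL ℝ (z - p)).comp (ContinuousLinearMap.id ℝ ℂ)))) z := by
    simp only [div_eq_inv_mul]
    exact (h0'.const_mul ((R ^ 2)⁻¹)).const_sub 2
  have h2 := (hasDerivAt_smoothTransition (2 - ‖z - p‖ ^ 2 / R ^ 2)).comp_hasFDerivAt z h1
  have h3 := (ofRealCLM.hasFDerivAt (x := Real.smoothTransition (2 - ‖z - p‖ ^ 2 / R ^ 2))).comp z h2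
  refine h3.congr_fderiv ?_
  congr 1
  ext w
  simp
  ring

lemma dbar_cut (p : ℂ) (R : ℝ) (z : ℂ) :
    dbar (cut p R) z = ((-(2 / R ^ 2) * deriv Real.smoothTransition (2 - ‖z - p‖ ^ 2 / R ^ 2) : ℝ) : ℂ)
      * (z - p) := by
  unfold dbar
  rw [(hasFDerivAt_cut p R z).fderiv]
  generalize (-(2 / R ^ 2) * deriv Real.smoothTransition (2 - ‖z - p‖ ^ 2 / R ^ 2)) = k
  apply Complex.ext <;> simp [Complex.inner]

lemma norm_dbar_cut_le {B : ℝ} (hB : ∀ x, |deriv Real.smoothTransition x| ≤ B)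
    (p : ℂ) {R : ℝ} (hR : 0 < R) (z : ℂ) : ‖dbar (cut p R) z‖ ≤ 4 * B / R := by
  have hB0 : 0 ≤ B := (abs_nonneg _).trans (hB 0)
  by_cases hz : 2 * R < ‖z - p‖
  · have : z ∉ tsupport (cut p R) := by
      intro h
      have := tsupport_cut_subset p hR h
      rw [Metric.mem_closedBall, dist_eq_norm] at this
      linarith
    rw [dbar_eq_zero_of_notMem_tsupport this, norm_zero]
    positivity
  · rw [not_lt] at hz
    rw [dbar_cut, norm_mul, Complex.norm_real, Real.norm_eq_abs, abs_mul, abs_neg,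
      abs_of_pos (by positivity : (0:ℝ) < 2 / R ^ 2)]
    calc 2 / R ^ 2 * |deriv Real.smoothTransition (2 - ‖z - p‖ ^ 2 / R ^ 2)| * ‖z - p‖
        ≤ 2 / R ^ 2 * B * (2 * R) := by
          gcongr
          exact hB _
      _ = 4 * B / R := by field_simp; ring

lemma dbar_cut_eq_zero_of_lt {p : ℂ} {R : ℝ} (hR : 0 < R) {z : ℂ} (hz : ‖z - p‖ < R) :
    dbar (cut p R) z = 0 := by
  have : cut p R =ᶠ[𝓝 z] fun _ => 1 := by
    have : {w : ℂ | ‖w - p‖ < R} ∈ 𝓝 z := by
      have ho : IsOpen {w : ℂ | ‖w - p‖ < R} := isOpen_lt (by fun_prop) continuous_const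
      exact ho.mem_nhds hz
    filter_upwards [this] with w hw
    exact cut_eq_one hR (le_of_lt hw)
  rw [dbar_congr this, dbar_const]

/-- The value of the Cauchy transform of the d-bar of a radial cutoff at its centre. -/
lemma integral_dbar_cut_div (p : ℂ) {R : ℝ} (hR : 0 < R) :
    ∫ z, dbar (cut p R) z / (z - p) = -(2 * Real.pi) := by
  have e1 : ∀ z, dbar (cut p R) z / (z - p)
      = (fun r : ℝ => (((-(2 / R ^ 2) * deriv Real.smoothTransition (2 - r ^ 2 / R ^ 2)) : ℝ) : ℂ)) ‖z - p‖ := by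
    intro z
    rw [dbar_cut]
    by_cases h : z - p = 0
    · rw [h]
      simp only [norm_zero]
      rw [deriv_smoothTransition_of_one_lt (by norm_num)]
      simp
    · rw [mul_div_assoc, div_self h, mul_one]
  simp_rw [e1]
  rw [integral_sub_right_eq_self (fun z : ℂ => (fun r : ℝ => (((-(2 / R ^ 2) * deriv Real.smoothTransition (2 - r ^ 2 / R ^ 2)) : ℝ) : ℂ)) ‖z‖) p]
  rw [integral_fun_norm_addHaar (volume : Measure ℂ) (fun r : ℝ => (((-(2 / R ^ 2) * deriv Real.smoothTransition (2 - r ^ 2 / R ^ 2)) : ℝ) : ℂ))]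
  simp only [Complex.finrank_real_complex]
  have e2 : (volume : Measure ℂ).real (Metric.ball 0 1) = Real.pi := by
    rw [Measure.real, Complex.volume_ball]
    simp
  rw [e2]
  have e3 : ∀ y : ℝ, y ^ (2 - 1) • (((-(2 / R ^ 2) * deriv Real.smoothTransition (2 - y ^ 2 / R ^ 2)) : ℝ) : ℂ)
      = ((deriv Real.smoothTransition (2 - y ^ 2 / R ^ 2) * (-(2 * y / R ^ 2)) : ℝ) : ℂ) := by
    intro y
    rw [Complex.real_smul, ← ofReal_mul]
    congr 1
    norm_num
    ring
  simp_rw [e3]
  rw [integral_complex_ofReal]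
  have hderiv : ∀ y : ℝ, HasDerivAt (fun y : ℝ => Real.smoothTransition (2 - y ^ 2 / R ^ 2))
      (deriv Real.smoothTransition (2 - y ^ 2 / R ^ 2) * (-(2 * y / R ^ 2))) y := by
    intro y
    have h1 : HasDerivAt (fun y : ℝ => 2 - y ^ 2 / R ^ 2) (-(2 * y / R ^ 2)) y := by
      have := ((hasDerivAt_pow 2 y).div_const (R ^ 2)).const_sub 2
      simpa using this
    exact (hasDerivAt_smoothTransition _).comp y h1
  have hzero : ∀ y : ℝ, 2 * R < y → Real.smoothTransition (2 - y ^ 2 / R ^ 2) = 0 := by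
    intro y hy
    apply Real.smoothTransition.zero_of_nonpos
    have : 2 ≤ y ^ 2 / R ^ 2 := by
      rw [le_div_iff₀ (by positivity)]
      nlinarith
    linarith
  have e4 : ∫ y in Ioi (0:ℝ), (deriv Real.smoothTransition (2 - y ^ 2 / R ^ 2) * (-(2 * y / R ^ 2)))
      = 0 - Real.smoothTransition (2 - 0 ^ 2 / R ^ 2) := by
    apply integral_Ioi_of_hasDerivAt_of_tendsto (f := fun y : ℝ => Real.smoothTransition (2 - y ^ 2 / R ^ 2))
    · have : Continuous (fun y : ℝ => Real.smoothTransition (2 - y ^ 2 / R ^ 2)) := by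
        have := Real.smoothTransition.continuous
        fun_prop
      exact this.continuousWithinAt
    · intro y _
      exact hderiv y
    · apply Integrable.integrableOn
      apply Continuous.integrable_of_hasCompactSupport
      · have := continuous_deriv_smoothTransition
        fun_prop
      · apply HasCompactSupport.intro (isCompact_Icc (a := -(2 * R)) (b := 2 * R))
        intro y hy
        have hy2 : 2 * R < |y| := by
          rw [mem_Icc, not_and_or, not_le, not_le] at hy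
          rcases hy with hy | hy
          · rw [lt_abs]; right; linarith
          · rw [lt_abs]; left; linarith
        rw [deriv_smoothTransition_of_neg, zero_mul]
        have : 2 < y ^ 2 / R ^ 2 := by
          rw [lt_div_iff₀ (by positivity), ← sq_abs y]
          nlinarith
        linarith
    · apply tendsto_const_nhds.congr'
      filter_upwards [eventually_gt_atTop (2 * R)] with y hy
      exact (hzero y hy).symm
  rw [e4]
  simp [Real.smoothTransition.one_of_one_le]

end Pool.Agent.GP
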