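import Mathlib

set_option autoImplicit false

open Complex MeasureTheory Set Filter Topology

namespace Pool.Agent.GP

/-- Twice the d-bar operator, `∂f/∂x + i ∂f/∂y`, for a function of one complex variable. -/
noncomputable def dbar (f : ℂ → ℂ) (z : ℂ) : ℂ := fderiv ℝ f z 1 + I * fderiv ℝ f z I

lemma dbar_of_differentiableAt {f : ℂ → ℂ} {z : ℂ} (h : DifferentiableAt ℂ f z) :
    dbar f z = 0 := by
  have h1 : fderiv ℝ f z = (fderiv ℂ f z).restrictScalars ℝ := by
    exact (h.hasFDerivAt.restrictScalars ℝ).fderiv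
  have h2 : fderiv ℂ f z I = I * fderiv ℂ f z 1 := by
    have := (fderiv ℂ f z).map_smul I 1
    simpa using this
  unfold dbar
  rw [h1]
  simp only [ContinuousLinearMap.coe_restrictScalars']
  rw [h2, ← mul_assoc, I_mul_I]
  ring

lemma dbar_mul {f g : ℂ → ℂ} {z : ℂ} (hf : DifferentiableAt ℝ f z) (hg : DifferentiableAt ℝ g z) :
    dbar (fun w => f w * g w) z = f z * dbar g z + g z * dbar f z := by
  unfold dbar
  rw [show (fun w => f w * g w) = f * g from rfl, fderiv_mul hf hg]
  simp only [ContinuousLinearMap.add_apply, ContinuousLinearMap.smul_apply, smul_eq_mul]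
  ring

lemma dbar_sub {f g : ℂ → ℂ} {z : ℂ} (hf : DifferentiableAt ℝ f z) (hg : DifferentiableAt ℝ g z) :
    dbar (fun w => f w - g w) z = dbar f z - dbar g z := by
  unfold dbar
  rw [show (fun w => f w - g w) = f - g from rfl, fderiv_sub hf hg]
  simp only [ContinuousLinearMap.sub_apply]
  ring

lemma dbar_congr {f g : ℂ → ℂ} {z : ℂ} (h : f =ᶠ[𝓝 z] g) : dbar f z = dbar g z := by
  unfold dbar
  rw [h.fderiv_eq]

lemma dbar_const (c : ℂ) (z : ℂ) : dbar (fun _ => c) z = 0 := by
  unfold dbar; simp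

lemma dbar_eq_zero_of_notMem_tsupport {f : ℂ → ℂ} {z : ℂ} (h : z ∉ tsupport f) :
    dbar f z = 0 := by
  have : f =ᶠ[𝓝 z] fun _ => 0 := notMem_tsupport_iff_eventuallyEq.mp h
  rw [dbar_congr this, dbar_const]

lemma continuous_dbar {f : ℂ → ℂ} (hf : ContDiff ℝ 1 f) : Continuous (dbar f) := by
  unfold dbar
  have h : Continuous (fderiv ℝ f) := hf.continuous_fderiv (by norm_num)
  fun_prop

lemma norm_dbar_le (f : ℂ → ℂ) (z : ℂ) : ‖dbar f z‖ ≤ 2 * ‖fderiv ℝ f z‖ := by
  unfold dbar
  calc ‖fderiv ℝ f z 1 + I * fderiv ℝ f z I‖ ≤ ‖fderiv ℝ f z 1‖ + ‖I * fderiv ℝ f z I‖ :=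
        norm_add_le _ _
    _ ≤ ‖fderiv ℝ f z‖ * ‖(1:ℂ)‖ + ‖fderiv ℝ f z‖ * ‖I‖ := by
        gcongr
        · exact (fderiv ℝ f z).le_opNorm 1
        · rw [norm_mul, norm_I, one_mul]
          simpa using (fderiv ℝ f z).le_opNorm I
    _ = 2 * ‖fderiv ℝ f z‖ := by simp; ring

/-- Compactly supported functions have d-bar of integral zero. -/
lemma integral_dbar_eq_zero {f : ℂ → ℂ} (hf : ContDiff ℝ 1 f) (hc : HasCompactSupport f) :
    ∫ z, dbar f z = 0 := by
  have hcont : Continuous (fderiv ℝ f) := hf.continuous_fderiv (by norm_num)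
  have hsupp : HasCompactSupport (fderiv ℝ f) := hc.fderiv ℝ
  have key : ∀ v : ℂ, ∫ z, fderiv ℝ f z v = 0 := by
    intro v
    have hint : Integrable (fun z => fderiv ℝ f z v) := by
      apply Continuous.integrable_of_hasCompactSupport
      · fun_prop
      · exact hc.fderiv_apply ℝ v
    have := integral_mul_fderiv_eq_neg_fderiv_mul_of_integrable (μ := (volume : Measure ℂ))
      (f := fun _ : ℂ => (1:ℂ)) (g := f) (v := v) (by simp) (by simpa using hint)
      (by simpa using hf.continuous.integrable_of_hasCompactSupport hc)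
      (fun x _ => differentiableAt_const _) (fun x _ => (hf.differentiable (by norm_num)).differentiableAt)
    simpa using this
  have h1 : Integrable (fun z => fderiv ℝ f z 1) := by
    apply Continuous.integrable_of_hasCompactSupport
    · fun_prop
    · exact hc.fderiv_apply ℝ 1
  have h2 : Integrable (fun z => I * fderiv ℝ f z I) := by
    apply Integrable.const_mul
    apply Continuous.integrable_of_hasCompactSupport
    · fun_prop
    · exact hc.fderiv_apply ℝ I
  unfold dbar
  rw [integral_add h1 h2, key 1, integral_const_mul, key I]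
  simp

/-- A product of a compactly supported `C^1` function and a function holomorphic near its
support is `C^1`. -/
lemma contDiff_mul_of_holo {χ g : ℂ → ℂ} {U : Set ℂ} (hχ : ContDiff ℝ 1 χ) (hU : IsOpen U)
    (hs : tsupport χ ⊆ U) (hg : DifferentiableOn ℂ g U) :
    ContDiff ℝ 1 (fun z => χ z * g z) := by
  rw [contDiff_iff_contDiffAt]
  intro z
  by_cases hz : z ∈ U
  · have h1 : ContDiffAt ℂ 1 g z := (hg.analyticAt (hU.mem_nhds hz)).contDiffAt
    exact hχ.contDiffAt.mul (h1.restrict_scalars ℝ)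
  · have h2 : z ∉ tsupport χ := fun h => hz (hs h)
    have h3 : χ =ᶠ[𝓝 z] fun _ => 0 := notMem_tsupport_iff_eventuallyEq.mp h2
    have h4 : (fun z => χ z * g z) =ᶠ[𝓝 z] fun _ => 0 := by
      filter_upwards [h3] with w hw
      rw [hw, zero_mul]
    exact contDiffAt_const.congr_of_eventuallyEq h4

lemma dbar_mul_holo {χ g : ℂ → ℂ} {U : Set ℂ} (hχ : ContDiff ℝ 1 χ) (hU : IsOpen U)
    (hs : tsupport χ ⊆ U) (hg : DifferentiableOn ℂ g U) (z : ℂ) :
    dbar (fun w => χ w * g w) z = dbar χ z * g z := by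
  by_cases hz : z ∈ U
  · have h1 : DifferentiableAt ℂ g z := hg.differentiableAt (hU.mem_nhds hz)
    rw [dbar_mul (hχ.differentiable (by norm_num)).differentiableAt (h1.restrictScalars ℝ),
      dbar_of_differentiableAt h1]
    ring
  · have h2 : z ∉ tsupport χ := fun h => hz (hs h)
    have h3 : χ =ᶠ[𝓝 z] fun _ => 0 := notMem_tsupport_iff_eventuallyEq.mp h2
    have h4 : (fun z => χ z * g z) =ᶠ[𝓝 z] fun _ => 0 := by
      filter_upwards [h3] with w hw
      rw [hw, zero_mul]
    rw [dbar_congr h4, dbar_const, dbar_eq_zero_of_notMem_tsupport h2, zero_mul]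

lemma continuous_dbar_mul {χ g : ℂ → ℂ} {U : Set ℂ} (hχ : ContDiff ℝ 1 χ) (hU : IsOpen U)
    (hs : tsupport χ ⊆ U) (hg : DifferentiableOn ℂ g U) :
    Continuous (fun z => dbar χ z * g z) := by
  have := continuous_dbar (contDiff_mul_of_holo hχ hU hs hg)
  convert this using 1
  ext z
  rw [dbar_mul_holo hχ hU hs hg]

lemma hasCompactSupport_dbar {χ : ℂ → ℂ} (hc : HasCompactSupport χ) :
    HasCompactSupport (dbar χ) := by
  apply HasCompactSupport.intro hc
  intro x hx
  exact dbar_eq_zero_of_notMem_tsupport hx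

lemma integrable_dbar_mul {χ g : ℂ → ℂ} {U : Set ℂ} (hχ : ContDiff ℝ 1 χ)
    (hc : HasCompactSupport χ) (hU : IsOpen U)
    (hs : tsupport χ ⊆ U) (hg : DifferentiableOn ℂ g U) :
    Integrable (fun z => dbar χ z * g z) := by
  apply (continuous_dbar_mul hχ hU hs hg).integrable_of_hasCompactSupport
  exact (hasCompactSupport_dbar hc).mul_right

/-- Green's formula against a function holomorphic near the support of the cutoff. -/
lemma integral_dbar_mul_eq_zero {χ g : ℂ → ℂ} {U : Set ℂ} (hχ : ContDiff ℝ 1 χ)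
    (hc : HasCompactSupport χ) (hU : IsOpen U)
    (hs : tsupport χ ⊆ U) (hg : DifferentiableOn ℂ g U) :
    ∫ z, dbar χ z * g z = 0 := by
  have h := integral_dbar_eq_zero (contDiff_mul_of_holo hχ hU hs hg) hc.mul_right
  rw [← h]
  congr 1
  ext z
  rw [dbar_mul_holo hχ hU hs hg]

end Pool.Agent.GP
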