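import Mathlib

set_option autoImplicit false

open Set Filter Topology

namespace Pool.Agent.GP

/-- The two coordinates of `ℂ × ℂ`, indexed by `Bool`. -/
def co (b : Bool) (z : ℂ × ℂ) : ℂ := cond b z.2 z.1

/-- The affine function `z_b - a_j`. -/
def lin (a : ℕ → ℂ) (α : Bool × ℕ) (z : ℂ × ℂ) : ℂ := co α.1 z - a α.2

/-- The space of points `(z, t)`. -/
abbrev Om := (ℂ × ℂ) × (Bool × ℕ → ℂ)

/-- Generators. -/
def gens (S : Finset (Bool × ℕ)) : Set (Om → ℂ) :=
  {F | (∃ b, F = fun ω => co b ω.1) ∨ ∃ α ∈ S, F = fun ω => ω.2 α}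

/-- Polynomials in `z` and `t_α`, `α ∈ S`, as functions. -/
def polyAlg (S : Finset (Bool × ℕ)) : Subalgebra ℂ (Om → ℂ) := Algebra.adjoin ℂ (gens S)

lemma co_mem (S : Finset (Bool × ℕ)) (b : Bool) : (fun ω : Om => co b ω.1) ∈ polyAlg S :=
  Algebra.subset_adjoin (Or.inl ⟨b, rfl⟩)

lemma t_mem {S : Finset (Bool × ℕ)} {α : Bool × ℕ} (h : α ∈ S) :
    (fun ω : Om => ω.2 α) ∈ polyAlg S :=
  Algebra.subset_adjoin (Or.inr ⟨α, h, rfl⟩)

lemma lin_mem (a : ℕ → ℂ) (S : Finset (Bool × ℕ)) (α : Bool × ℕ) :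
    (fun ω : Om => lin a α ω.1) ∈ polyAlg S := by
  have : (fun ω : Om => lin a α ω.1)
      = (fun ω : Om => co α.1 ω.1) - algebraMap ℂ (Om → ℂ) (a α.2) := by
    ext ω
    simp [lin]
  rw [this]
  exact (polyAlg S).sub_mem (co_mem S _) ((polyAlg S).algebraMap_mem _)

lemma polyAlg_indep {S : Finset (Bool × ℕ)} {F : Om → ℂ} (hF : F ∈ polyAlg S) {ω ω' : Om}
    (h1 : ω.1 = ω'.1) (h2 : ∀ α ∈ S, ω.2 α = ω'.2 α) : F ω = F ω' := by
  induction hF using Algebra.adjoin_induction with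
  | mem F hF =>
    rcases hF with ⟨b, rfl⟩ | ⟨α, hα, rfl⟩
    · simp [h1]
    · exact h2 α hα
  | algebraMap r => simp
  | add F G _ _ hF hG => simp [hF, hG]
  | mul F G _ _ hF hG => simp [hF, hG]

lemma polyAlg_contDiff {S : Finset (Bool × ℕ)} {F : Om → ℂ} (hF : F ∈ polyAlg S) :
    ContDiff ℂ 1 (fun z : ℂ × ℂ => F (z, 0)) := by
  induction hF using Algebra.adjoin_induction with
  | mem F hF =>
    rcases hF with ⟨b, rfl⟩ | ⟨α, hα, rfl⟩
    · cases b
      · exact contDiff_fst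
      · exact contDiff_snd
    · exact contDiff_const
  | algebraMap r => exact contDiff_const
  | add F G _ _ hF hG => exact hF.add hG
  | mul F G _ _ hF hG => exact hF.mul hG

lemma polyAlg_mono {S S' : Finset (Bool × ℕ)} (h : S ⊆ S') : polyAlg S ≤ polyAlg S' := by
  apply Algebra.adjoin_mono
  rintro F (⟨b, rfl⟩ | ⟨α, hα, rfl⟩)
  · exact Or.inl ⟨b, rfl⟩
  · exact Or.inr ⟨α, h hα, rfl⟩

lemma one_step (a : ℕ → ℂ) {S : Finset (Bool × ℕ)} {α : Bool × ℕ} {F : Om → ℂ}
    (hF : F ∈ polyAlg (insert α S)) :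
    ∃ (m : ℕ) (F0 F1 : Om → ℂ), F0 ∈ polyAlg S ∧ F1 ∈ polyAlg S ∧
      ∀ ω : Om, ω.2 α ^ 2 * lin a α ω.1 = 1 →
        lin a α ω.1 ^ m * F ω = F0 ω + ω.2 α * F1 ω := by
  induction hF using Algebra.adjoin_induction with
  | mem F hF =>
    rcases hF with ⟨b, rfl⟩ | ⟨β, hβ, rfl⟩
    · exact ⟨0, _, 0, co_mem S b, (polyAlg S).zero_mem, fun ω _ => by simp⟩
    · by_cases h : β = α
      · subst h
        exact ⟨0, 0, 1, (polyAlg S).zero_mem, (polyAlg S).one_mem, fun ω _ => by simp⟩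
      · have hβS : β ∈ S := Finset.mem_of_mem_insert_of_ne hβ h
        exact ⟨0, _, 0, t_mem hβS, (polyAlg S).zero_mem, fun ω _ => by simp⟩
  | algebraMap r =>
    exact ⟨0, _, 0, (polyAlg S).algebraMap_mem r, (polyAlg S).zero_mem, fun ω _ => by simp⟩
  | add F G _ _ hF hG =>
    obtain ⟨m, F0, F1, hF0, hF1, hF⟩ := hF
    obtain ⟨n, G0, G1, hG0, hG1, hG⟩ := hG
    have hl := lin_mem a S α
    refine ⟨m + n, (fun ω => lin a α ω.1) ^ n * F0 + (fun ω => lin a α ω.1) ^ m * G0,
      (fun ω => lin a α ω.1) ^ n * F1 + (fun ω => lin a α ω.1) ^ m * G1,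
      (polyAlg S).add_mem ((polyAlg S).mul_mem ((polyAlg S).pow_mem hl n) hF0)
        ((polyAlg S).mul_mem ((polyAlg S).pow_mem hl m) hG0),
      (polyAlg S).add_mem ((polyAlg S).mul_mem ((polyAlg S).pow_mem hl n) hF1)
        ((polyAlg S).mul_mem ((polyAlg S).pow_mem hl m) hG1), ?_⟩
    intro ω hω
    have h1 := hF ω hω
    have h2 := hG ω hω
    simp only [Pi.add_apply, Pi.mul_apply, Pi.pow_apply]
    rw [pow_add]
    linear_combination (lin a α ω.1) ^ n * h1 + (lin a α ω.1) ^ m * h2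
  | mul F G _ _ hF hG =>
    obtain ⟨m, F0, F1, hF0, hF1, hF⟩ := hF
    obtain ⟨n, G0, G1, hG0, hG1, hG⟩ := hG
    have hl := lin_mem a S α
    refine ⟨m + n + 1, (fun ω => lin a α ω.1) * (F0 * G0) + F1 * G1,
      (fun ω => lin a α ω.1) * (F0 * G1 + F1 * G0),
      (polyAlg S).add_mem ((polyAlg S).mul_mem hl ((polyAlg S).mul_mem hF0 hG0))
        ((polyAlg S).mul_mem hF1 hG1),
      (polyAlg S).mul_mem hl ((polyAlg S).add_mem ((polyAlg S).mul_mem hF0 hG1)
        ((polyAlg S).mul_mem hF1 hG0)), ?_⟩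
    intro ω hω
    have h1 := hF ω hω
    have h2 := hG ω hω
    simp only [Pi.add_apply, Pi.mul_apply]
    have h3 : lin a α ω.1 ^ (m + n + 1) * (F ω * G ω)
        = lin a α ω.1 * ((lin a α ω.1 ^ m * F ω) * (lin a α ω.1 ^ n * G ω)) := by ring
    rw [h3, h1, h2]
    linear_combination F1 ω * G1 ω * hω

/-- Elimination of the square roots. -/
theorem elim (a : ℕ → ℂ) (S : Finset (Bool × ℕ)) :
    ∀ F ∈ polyAlg S, ∃ Q : ℂ × ℂ → ℂ, ContDiff ℂ 1 Q ∧
      (∀ ω : Om, (∀ α ∈ S, ω.2 α ^ 2 * lin a α ω.1 = 1) → F ω = 0 → Q ω.1 = 0) ∧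
      (∀ z : ℂ × ℂ, (∀ α ∈ S, lin a α z ≠ 0) → Q z = 0 →
        ∃ t : Bool × ℕ → ℂ, (∀ α ∈ S, t α ^ 2 * lin a α z = 1) ∧ F (z, t) = 0) := by
  induction S using Finset.induction_on with
  | empty =>
    intro F hF
    refine ⟨fun z => F (z, 0), polyAlg_contDiff hF, ?_, ?_⟩
    · intro ω _ h
      rw [← h]
      exact polyAlg_indep hF rfl (by simp)
    · intro z _ h
      exact ⟨0, by simp, h⟩
  | insert α S hα ih =>
    intro F hF
    obtain ⟨m, F0, F1, hF0, hF1, hF'⟩ := one_step a hF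
    have hl := lin_mem a S α
    set G : Om → ℂ := (fun ω => lin a α ω.1) * (F0 * F0) - F1 * F1 with hG
    have hGm : G ∈ polyAlg S := (polyAlg S).sub_mem
      ((polyAlg S).mul_mem hl ((polyAlg S).mul_mem hF0 hF0)) ((polyAlg S).mul_mem hF1 hF1)
    obtain ⟨Q, hQ, hQ1, hQ2⟩ := ih G hGm
    refine ⟨Q, hQ, ?_, ?_⟩
    · intro ω hω h0
      apply hQ1 ω (fun β hβ => hω β (Finset.mem_insert_of_mem hβ))
      have h1 := hω α (Finset.mem_insert_self α S)
      have h2 := hF' ω h1
      rw [h0, mul_zero] at h2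
      simp only [hG, Pi.sub_apply, Pi.mul_apply]
      -- l F0^2 - F1^2 = l (F0 + t F1)(F0 - t F1)
      have h3 : F0 ω = - (ω.2 α * F1 ω) := by linear_combination -h2
      rw [h3]
      linear_combination (F1 ω * F1 ω) * h1
    · intro z hz hQz
      obtain ⟨t, ht, hGt⟩ := hQ2 z (fun β hβ => hz β (Finset.mem_insert_of_mem hβ)) hQz
      have hlz : lin a α z ≠ 0 := hz α (Finset.mem_insert_self α S)
      obtain ⟨s, hs⟩ : ∃ s : ℂ, s ^ 2 = (lin a α z)⁻¹ :=
        IsAlgClosed.exists_pow_nat_eq _ (by norm_num)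
      have hs' : s ^ 2 * lin a α z = 1 := by rw [hs, inv_mul_cancel₀ hlz]
      simp only [hG, Pi.sub_apply, Pi.mul_apply] at hGt
      have hprod : (F0 (z, t) + s * F1 (z, t)) * (F0 (z, t) - s * F1 (z, t)) = 0 := by
        have : lin a α z * ((F0 (z, t) + s * F1 (z, t)) * (F0 (z, t) - s * F1 (z, t))) = 0 := by
          linear_combination hGt - (F1 (z, t) * F1 (z, t)) * hs'
        rcases mul_eq_zero.mp this with h | h
        · exact absurd h hlz
        · exact h
      have key : ∀ s' : ℂ, s' ^ 2 * lin a α z = 1 → F0 (z, t) + s' * F1 (z, t) = 0 →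
          ∃ t' : Bool × ℕ → ℂ, (∀ β ∈ insert α S, t' β ^ 2 * lin a β z = 1) ∧
            F (z, t') = 0 := by
        intro s' hs' h0
        refine ⟨Function.update t α s', ?_, ?_⟩
        · intro β hβ
          by_cases h : β = α
          · subst h
            rw [Function.update_self]
            exact hs'
          · rw [Function.update_of_ne h]
            exact ht β (Finset.mem_of_mem_insert_of_ne hβ h)
        · have hind : ∀ G' ∈ polyAlg S, G' (z, Function.update t α s') = G' (z, t) := by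
            intro G' hG'
            refine polyAlg_indep hG' (ω := (z, Function.update t α s')) (ω' := (z, t)) rfl ?_
            intro β hβ
            have : β ≠ α := fun h => hα (h ▸ hβ)
            exact Function.update_of_ne this _ _
          have h1 := hF' (z, Function.update t α s') (by
            simp only [Function.update_self]
            exact hs')
          simp only [Function.update_self] at h1
          rw [hind F0 hF0, hind F1 hF1, h0] at h1
          rcases mul_eq_zero.mp h1 with h | h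
          · exact absurd h (pow_ne_zero _ hlz)
          · exact h
      rcases mul_eq_zero.mp hprod with h | h
      · exact key s hs' h
      · apply key (-s) (by rw [neg_sq]; exact hs')
        linear_combination h

end Pool.Agent.GP
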