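import Pool.Agent.GP.Alg

set_option autoImplicit false

open Set Filter Topology

namespace Pool.Agent.GP

/-- Membership in the polynomial hull. -/
def InHull {N : ℕ} (X : Set (Fin N → ℂ)) (z : Fin N → ℂ) : Prop :=
  ∀ p : MvPolynomial (Fin N) ℂ, ∃ x ∈ X, ‖MvPolynomial.eval z p‖ ≤ ‖MvPolynomial.eval x p‖

/-- `P(X)` has no nonzero bounded point derivation at any point of the hull. -/
def NoDer {N : ℕ} (X : Set (Fin N → ℂ)) : Prop :=
  ∀ z : Fin N → ℂ, InHull X z → ∀ D : MvPolynomial (Fin N) ℂ →ₗ[ℂ] ℂ,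
    (∀ p q : MvPolynomial (Fin N) ℂ,
      D (p * q) = MvPolynomial.eval z p * D q + MvPolynomial.eval z q * D p) →
    (∃ C : ℝ, ∀ p : MvPolynomial (Fin N) ℂ, ∀ M : ℝ,
      (∀ x ∈ X, ‖MvPolynomial.eval x p‖ ≤ M) → ‖D p‖ ≤ C * M) → D = 0

lemma der_one {N : ℕ} {z : Fin N → ℂ} {D : MvPolynomial (Fin N) ℂ →ₗ[ℂ] ℂ}
    (hD : ∀ p q : MvPolynomial (Fin N) ℂ,
      D (p * q) = MvPolynomial.eval z p * D q + MvPolynomial.eval z q * D p) : D 1 = 0 := by
  have := hD 1 1
  rw [mul_one, (MvPolynomial.eval z).map_one, one_mul] at this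
  linear_combination (-1 : ℂ) * this

lemma der_eq_zero {N : ℕ} {z : Fin N → ℂ} {D : MvPolynomial (Fin N) ℂ →ₗ[ℂ] ℂ}
    (hD : ∀ p q : MvPolynomial (Fin N) ℂ,
      D (p * q) = MvPolynomial.eval z p * D q + MvPolynomial.eval z q * D p)
    (hX : ∀ i, D (MvPolynomial.X i) = 0) : D = 0 := by
  have h : ∀ p, D p = 0 := by
    intro p
    induction p using MvPolynomial.induction_on with
    | C a =>
      rw [show (MvPolynomial.C a : MvPolynomial (Fin N) ℂ) = a • 1 by
        rw [MvPolynomial.smul_eq_C_mul, mul_one], map_smul, der_one hD, smul_zero]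
    | add p q hp hq => rw [map_add, hp, hq, add_zero]
    | mul_X p i hp => rw [hD, hp, hX i, mul_zero, mul_zero, add_zero]
  ext p
  simp [h]

section

variable {Y : Type*} [TopologicalSpace Y] [CompactSpace Y] {N : ℕ}

/-- Substitution of continuous functions into polynomials. -/
noncomputable def Phi (F : Fin N → C(Y, ℂ)) : MvPolynomial (Fin N) ℂ →ₐ[ℂ] C(Y, ℂ) :=
  MvPolynomial.aeval F

omit [CompactSpace Y] in
lemma Phi_apply (F : Fin N → C(Y, ℂ)) (p : MvPolynomial (Fin N) ℂ) (y : Y) :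
    Phi F p y = MvPolynomial.eval (fun i => F i y) p := by
  unfold Phi
  induction p using MvPolynomial.induction_on with
  | C a => simp
  | add p q hp hq => simp [hp, hq]
  | mul_X p i hp => simp [hp]

omit [CompactSpace Y] in
lemma Phi_X (F : Fin N → C(Y, ℂ)) (i : Fin N) : Phi F (MvPolynomial.X i) = F i := by
  unfold Phi; simp

/-- The uniform algebra generated by the functions `F i`. -/
noncomputable def PB (F : Fin N → C(Y, ℂ)) : Subalgebra ℂ C(Y, ℂ) :=
  (Phi F).range.topologicalClosure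

lemma PB_closed (F : Fin N → C(Y, ℂ)) : IsClosed (PB F : Set C(Y, ℂ)) :=
  Subalgebra.isClosed_topologicalClosure _

lemma mem_PB (F : Fin N → C(Y, ℂ)) (i : Fin N) : F i ∈ PB F := by
  apply Subalgebra.le_topologicalClosure
  exact ⟨MvPolynomial.X i, Phi_X F i⟩

lemma PB_subset_closure (F : Fin N → C(Y, ℂ)) :
    (PB F : Set C(Y, ℂ)) = closure (Set.range (Phi F)) := by
  unfold PB
  rw [Subalgebra.topologicalClosure_coe]
  rfl

lemma der_ext {F : Fin N → C(Y, ℂ)} {z : Fin N → ℂ}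
    (hz : InHull (Set.range fun (y : Y) (i : Fin N) => F i y) z)
    {D : MvPolynomial (Fin N) ℂ →ₗ[ℂ] ℂ}
    (hD : ∀ p q : MvPolynomial (Fin N) ℂ,
      D (p * q) = MvPolynomial.eval z p * D q + MvPolynomial.eval z q * D p)
    (hDb : ∃ C : ℝ, ∀ p : MvPolynomial (Fin N) ℂ, ∀ M : ℝ,
      (∀ x ∈ Set.range fun (y : Y) (i : Fin N) => F i y, ‖MvPolynomial.eval x p‖ ≤ M) →
        ‖D p‖ ≤ C * M) :
    ∃ D' φ' : C(Y, ℂ) →L[ℂ] ℂ, (∀ p, D' (Phi F p) = D p) ∧
      (∀ p, φ' (Phi F p) = MvPolynomial.eval z p) ∧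
      (∀ f ∈ PB F, ∀ g ∈ PB F, D' (f * g) = φ' f * D' g + φ' g * D' f) ∧
      (∀ f ∈ PB F, ∀ g ∈ PB F, φ' (f * g) = φ' f * φ' g) ∧
      (∀ f, ‖φ' f‖ ≤ ‖f‖) := by
  obtain ⟨C, hC⟩ := hDb
  have hsup : ∀ p, ∀ x ∈ Set.range fun (y : Y) (i : Fin N) => F i y,
      ‖MvPolynomial.eval x p‖ ≤ ‖Phi F p‖ := by
    rintro p x ⟨y, rfl⟩
    have := (Phi F p).norm_coe_le_norm y
    rwa [Phi_apply] at this
  obtain ⟨D', hD'1, hD'2⟩ := ext_functional (Phi F).toLinearMap D (C := max C 0)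
    (le_max_right _ _) (by
      intro p
      refine (hC p ‖Phi F p‖ (hsup p)).trans ?_
      have : 0 ≤ ‖Phi F p‖ := norm_nonneg _
      have h2 : C ≤ max C 0 := le_max_left _ _
      show C * ‖Phi F p‖ ≤ max C 0 * ‖Phi F p‖
      gcongr)
  obtain ⟨φ', hφ'1, hφ'2⟩ := ext_functional (Phi F).toLinearMap
    (MvPolynomial.aeval z : MvPolynomial (Fin N) ℂ →ₐ[ℂ] ℂ).toLinearMap (C := 1) zero_le_one (by
      intro p
      obtain ⟨x, hx, hx'⟩ := hz p
      rw [one_mul]
      have : (MvPolynomial.aeval z : MvPolynomial (Fin N) ℂ →ₐ[ℂ] ℂ).toLinearMap p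
          = MvPolynomial.eval z p := by
        simp [MvPolynomial.aeval_eq_eval]
      rw [this]
      exact hx'.trans (hsup p x hx))
  have hφp : ∀ p, φ' (Phi F p) = MvPolynomial.eval z p := by
    intro p
    have := hφ'1 p
    simpa [MvPolynomial.aeval_eq_eval] using this
  have hDp : ∀ p, D' (Phi F p) = D p := fun p => hD'1 p
  refine ⟨D', φ', hDp, hφp, ?_, ?_, ?_⟩
  · intro f hf g hg
    have hf' : f ∈ closure (Set.range (Phi F)) := by rw [← PB_subset_closure]; exact hf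
    have hg' : g ∈ closure (Set.range (Phi F)) := by rw [← PB_subset_closure]; exact hg
    have step1 : ∀ p, ∀ g ∈ closure (Set.range (Phi F)),
        D' (Phi F p * g) = φ' (Phi F p) * D' g + φ' g * D' (Phi F p) := by
      intro p g hg
      have hcl : IsClosed {g : C(Y, ℂ) | D' (Phi F p * g) =
          φ' (Phi F p) * D' g + φ' g * D' (Phi F p)} :=
        isClosed_eq (by fun_prop) (by fun_prop)
      have hsub : Set.range (Phi F) ⊆ {g : C(Y, ℂ) | D' (Phi F p * g) =
          φ' (Phi F p) * D' g + φ' g * D' (Phi F p)} := by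
        rintro _ ⟨q, rfl⟩
        show D' (Phi F p * Phi F q) = _
        rw [← map_mul, hDp, hφp, hDp, hφp, hDp]
        exact hD p q
      exact (closure_minimal hsub hcl) hg
    have hcl : IsClosed {f : C(Y, ℂ) | D' (f * g) = φ' f * D' g + φ' g * D' f} :=
      isClosed_eq (by fun_prop) (by fun_prop)
    have hsub : Set.range (Phi F) ⊆ {f : C(Y, ℂ) | D' (f * g) = φ' f * D' g + φ' g * D' f} := by
      rintro _ ⟨p, rfl⟩
      exact step1 p g hg'
    exact (closure_minimal hsub hcl) hf'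
  · intro f hf g hg
    have hf' : f ∈ closure (Set.range (Phi F)) := by rw [← PB_subset_closure]; exact hf
    have hg' : g ∈ closure (Set.range (Phi F)) := by rw [← PB_subset_closure]; exact hg
    have step1 : ∀ p, ∀ g ∈ closure (Set.range (Phi F)),
        φ' (Phi F p * g) = φ' (Phi F p) * φ' g := by
      intro p g hg
      have hcl : IsClosed {g : C(Y, ℂ) | φ' (Phi F p * g) = φ' (Phi F p) * φ' g} :=
        isClosed_eq (by fun_prop) (by fun_prop)
      have hsub : Set.range (Phi F) ⊆ {g : C(Y, ℂ) | φ' (Phi F p * g) =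
          φ' (Phi F p) * φ' g} := by
        rintro _ ⟨q, rfl⟩
        show φ' (Phi F p * Phi F q) = _
        rw [← map_mul, hφp, hφp, hφp, map_mul]
      exact (closure_minimal hsub hcl) hg
    have hcl : IsClosed {f : C(Y, ℂ) | φ' (f * g) = φ' f * φ' g} :=
      isClosed_eq (by fun_prop) (by fun_prop)
    have hsub : Set.range (Phi F) ⊆ {f : C(Y, ℂ) | φ' (f * g) = φ' f * φ' g} := by
      rintro _ ⟨p, rfl⟩
      exact step1 p g hg'
    exact (closure_minimal hsub hcl) hf'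
  · intro f
    simpa using hφ'2 f

end

end Pool.Agent.GP
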