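import Pool.Agent.GP.MaxLocal

set_option autoImplicit false

open Complex MeasureTheory Set Filter Topology

namespace Pool.Agent.GP

lemma integrable_norm_dbar_cut (p : ℂ) {R : ℝ} (hR : 0 < R) :
    Integrable (fun z => ‖dbar (cut p R) z‖) := by
  apply Integrable.norm
  exact (continuous_dbar (cut_contDiff p R)).integrable_of_hasCompactSupport
    (hasCompactSupport_dbar (hasCompactSupport_cut p hR))

lemma integral_norm_dbar_cut_le {B : ℝ} (hB : ∀ x, |deriv Real.smoothTransition x| ≤ B)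
    (p : ℂ) {R : ℝ} (hR : 0 < R) :
    ∫ z, ‖dbar (cut p R) z‖ ≤ 16 * Real.pi * B * R := by
  have h1 : ‖∫ z, (((‖dbar (cut p R) z‖ : ℝ)) : ℂ)‖ ≤ (4 * B / R) * (Real.pi * (2 * R) ^ 2) := by
    apply norm_integral_le_of_support (p := p) (by positivity)
    · intro z hz
      have : dbar (cut p R) z = 0 := by
        by_contra h
        exact absurd (dbar_cut_ne_zero hR h).2 (not_le.mpr hz)
      rw [this]; simp
    · intro z _
      rw [Complex.norm_real, norm_norm]
      exact norm_dbar_cut_le hB p hR z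
  rw [integral_complex_ofReal, Complex.norm_real] at h1
  refine (le_abs_self _).trans (h1.trans (le_of_eq ?_))
  field_simp
  ring

/-- The cutoff adapted to finitely many holes in the unit disc. -/
noncomputable def chiS (A : ℕ → ℂ) (ρ : ℕ → ℝ) (S : Finset ℕ) (z : ℂ) : ℂ :=
  cut 0 (1 / 2) z * ∏ j ∈ S, (1 - cut (A j) (ρ j) z)

variable {A : ℕ → ℂ} {ρ : ℕ → ℝ}

lemma chiS_contDiff (A : ℕ → ℂ) (ρ : ℕ → ℝ) (S : Finset ℕ) : ContDiff ℝ 1 (chiS A ρ S) := by
  unfold chiS
  exact (cut_contDiff _ _).mul (contDiff_prod fun j _ => contDiff_const.sub (cut_contDiff _ _))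

lemma chiS_compact (A : ℕ → ℂ) (ρ : ℕ → ℝ) (S : Finset ℕ) : HasCompactSupport (chiS A ρ S) :=
  (hasCompactSupport_cut 0 (by norm_num : (0:ℝ) < 1 / 2)).mul_right

lemma chiS_tsupport (hρ : ∀ j, 0 < ρ j) (S : Finset ℕ) :
    tsupport (chiS A ρ S) ⊆ {z | ‖z‖ ≤ 1 ∧ ∀ j ∈ S, ρ j ≤ ‖z - A j‖} := by
  apply closure_minimal
  · intro z hz
    rw [Function.mem_support] at hz
    constructor
    · by_contra h
      apply hz
      unfold chiS
      rw [cut_eq_zero (by norm_num), zero_mul]
      rw [sub_zero]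
      linarith [not_le.mp h]
    · intro j hj
      by_contra h
      apply hz
      unfold chiS
      rw [Finset.prod_eq_zero hj, mul_zero]
      rw [cut_eq_one (hρ j) (not_le.mp h).le, sub_self]
  · have h : {z : ℂ | ‖z‖ ≤ 1 ∧ ∀ j ∈ S, ρ j ≤ ‖z - A j‖}
        = {z : ℂ | ‖z‖ ≤ 1} ∩ ⋂ j ∈ S, {z : ℂ | ρ j ≤ ‖z - A j‖} := by
      ext z; simp
    rw [h]
    apply IsClosed.inter
    · exact isClosed_le continuous_norm continuous_const
    · apply isClosed_biInter
      intro j _
      exact isClosed_le continuous_const (by fun_prop)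

lemma norm_chiS_le (A : ℕ → ℂ) (ρ : ℕ → ℝ) (S : Finset ℕ) (z : ℂ) : ‖chiS A ρ S z‖ ≤ 1 := by
  unfold chiS
  rw [norm_mul, norm_prod]
  have h1 := norm_cut_le 0 (1 / 2) z
  have h2 : ∏ j ∈ S, ‖1 - cut (A j) (ρ j) z‖ ≤ 1 :=
    Finset.prod_le_one (fun j _ => norm_nonneg _) fun j _ => norm_one_sub_cut_le _ _ _
  have h3 : 0 ≤ ∏ j ∈ S, ‖1 - cut (A j) (ρ j) z‖ := Finset.prod_nonneg fun j _ => norm_nonneg _
  calc ‖cut 0 (1 / 2) z‖ * ∏ j ∈ S, ‖1 - cut (A j) (ρ j) z‖ ≤ 1 * 1 := by gcongr
    _ = 1 := one_mul 1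

lemma norm_dbar_chiS_le (A : ℕ → ℂ) (ρ : ℕ → ℝ) (S : Finset ℕ) (z : ℂ) :
    ‖dbar (chiS A ρ S) z‖ ≤ ‖dbar (cut 0 (1 / 2)) z‖ + ∑ j ∈ S, ‖dbar (cut (A j) (ρ j)) z‖ := by
  induction S using Finset.induction_on with
  | empty =>
    have : chiS A ρ ∅ = cut 0 (1 / 2) := by
      ext z; simp [chiS]
    rw [this]
    simp
  | insert j S hj ih =>
    have h1 : chiS A ρ (insert j S) = fun z => chiS A ρ S z * (1 - cut (A j) (ρ j) z) := by
      ext z
      unfold chiS
      rw [Finset.prod_insert hj]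
      ring
    have h2 : DifferentiableAt ℝ (fun z => 1 - cut (A j) (ρ j) z) z :=
      ((contDiff_const.sub (cut_contDiff (A j) (ρ j))).differentiable (by norm_num)).differentiableAt
    have h3 : dbar (fun z => 1 - cut (A j) (ρ j) z) z = - dbar (cut (A j) (ρ j)) z := by
      rw [dbar_sub (differentiableAt_const _)
        ((cut_contDiff (A j) (ρ j)).differentiable (by norm_num)).differentiableAt, dbar_const,
        zero_sub]
    rw [h1, dbar_mul ((chiS_contDiff A ρ S).differentiable (by norm_num)).differentiableAt h2, h3,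
      Finset.sum_insert hj]
    have h4 := norm_chiS_le A ρ S z
    have h5 := norm_one_sub_cut_le (A j) (ρ j) z
    calc ‖chiS A ρ S z * -dbar (cut (A j) (ρ j)) z + (1 - cut (A j) (ρ j) z) * dbar (chiS A ρ S) z‖
        ≤ ‖chiS A ρ S z‖ * ‖dbar (cut (A j) (ρ j)) z‖
          + ‖1 - cut (A j) (ρ j) z‖ * ‖dbar (chiS A ρ S) z‖ := by
          refine (norm_add_le _ _).trans ?_
          rw [norm_mul, norm_mul, norm_neg]
      _ ≤ 1 * ‖dbar (cut (A j) (ρ j)) z‖ + 1 * (‖dbar (cut 0 (1 / 2)) z‖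
          + ∑ j ∈ S, ‖dbar (cut (A j) (ρ j)) z‖) := by gcongr
      _ = _ := by ring

lemma chiS_eq_one (S : Finset ℕ) (hρ : ∀ j, 0 < ρ j) {x : ℂ} (hx : ‖x‖ ≤ 1 / 4)
    (hxA : ∀ j ∈ S, 4 * ρ j ≤ ‖x - A j‖) : chiS A ρ S =ᶠ[𝓝 x] fun _ => 1 := by
  have h1 : ∀ᶠ z in 𝓝 x, ‖z‖ < 1 / 2 := by
    have : Tendsto (fun z : ℂ => ‖z‖) (𝓝 x) (𝓝 ‖x‖) := continuous_norm.tendsto x
    exact this.eventually_lt_const (by linarith)
  have h2 : ∀ᶠ z in 𝓝 x, ∀ j ∈ S, 2 * ρ j < ‖z - A j‖ := by
    rw [Filter.eventually_all_finset]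
    intro j hj
    have : Tendsto (fun z : ℂ => ‖z - A j‖) (𝓝 x) (𝓝 ‖x - A j‖) := by
      have : Continuous (fun z : ℂ => ‖z - A j‖) := by fun_prop
      exact this.tendsto x
    exact this.eventually_const_lt (by linarith [hxA j hj, hρ j])
  filter_upwards [h1, h2] with z hz1 hz2
  unfold chiS
  rw [cut_eq_one (by norm_num) (by rw [sub_zero]; exact hz1.le), Finset.prod_eq_one, one_mul]
  intro j hj
  rw [cut_eq_zero (hρ j) (hz2 j hj).le, sub_zero]

/-- The Gleason type estimate for functions holomorphic off finitely many small holes. -/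
theorem gleason_est {B : ℝ} (hB : ∀ x, |deriv Real.smoothTransition x| ≤ B)
    (hρ : ∀ j, 0 < ρ j) (S : Finset ℕ) {f : ℂ → ℂ}
    (hf : DifferentiableOn ℂ f {z | ∀ j ∈ S, z ≠ A j}) {Mf : ℝ}
    (hMf : ∀ z, ‖z‖ ≤ 1 → (∀ j ∈ S, ρ j ≤ ‖z - A j‖) → ‖f z‖ ≤ Mf) {x y : ℂ}
    (hx : ‖x‖ ≤ 1 / 4) (hy : ‖y‖ ≤ 1 / 4) (hxA : ∀ j ∈ S, 4 * ρ j ≤ ‖x - A j‖)
    (hyA : ∀ j ∈ S, 4 * ρ j ≤ ‖y - A j‖) :
    2 * Real.pi * ‖f x - f y‖ ≤ Mf * (16 * ‖x - y‖ * (8 * Real.pi * B) +
      ∑ j ∈ S, (2 / ‖x - A j‖ + 2 / ‖y - A j‖) * (16 * Real.pi * B * ρ j)) := by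
  have hMf0 : 0 ≤ Mf := (norm_nonneg (f x)).trans
    (hMf x (by linarith) fun j hj => by linarith [hxA j hj, hρ j])
  have hUo : IsOpen {z : ℂ | ∀ j ∈ S, z ≠ A j} := by
    have : {z : ℂ | ∀ j ∈ S, z ≠ A j} = ⋂ j ∈ S, {z : ℂ | z ≠ A j} := by ext z; simp
    rw [this]
    apply isOpen_biInter_finset
    intro j _
    exact isOpen_ne
  have hsU : tsupport (chiS A ρ S) ⊆ {z : ℂ | ∀ j ∈ S, z ≠ A j} := by
    intro z hz j hj h
    have := (chiS_tsupport hρ S hz).2 j hj
    rw [h, sub_self, norm_zero] at this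
    linarith [hρ j]
  obtain ⟨ix, ex⟩ := integral_dbar_mul_div (chiS_contDiff A ρ S) (chiS_compact A ρ S) hUo hsU hf
    (chiS_eq_one S hρ hx hxA)
  obtain ⟨iy, ey⟩ := integral_dbar_mul_div (chiS_contDiff A ρ S) (chiS_compact A ρ S) hUo hsU hf
    (chiS_eq_one S hρ hy hyA)
  have e1 : ∫ z, (dbar (chiS A ρ S) z * f z / (z - x) - dbar (chiS A ρ S) z * f z / (z - y))
      = -(2 * Real.pi) * (f x - f y) := by
    rw [integral_sub ix iy, ex, ey]
    ring
  have e2 : 2 * Real.pi * ‖f x - f y‖ = ‖-(2 * Real.pi) * (f x - f y)‖ := by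
    rw [norm_mul, norm_neg, norm_mul, Complex.norm_real, Real.norm_eq_abs,
      abs_of_pos Real.pi_pos]
    simp
  rw [e2, ← e1]
  set G : ℂ → ℝ := fun z => Mf * ((16 * ‖x - y‖) * ‖dbar (cut 0 (1 / 2)) z‖ +
    ∑ j ∈ S, (2 / ‖x - A j‖ + 2 / ‖y - A j‖) * ‖dbar (cut (A j) (ρ j)) z‖) with hG
  have i0 : Integrable (fun z => (16 * ‖x - y‖) * ‖dbar (cut 0 (1 / 2)) z‖) :=
    (integrable_norm_dbar_cut 0 (by norm_num)).const_mul _
  have iS : Integrable (fun z => ∑ j ∈ S, (2 / ‖x - A j‖ + 2 / ‖y - A j‖) *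
      ‖dbar (cut (A j) (ρ j)) z‖) := by
    apply integrable_finset_sum
    intro j _
    exact (integrable_norm_dbar_cut (A j) (hρ j)).const_mul _
  have iG : Integrable G := (i0.add iS).const_mul Mf
  have hpt : ∀ z, ‖dbar (chiS A ρ S) z * f z / (z - x) - dbar (chiS A ρ S) z * f z / (z - y)‖
      ≤ G z := by
    intro z
    by_cases h0 : dbar (chiS A ρ S) z = 0
    · rw [h0]
      simp only [zero_mul, zero_div, sub_self, norm_zero]
      positivity
    · have hzt : z ∈ tsupport (chiS A ρ S) := by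
        by_contra h
        exact h0 (dbar_eq_zero_of_notMem_tsupport h)
      have hz := chiS_tsupport hρ S hzt
      have hfz := hMf z hz.1 hz.2
      have e3 : dbar (chiS A ρ S) z * f z / (z - x) - dbar (chiS A ρ S) z * f z / (z - y)
          = f z * (dbar (chiS A ρ S) z * (1 / (z - x) - 1 / (z - y))) := by ring
      rw [e3, norm_mul, norm_mul]
      simp only [hG]
      have h1 := norm_dbar_chiS_le A ρ S z
      have h2 : ‖dbar (chiS A ρ S) z‖ * ‖1 / (z - x) - 1 / (z - y)‖ ≤
          (16 * ‖x - y‖) * ‖dbar (cut 0 (1 / 2)) z‖ +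
          ∑ j ∈ S, (2 / ‖x - A j‖ + 2 / ‖y - A j‖) * ‖dbar (cut (A j) (ρ j)) z‖ := by
        calc ‖dbar (chiS A ρ S) z‖ * ‖1 / (z - x) - 1 / (z - y)‖
            ≤ (‖dbar (cut 0 (1 / 2)) z‖ + ∑ j ∈ S, ‖dbar (cut (A j) (ρ j)) z‖)
              * ‖1 / (z - x) - 1 / (z - y)‖ := by gcongr
          _ = ‖1 / (z - x) - 1 / (z - y)‖ * ‖dbar (cut 0 (1 / 2)) z‖
              + ∑ j ∈ S, ‖1 / (z - x) - 1 / (z - y)‖ * ‖dbar (cut (A j) (ρ j)) z‖ := by
              rw [add_mul, Finset.sum_mul]
              congr 1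
              · ring
              · apply Finset.sum_congr rfl
                intro j _; ring
          _ ≤ _ := by
              apply add_le_add
              · by_cases hd : dbar (cut 0 (1 / 2)) z = 0
                · rw [hd]; simp
                · have h3 := (dbar_cut_ne_zero (by norm_num) hd).1
                  rw [sub_zero] at h3
                  have hzx : 1 / 4 ≤ ‖z - x‖ := by
                    have := norm_sub_norm_le z x
                    linarith
                  have hzy : 1 / 4 ≤ ‖z - y‖ := by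
                    have := norm_sub_norm_le z y
                    linarith
                  have hzx0 : z - x ≠ 0 := by
                    intro h; rw [h, norm_zero] at hzx; linarith
                  have hzy0 : z - y ≠ 0 := by
                    intro h; rw [h, norm_zero] at hzy; linarith
                  have e4 : 1 / (z - x) - 1 / (z - y) = (x - y) / ((z - x) * (z - y)) := by
                    field_simp
                    ring
                  have h4 : ‖1 / (z - x) - 1 / (z - y)‖ ≤ 16 * ‖x - y‖ := by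
                    rw [e4, norm_div, norm_mul, div_le_iff₀ (by positivity)]
                    have h5 : 1 ≤ 16 * (‖z - x‖ * ‖z - y‖) := by nlinarith
                    have h6 : 0 ≤ ‖x - y‖ := norm_nonneg _
                    nlinarith
                  gcongr
              · apply Finset.sum_le_sum
                intro j hj
                by_cases hd : dbar (cut (A j) (ρ j)) z = 0
                · rw [hd]; simp
                · have h3 := (dbar_cut_ne_zero (hρ j) hd).2
                  have hρj := hρ j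
                  have hxj := hxA j hj
                  have hyj := hyA j hj
                  have hzx : ‖x - A j‖ / 2 ≤ ‖z - x‖ := by
                    have : ‖x - A j‖ ≤ ‖z - x‖ + ‖z - A j‖ := by
                      calc ‖x - A j‖ = ‖(z - A j) - (z - x)‖ := by congr 1; ring
                        _ ≤ ‖z - A j‖ + ‖z - x‖ := norm_sub_le _ _
                        _ = _ := add_comm _ _
                    linarith
                  have hzy : ‖y - A j‖ / 2 ≤ ‖z - y‖ := by
                    have : ‖y - A j‖ ≤ ‖z - y‖ + ‖z - A j‖ := by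
                      calc ‖y - A j‖ = ‖(z - A j) - (z - y)‖ := by congr 1; ring
                        _ ≤ ‖z - A j‖ + ‖z - y‖ := norm_sub_le _ _
                        _ = _ := add_comm _ _
                    linarith
                  have hx0 : 0 < ‖x - A j‖ := by linarith
                  have hy0 : 0 < ‖y - A j‖ := by linarith
                  have h4 : ‖1 / (z - x) - 1 / (z - y)‖ ≤ 2 / ‖x - A j‖ + 2 / ‖y - A j‖ := by
                    refine (norm_sub_le _ _).trans ?_
                    rw [norm_div, norm_div, norm_one]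
                    have k1 : 1 / ‖z - x‖ ≤ 2 / ‖x - A j‖ := by
                      rw [div_le_div_iff₀ (by linarith) hx0]
                      linarith
                    have k2 : 1 / ‖z - y‖ ≤ 2 / ‖y - A j‖ := by
                      rw [div_le_div_iff₀ (by linarith) hy0]
                      linarith
                    linarith
                  gcongr
      calc ‖f z‖ * (‖dbar (chiS A ρ S) z‖ * ‖1 / (z - x) - 1 / (z - y)‖)
          ≤ Mf * (‖dbar (chiS A ρ S) z‖ * ‖1 / (z - x) - 1 / (z - y)‖) := by gcongr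
        _ ≤ _ := by gcongr
  refine (norm_integral_le_of_norm_le iG (Eventually.of_forall hpt)).trans ?_
  simp only [hG]
  rw [integral_const_mul]
  rw [integral_add i0 iS, integral_const_mul, integral_finset_sum _ (fun j _ =>
    (integrable_norm_dbar_cut (A j) (hρ j)).const_mul _)]
  gcongr with j hj
  · have := integral_norm_dbar_cut_le hB 0 (by norm_num : (0:ℝ) < 1 / 2)
    linarith
  · rw [integral_const_mul]
    have := integral_norm_dbar_cut_le hB (A j) (hρ j)
    have h0 : 0 ≤ 2 / ‖x - A j‖ + 2 / ‖y - A j‖ := by positivity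
    gcongr

end Pool.Agent.GP
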