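import Mathlib

set_option autoImplicit false

open Set Filter Topology

namespace Pool.Agent.GP

/-- The grid point `(p + i q) / n`. -/
noncomputable def gpt (n : ℕ) (p q : ℤ) : ℂ := ⟨(p : ℝ) / n, (q : ℝ) / n⟩

/-- The index box. -/
noncomputable def box (n : ℕ) : Finset (ℤ × ℤ) := Finset.Icc (-(n:ℤ)) n ×ˢ Finset.Icc (-(n:ℤ)) n

lemma mem_box {n : ℕ} {x : ℤ × ℤ} : x ∈ box n ↔ (-(n:ℤ) ≤ x.1 ∧ x.1 ≤ n) ∧ (-(n:ℤ) ≤ x.2 ∧ x.2 ≤ n) := by
  simp [box]

/-- Auxiliary weight. -/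
noncomputable def wA (i j : ℤ) : ℝ := if i ≠ 0 ∧ |j| ≤ |i| then 1 / (|i| : ℤ) else 0

lemma wA_nonneg (i j : ℤ) : 0 ≤ wA i j := by
  unfold wA
  split_ifs
  · positivity
  · exact le_rfl

lemma sum_wA_le (n : ℕ) (i q0 : ℤ) : ∑ q ∈ Finset.Icc (-(n:ℤ)) n, wA i (q - q0) ≤ 3 := by
  by_cases hi : i = 0
  · have : ∀ q ∈ Finset.Icc (-(n:ℤ)) n, wA i (q - q0) = 0 := by
      intro q _
      simp [wA, hi]
    rw [Finset.sum_congr rfl this]
    simp
  · have h1 : ∑ q ∈ Finset.Icc (-(n:ℤ)) n, wA i (q - q0)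
        = ∑ q ∈ (Finset.Icc (-(n:ℤ)) n).filter (fun q => |q - q0| ≤ |i|), (1 / (|i| : ℤ) : ℝ) := by
      rw [Finset.sum_filter]
      apply Finset.sum_congr rfl
      intro q _
      simp [wA, hi]
    rw [h1, Finset.sum_const, nsmul_eq_mul]
    have hipos : 1 ≤ |i| := Int.one_le_abs hi
    have hsub : (Finset.Icc (-(n:ℤ)) n).filter (fun q => |q - q0| ≤ |i|)
        ⊆ Finset.Icc (q0 - |i|) (q0 + |i|) := by
      intro q hq
      rw [Finset.mem_filter] at hq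
      rw [Finset.mem_Icc]
      have := abs_le.mp hq.2
      constructor <;> linarith [this.1, this.2]
    have hcard := Finset.card_le_card hsub
    rw [Int.card_Icc] at hcard
    have hcard' : (((Finset.Icc (-(n:ℤ)) n).filter (fun q => |q - q0| ≤ |i|)).card : ℝ)
        ≤ 2 * ((|i| : ℤ) : ℝ) + 1 := by
      have h2 : (((Finset.Icc (-(n:ℤ)) n).filter (fun q => |q - q0| ≤ |i|)).card : ℤ)
          ≤ 2 * |i| + 1 := by
        have : ((q0 + |i| + 1 - (q0 - |i|)).toNat : ℤ) = 2 * |i| + 1 := by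
          rw [Int.toNat_of_nonneg (by linarith)]
          ring
        rw [← this]
        exact_mod_cast hcard
      exact_mod_cast h2
    have hi' : (1:ℝ) ≤ ((|i| : ℤ) : ℝ) := by exact_mod_cast hipos
    rw [mul_one_div, div_le_iff₀ (by linarith)]
    linarith

lemma coord_lower {n : ℕ} (hn : 1 ≤ n) (t : ℝ) (p : ℤ) :
    |(p - round (n * t) : ℤ)| / (2 * (n:ℝ)) ≤ |t - (p:ℝ) / n| := by
  have hn0 : (0:ℝ) < n := by exact_mod_cast hn
  set p0 := round (n * t) with hp0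
  have h1 : |t - (p:ℝ) / n| = |n * t - p| / n := by
    rw [show t - (p:ℝ) / n = (n * t - p) / n by field_simp, abs_div, abs_of_pos hn0]
  rw [h1, div_le_div_iff₀ (by positivity) hn0]
  by_cases hp : p = p0
  · rw [hp]
    simp
    positivity
  · have h2 : |n * t - p0| ≤ 1 / 2 := abs_sub_round (n * t)
    have h3 : (1:ℝ) ≤ ((|p - p0| : ℤ) : ℝ) := by
      have : 1 ≤ |p - p0| := Int.one_le_abs (sub_ne_zero.mpr hp)
      exact_mod_cast this
    have h4 : ((|p - p0| : ℤ) : ℝ) ≤ |n * t - p| + |n * t - p0| := by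
      push_cast
      calc |(p:ℝ) - p0| = |(n * t - p0) - (n * t - p)| := by congr 1; ring
        _ ≤ |n * t - p0| + |n * t - p| := abs_sub _ _
        _ = _ := add_comm _ _
    have h5 : ((|p - p0| : ℤ) : ℝ) ≤ 2 * |n * t - p| := by linarith
    calc ((|p - p0| : ℤ) : ℝ) * n ≤ (2 * |n * t - p|) * n := by gcongr
      _ = |n * t - p| * (2 * n) := by ring

/-- Upper bound for the grid sum of reciprocal distances. -/
theorem grid_upper {n : ℕ} (hn : 1 ≤ n) {z : ℂ} {δ : ℝ} (hδ : 0 < δ)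
    (h : ∀ x ∈ box n, δ ≤ ‖z - gpt n x.1 x.2‖) :
    ∑ x ∈ box n, 1 / ‖z - gpt n x.1 x.2‖ ≤ 1 / δ + 36 * n ^ 2 := by
  have hn0 : (0:ℝ) < n := by exact_mod_cast hn
  have hn1 : (1:ℝ) ≤ n := by exact_mod_cast hn
  set p0 := round (n * z.re) with hp0
  set q0 := round (n * z.im) with hq0
  have hpt : ∀ x ∈ box n, 1 / ‖z - gpt n x.1 x.2‖ ≤
      (if x = (p0, q0) then 1 / δ else 0) +
        2 * n * (wA (x.1 - p0) (x.2 - q0) + wA (x.2 - q0) (x.1 - p0)) := by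
    rintro ⟨p, q⟩ hx
    have hδz := h _ hx
    simp only at hδz ⊢
    have hre : ((|p - p0| : ℤ) : ℝ) / (2 * n) ≤ ‖z - gpt n p q‖ :=
      (coord_lower hn z.re p).trans (Complex.abs_re_le_norm (z - gpt n p q))
    have him : ((|q - q0| : ℤ) : ℝ) / (2 * n) ≤ ‖z - gpt n p q‖ :=
      (coord_lower hn z.im q).trans (Complex.abs_im_le_norm (z - gpt n p q))
    have hpos : 0 < ‖z - gpt n p q‖ := lt_of_lt_of_le hδ hδz
    by_cases hxx : (p, q) = (p0, q0)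
    · rw [if_pos hxx]
      have h1 : 1 / ‖z - gpt n p q‖ ≤ 1 / δ := one_div_le_one_div_of_le hδ hδz
      have h2 := wA_nonneg (p - p0) (q - q0)
      have h3 := wA_nonneg (q - q0) (p - p0)
      have h4 : 0 ≤ 2 * n * (wA (p - p0) (q - q0) + wA (q - q0) (p - p0)) := by positivity
      linarith
    · rw [if_neg hxx, zero_add]
      by_cases hc : |q - q0| ≤ |p - p0|
      · have hp : p - p0 ≠ 0 := by
          intro h0
          rw [h0, abs_zero] at hc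
          have : q - q0 = 0 := abs_eq_zero.mp (le_antisymm hc (abs_nonneg _))
          exact hxx (by rw [sub_eq_zero.mp h0, sub_eq_zero.mp this])
        have hw : wA (p - p0) (q - q0) = 1 / ((|p - p0| : ℤ) : ℝ) := by
          unfold wA
          rw [if_pos ⟨hp, hc⟩]
        have hk : (1:ℝ) ≤ ((|p - p0| : ℤ) : ℝ) := by
          exact_mod_cast Int.one_le_abs hp
        have h3 := wA_nonneg (q - q0) (p - p0)
        have h5 : 1 / ‖z - gpt n p q‖ ≤ 2 * n * (1 / ((|p - p0| : ℤ) : ℝ)) := by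
          rw [div_le_iff₀ hpos]
          have h6 : 2 * (n:ℝ) * (1 / ((|p - p0| : ℤ) : ℝ)) * (((|p - p0| : ℤ) : ℝ) / (2 * n)) = 1 := by
            field_simp
          calc (1:ℝ) = 2 * (n:ℝ) * (1 / ((|p - p0| : ℤ) : ℝ)) * (((|p - p0| : ℤ) : ℝ) / (2 * n)) := h6.symm
            _ ≤ 2 * (n:ℝ) * (1 / ((|p - p0| : ℤ) : ℝ)) * ‖z - gpt n p q‖ := by gcongr
        calc 1 / ‖z - gpt n p q‖ ≤ 2 * n * (1 / ((|p - p0| : ℤ) : ℝ)) := h5
          _ ≤ 2 * n * (wA (p - p0) (q - q0) + wA (q - q0) (p - p0)) := by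
              rw [hw]
              gcongr
              linarith
      · have hc' : |p - p0| ≤ |q - q0| := (not_le.mp hc).le
        have hq : q - q0 ≠ 0 := by
          intro h0
          rw [h0, abs_zero] at hc
          exact hc (abs_nonneg _)
        have hw : wA (q - q0) (p - p0) = 1 / ((|q - q0| : ℤ) : ℝ) := by
          unfold wA
          rw [if_pos ⟨hq, hc'⟩]
        have hk : (1:ℝ) ≤ ((|q - q0| : ℤ) : ℝ) := by
          exact_mod_cast Int.one_le_abs hq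
        have h3 := wA_nonneg (p - p0) (q - q0)
        have h5 : 1 / ‖z - gpt n p q‖ ≤ 2 * n * (1 / ((|q - q0| : ℤ) : ℝ)) := by
          rw [div_le_iff₀ hpos]
          have h6 : 2 * (n:ℝ) * (1 / ((|q - q0| : ℤ) : ℝ)) * (((|q - q0| : ℤ) : ℝ) / (2 * n)) = 1 := by
            field_simp
          calc (1:ℝ) = 2 * (n:ℝ) * (1 / ((|q - q0| : ℤ) : ℝ)) * (((|q - q0| : ℤ) : ℝ) / (2 * n)) := h6.symm
            _ ≤ 2 * (n:ℝ) * (1 / ((|q - q0| : ℤ) : ℝ)) * ‖z - gpt n p q‖ := by gcongr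
        calc 1 / ‖z - gpt n p q‖ ≤ 2 * n * (1 / ((|q - q0| : ℤ) : ℝ)) := h5
          _ ≤ 2 * n * (wA (p - p0) (q - q0) + wA (q - q0) (p - p0)) := by
              rw [hw]
              gcongr
              linarith
  have hcardI : ((Finset.Icc (-(n:ℤ)) n).card : ℝ) ≤ 3 * n := by
    rw [Int.card_Icc]
    have : (((n:ℤ) + 1 - -(n:ℤ)).toNat : ℤ) = 2 * n + 1 := by
      rw [Int.toNat_of_nonneg (by omega)]
      ring
    have h2 : (((n:ℤ) + 1 - -(n:ℤ)).toNat : ℝ) = 2 * n + 1 := by exact_mod_cast this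
    rw [h2]
    linarith
  have hs1 : ∑ x ∈ box n, wA (x.1 - p0) (x.2 - q0) ≤ 9 * n := by
    unfold box
    rw [Finset.sum_product]
    calc ∑ p ∈ Finset.Icc (-(n:ℤ)) n, ∑ q ∈ Finset.Icc (-(n:ℤ)) n, wA (p - p0) (q - q0)
        ≤ ∑ p ∈ Finset.Icc (-(n:ℤ)) n, (3:ℝ) := Finset.sum_le_sum fun p _ => sum_wA_le n _ _
      _ = ((Finset.Icc (-(n:ℤ)) n).card : ℝ) * 3 := by rw [Finset.sum_const, nsmul_eq_mul]
      _ ≤ 9 * n := by linarith
  have hs2 : ∑ x ∈ box n, wA (x.2 - q0) (x.1 - p0) ≤ 9 * n := by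
    unfold box
    rw [Finset.sum_product_right]
    calc ∑ q ∈ Finset.Icc (-(n:ℤ)) n, ∑ p ∈ Finset.Icc (-(n:ℤ)) n, wA (q - q0) (p - p0)
        ≤ ∑ p ∈ Finset.Icc (-(n:ℤ)) n, (3:ℝ) := Finset.sum_le_sum fun p _ => sum_wA_le n _ _
      _ = ((Finset.Icc (-(n:ℤ)) n).card : ℝ) * 3 := by rw [Finset.sum_const, nsmul_eq_mul]
      _ ≤ 9 * n := by linarith
  have hs0 : ∑ x ∈ box n, (if x = (p0, q0) then 1 / δ else 0) ≤ 1 / δ := by
    rw [Finset.sum_ite_eq']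
    split_ifs
    · exact le_rfl
    · positivity
  calc ∑ x ∈ box n, 1 / ‖z - gpt n x.1 x.2‖
      ≤ ∑ x ∈ box n, ((if x = (p0, q0) then 1 / δ else 0) +
        2 * n * (wA (x.1 - p0) (x.2 - q0) + wA (x.2 - q0) (x.1 - p0))) := Finset.sum_le_sum hpt
    _ = ∑ x ∈ box n, (if x = (p0, q0) then 1 / δ else 0) + 2 * n *
        (∑ x ∈ box n, wA (x.1 - p0) (x.2 - q0) + ∑ x ∈ box n, wA (x.2 - q0) (x.1 - p0)) := by
        rw [Finset.sum_add_distrib, ← Finset.mul_sum, Finset.sum_add_distrib]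
    _ ≤ 1 / δ + 2 * n * (9 * n + 9 * n) := by gcongr
    _ = 1 / δ + 36 * n ^ 2 := by ring

lemma coord_seq {n : ℕ} (hn : 1 ≤ n) {t : ℝ} (ht : |t| ≤ 1) :
    ∃ p0 s : ℤ, (s = 1 ∨ s = -1) ∧ ∀ i : ℕ, i < n →
      (-(n:ℤ) ≤ p0 + s * i ∧ p0 + s * i ≤ n) ∧ |(n:ℝ) * t - ((p0 + s * i : ℤ) : ℝ)| ≤ i + 1 := by
  have hn0 : (0:ℝ) < n := by exact_mod_cast hn
  have ht' := abs_le.mp ht
  by_cases h : t ≤ 0
  · refine ⟨⌈(n:ℝ) * t⌉, 1, Or.inl rfl, ?_⟩
    intro i hi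
    have h1 : ⌈(n:ℝ) * t⌉ ≤ 0 := by
      rw [Int.ceil_le]
      push_cast
      exact mul_nonpos_of_nonneg_of_nonpos hn0.le h
    have h2 : -(n:ℤ) ≤ ⌈(n:ℝ) * t⌉ := by
      have : (-(n:ℤ) : ℝ) ≤ ⌈(n:ℝ) * t⌉ := by
        refine le_trans ?_ (Int.le_ceil _)
        push_cast
        nlinarith [ht'.1]
      exact_mod_cast this
    have hi' : (i:ℤ) < n := by exact_mod_cast hi
    have hi0 : (0:ℤ) ≤ i := Int.natCast_nonneg i
    refine ⟨⟨by linarith, by linarith⟩, ?_⟩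
    have h3 := Int.le_ceil ((n:ℝ) * t)
    have h4 := Int.ceil_lt_add_one ((n:ℝ) * t)
    push_cast
    rw [abs_le]
    constructor <;> linarith
  · have h := (not_le.mp h).le
    refine ⟨⌊(n:ℝ) * t⌋, -1, Or.inr rfl, ?_⟩
    intro i hi
    have h1 : 0 ≤ ⌊(n:ℝ) * t⌋ := by
      rw [Int.le_floor]
      push_cast
      positivity
    have h2 : ⌊(n:ℝ) * t⌋ ≤ (n:ℤ) := by
      have : (⌊(n:ℝ) * t⌋ : ℝ) ≤ n := by
        refine (Int.floor_le _).trans ?_
        nlinarith [ht'.2]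
      exact_mod_cast this
    have hi' : (i:ℤ) < n := by exact_mod_cast hi
    have hi0 : (0:ℤ) ≤ i := Int.natCast_nonneg i
    refine ⟨⟨by linarith, by linarith⟩, ?_⟩
    have h3 := Int.floor_le ((n:ℝ) * t)
    have h4 := Int.lt_floor_add_one ((n:ℝ) * t)
    have hi0' : (0:ℝ) ≤ i := Nat.cast_nonneg i
    push_cast
    rw [abs_le]
    constructor <;> linarith

/-- Lower bound for the grid sum of squared reciprocal distances. -/
theorem grid_lower {n : ℕ} (hn : 1 ≤ n) {ζ : ℂ} (h1 : |ζ.re| ≤ 1) (h2 : |ζ.im| ≤ 1)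
    (hne : ∀ x ∈ box n, ζ - gpt n x.1 x.2 ≠ 0) :
    (n ^ 2 / 2 : ℝ) * ∑ i ∈ Finset.range n, (1 : ℝ) / (i + 1) ≤
      ∑ x ∈ box n, 1 / ‖ζ - gpt n x.1 x.2‖ ^ 2 := by
  have hn0 : (0:ℝ) < n := by exact_mod_cast hn
  obtain ⟨p0, s, hs, hp⟩ := coord_seq hn h1
  obtain ⟨q0, s', hs', hq⟩ := coord_seq hn h2
  have hs0 : s ≠ 0 := by rcases hs with h | h <;> rw [h] <;> norm_num
  have hs0' : s' ≠ 0 := by rcases hs' with h | h <;> rw [h] <;> norm_num
  set φ : ℕ × ℕ → ℤ × ℤ := fun x => (p0 + s * x.1, q0 + s' * x.2) with hφ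
  have hinj : Set.InjOn φ (Finset.range n ×ˢ Finset.range n : Finset (ℕ × ℕ)) := by
    rintro ⟨i, j⟩ _ ⟨i', j'⟩ _ heq
    simp only [hφ, Prod.mk.injEq] at heq
    have e1 : (i:ℤ) = i' := by
      have := mul_left_cancel₀ hs0 (add_left_cancel heq.1)
      exact this
    have e2 : (j:ℤ) = j' := by
      have := mul_left_cancel₀ hs0' (add_left_cancel heq.2)
      exact this
    exact Prod.ext (by exact_mod_cast e1) (by exact_mod_cast e2)
  have hsub : (Finset.range n ×ˢ Finset.range n).image φ ⊆ box n := by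
    intro x hx
    rw [Finset.mem_image] at hx
    obtain ⟨⟨i, j⟩, hij, rfl⟩ := hx
    rw [Finset.mem_product, Finset.mem_range, Finset.mem_range] at hij
    rw [mem_box]
    exact ⟨(hp i hij.1).1, (hq j hij.2).1⟩
  have hstep : ∀ i ∈ Finset.range n, (n ^ 2 / 2 : ℝ) * (1 / (i + 1)) ≤
      ∑ j ∈ Finset.range n, 1 / ‖ζ - gpt n (φ (i, j)).1 (φ (i, j)).2‖ ^ 2 := by
    intro i hi
    rw [Finset.mem_range] at hi
    have hsub' : Finset.range (i + 1) ⊆ Finset.range n := by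
      intro j hj
      rw [Finset.mem_range] at hj ⊢
      omega
    have hj : ∀ j ∈ Finset.range (i + 1), (n ^ 2 / (2 * (i + 1) ^ 2) : ℝ) ≤
        1 / ‖ζ - gpt n (φ (i, j)).1 (φ (i, j)).2‖ ^ 2 := by
      intro j hj
      rw [Finset.mem_range] at hj
      have hjn : j < n := by omega
      have hmem : φ (i, j) ∈ box n := by
        apply hsub
        rw [Finset.mem_image]
        exact ⟨(i, j), by simp [hi, hjn], rfl⟩
      have hpos : 0 < ‖ζ - gpt n (φ (i, j)).1 (φ (i, j)).2‖ ^ 2 := by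
        have := norm_pos_iff.mpr (hne _ hmem)
        positivity
      rw [div_le_div_iff₀ (by positivity) hpos, one_mul]
      have e1 := (hp i hi).2
      have e2 := (hq j hjn).2
      have hji : (j:ℝ) ≤ i := by
        have : j ≤ i := by omega
        exact_mod_cast this
      have hsq : ‖ζ - gpt n (φ (i, j)).1 (φ (i, j)).2‖ ^ 2
          = (ζ.re - ((p0 + s * i : ℤ) : ℝ) / n) ^ 2 + (ζ.im - ((q0 + s' * j : ℤ) : ℝ) / n) ^ 2 := by
        rw [← Complex.normSq_eq_norm_sq, Complex.normSq_apply]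
        simp only [hφ, gpt, Complex.sub_re, Complex.sub_im]
        ring
      rw [hsq]
      have k1 : (n:ℝ) ^ 2 * (ζ.re - ((p0 + s * i : ℤ) : ℝ) / n) ^ 2 ≤ (i + 1) ^ 2 := by
        rw [← mul_pow, show (n:ℝ) * (ζ.re - ((p0 + s * i : ℤ) : ℝ) / n)
          = n * ζ.re - ((p0 + s * i : ℤ) : ℝ) by field_simp, ← sq_abs]
        gcongr
      have k2 : (n:ℝ) ^ 2 * (ζ.im - ((q0 + s' * j : ℤ) : ℝ) / n) ^ 2 ≤ (i + 1) ^ 2 := by
        rw [← mul_pow, show (n:ℝ) * (ζ.im - ((q0 + s' * j : ℤ) : ℝ) / n)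
          = n * ζ.im - ((q0 + s' * j : ℤ) : ℝ) by field_simp, ← sq_abs]
        gcongr
        linarith
      linarith
    calc (n ^ 2 / 2 : ℝ) * (1 / (i + 1))
        = ∑ j ∈ Finset.range (i + 1), (n ^ 2 / (2 * (i + 1) ^ 2) : ℝ) := by
          rw [Finset.sum_const, Finset.card_range, nsmul_eq_mul]
          push_cast
          field_simp
      _ ≤ ∑ j ∈ Finset.range (i + 1), 1 / ‖ζ - gpt n (φ (i, j)).1 (φ (i, j)).2‖ ^ 2 :=
          Finset.sum_le_sum hj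
      _ ≤ _ := Finset.sum_le_sum_of_subset_of_nonneg hsub' fun _ _ _ => by positivity
  calc (n ^ 2 / 2 : ℝ) * ∑ i ∈ Finset.range n, (1 : ℝ) / (i + 1)
      = ∑ i ∈ Finset.range n, (n ^ 2 / 2 : ℝ) * (1 / (i + 1)) := by rw [Finset.mul_sum]
    _ ≤ ∑ i ∈ Finset.range n, ∑ j ∈ Finset.range n,
        1 / ‖ζ - gpt n (φ (i, j)).1 (φ (i, j)).2‖ ^ 2 := Finset.sum_le_sum hstep
    _ = ∑ x ∈ Finset.range n ×ˢ Finset.range n, 1 / ‖ζ - gpt n (φ x).1 (φ x).2‖ ^ 2 := by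
        rw [Finset.sum_product]
    _ = ∑ x ∈ (Finset.range n ×ˢ Finset.range n).image φ, 1 / ‖ζ - gpt n x.1 x.2‖ ^ 2 := by
        rw [Finset.sum_image hinj]
    _ ≤ _ := Finset.sum_le_sum_of_subset_of_nonneg hsub fun _ _ _ => by positivity

end Pool.Agent.GP
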