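import Pool.Agent.GP.CP

set_option autoImplicit false

open Complex MeasureTheory Set Filter Topology

namespace Pool.Agent.GP

lemma norm_integral_le_of_support {f : ℂ → ℂ} {p : ℂ} {R C : ℝ} (hR : 0 ≤ R)
    (h0 : ∀ z, R < ‖z - p‖ → f z = 0) (hC : ∀ z, ‖z - p‖ ≤ R → ‖f z‖ ≤ C) :
    ‖∫ z, f z‖ ≤ C * (Real.pi * R ^ 2) := by
  have h1 : ∫ z in Metric.closedBall p R, f z = ∫ z, f z := by
    apply setIntegral_eq_integral_of_forall_compl_eq_zero
    intro z hz
    apply h0
    rw [Metric.mem_closedBall, not_le, dist_eq_norm] at hz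
    exact hz
  rw [← h1]
  have hvol : (volume : Measure ℂ).real (Metric.closedBall p R) = Real.pi * R ^ 2 := by
    rw [Measure.real, Complex.volume_closedBall, ENNReal.toReal_mul, ENNReal.toReal_pow,
      ENNReal.toReal_ofReal hR]
    simp [mul_comm]
  rw [← hvol]
  apply norm_setIntegral_le_of_norm_le_const
  · exact (isCompact_closedBall p R).measure_lt_top
  · intro z hz
    apply hC
    rwa [Metric.mem_closedBall, dist_eq_norm] at hz

lemma exists_pos_le_norm {X : Type*} [TopologicalSpace X] {S : Set X} (hS : IsCompact S)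
    {Q : X → ℂ} (hQ : ContinuousOn Q S) (h0 : ∀ z ∈ S, Q z ≠ 0) :
    ∃ c > 0, ∀ z ∈ S, c ≤ ‖Q z‖ := by
  by_cases hne : S.Nonempty
  · obtain ⟨x, hx, hmin⟩ := hS.exists_isMinOn hne hQ.norm
    exact ⟨‖Q x‖, norm_pos_iff.mpr (h0 x hx), fun z hz => hmin hz⟩
  · refine ⟨1, one_pos, fun z hz => (hne ⟨z, hz⟩).elim⟩

lemma continuous_mul_of_tsupport {X : Type*} [TopologicalSpace X] {a F : X → ℂ} {U : Set X}
    (ha : Continuous a) (hU : IsOpen U) (hs : tsupport a ⊆ U) (hF : ContinuousOn F U) :
    Continuous (fun x => a x * F x) := by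
  rw [continuous_iff_continuousAt]
  intro x
  by_cases hx : x ∈ U
  · exact ha.continuousAt.mul (hF.continuousAt (hU.mem_nhds hx))
  · have h2 : x ∉ tsupport a := fun h => hx (hs h)
    have h3 : a =ᶠ[𝓝 x] fun _ => 0 := notMem_tsupport_iff_eventuallyEq.mp h2
    have h4 : (fun x => a x * F x) =ᶠ[𝓝 x] fun _ => 0 := by
      filter_upwards [h3] with w hw
      rw [hw, zero_mul]
    exact continuousAt_const.congr h4.symm

lemma dbar_comp_holo {h Q : ℂ → ℂ} {w : ℂ} (hh : DifferentiableAt ℝ h (Q w))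
    (hQ : DifferentiableAt ℂ Q w) :
    dbar (fun v => h (Q v)) w = (starRingEnd ℂ) (deriv Q w) * dbar h (Q w) := by
  have h1 : HasFDerivAt Q ((ContinuousLinearMap.toSpanSingleton ℂ (deriv Q w)).restrictScalars ℝ) w :=
    hQ.hasDerivAt.hasFDerivAt.restrictScalars ℝ
  have h2 := hh.hasFDerivAt.comp w h1
  have h3 : fderiv ℝ (fun v => h (Q v)) w = _ := h2.fderiv
  unfold dbar
  rw [h3]
  simp only [ContinuousLinearMap.comp_apply, ContinuousLinearMap.coe_restrictScalars',
    ContinuousLinearMap.toSpanSingleton_apply, smul_eq_mul, one_mul]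
  set L := fderiv ℝ h (Q w)
  set q := deriv Q w
  have key : ∀ v : ℂ, L v = v.re * L 1 + v.im * L I := by
    intro v
    have e : v = v.re • (1:ℂ) + v.im • I := by
      simp [Complex.re_add_im]
    conv_lhs => rw [e]
    rw [map_add, map_smul, map_smul]
    simp
  rw [key q, key (I * q)]
  apply Complex.ext <;> simp <;> ring

lemma tsupport_dbar_cut_subset (p : ℂ) {R : ℝ} (hR : 0 < R) :
    tsupport (dbar (cut p R)) ⊆ {w | R ≤ ‖w - p‖ ∧ ‖w - p‖ ≤ 2 * R} := by
  apply closure_minimal
  · intro w hw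
    rw [Function.mem_support] at hw
    constructor
    · by_contra h
      exact hw (dbar_cut_eq_zero_of_lt hR (not_le.mp h))
    · by_contra h
      apply hw
      apply dbar_eq_zero_of_notMem_tsupport
      intro h'
      have := tsupport_cut_subset p hR h'
      rw [Metric.mem_closedBall, dist_eq_norm] at this
      exact h this
  · have hc : Continuous fun w : ℂ => ‖w - p‖ := by fun_prop
    exact (isClosed_le continuous_const hc).inter (isClosed_le hc continuous_const)

lemma dbar_cut_ne_zero {p : ℂ} {R : ℝ} (hR : 0 < R) {w : ℂ} (h : dbar (cut p R) w ≠ 0) :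
    R ≤ ‖w - p‖ ∧ ‖w - p‖ ≤ 2 * R :=
  tsupport_dbar_cut_subset p hR (subset_tsupport _ h)

/-- The key decay estimate on one slice. -/
lemma slice_estimate {Q g : ℂ → ℂ} (hQ : Differentiable ℂ Q) (hg : Differentiable ℂ g)
    {p : ℂ} {σ R θ M B : ℝ} (hσ : 0 < σ) (hR : 0 < R) (hθ : 0 ≤ θ)
    (hB : ∀ x, |deriv Real.smoothTransition x| ≤ B) (l m : ℕ)
    (h1 : ∀ w, σ ≤ ‖w - p‖ → ‖w - p‖ ≤ 2 * σ → 2 * R ≤ ‖Q w‖)
    (h2 : ∀ w, ‖w - p‖ ≤ 2 * σ → ‖Q w‖ ≤ 2 * R → ‖g w‖ ≤ θ)
    (h3 : ∀ w, ‖w - p‖ ≤ 2 * σ → ‖deriv Q w‖ ≤ M) :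
    ‖∫ w, dbar (cut p σ) w * (g w ^ l * (w - p) ^ m / Q w)‖ ≤
      (M * (4 * B / R) * (θ ^ l * (2 * σ) ^ m / R)) * (Real.pi * (2 * σ) ^ 2) := by
  have hB0 : 0 ≤ B := (abs_nonneg _).trans (hB 0)
  have hM0 : 0 ≤ M := (norm_nonneg _).trans (h3 p (by simp; positivity))
  set ω := cut p σ with hω
  set κ : ℂ → ℂ := fun w => 1 - cut 0 R (Q w) with hκ
  set F : ℂ → ℂ := fun w => g w ^ l * (w - p) ^ m / Q w with hF
  have hωc : ContDiff ℝ 1 ω := cut_contDiff p σ
  have hQr : ContDiff ℝ 1 Q := hQ.contDiff.restrict_scalars ℝ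
  have hκc : ContDiff ℝ 1 κ := contDiff_const.sub ((cut_contDiff 0 R).comp hQr)
  have hχc : ContDiff ℝ 1 (fun w => ω w * κ w) := hωc.mul hκc
  have hχs : HasCompactSupport (fun w => ω w * κ w) := (hasCompactSupport_cut p hσ).mul_right
  have hUo : IsOpen {w | Q w ≠ 0} := isOpen_ne_fun hQ.continuous continuous_const
  have hκ0 : ∀ w, ‖Q w‖ ≤ R → κ w = 0 := by
    intro w hw
    simp only [hκ]
    rw [cut_eq_one hR (by simpa using hw), sub_self]
  have hκ1 : ∀ w, 2 * R ≤ ‖Q w‖ → κ w = 1 := by
    intro w hw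
    simp only [hκ]
    rw [cut_eq_zero hR (by simpa using hw), sub_zero]
  have hχU : tsupport (fun w => ω w * κ w) ⊆ {w | Q w ≠ 0} := by
    have : tsupport (fun w => ω w * κ w) ⊆ {w | R ≤ ‖Q w‖} := by
      apply closure_minimal
      · intro w hw
        by_contra h
        apply hw
        simp only [mem_ofPred_eq, not_le] at h
        show ω w * κ w = 0
        rw [hκ0 w h.le, mul_zero]
      · exact isClosed_le continuous_const (hQ.continuous.norm)
    intro w hw h
    have h' := this hw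
    simp only [mem_ofPred_eq] at h'
    rw [h, norm_zero] at h'
    linarith
  have hFU : DifferentiableOn ℂ F {w | Q w ≠ 0} := by
    apply DifferentiableOn.div
    · exact ((hg.pow l).mul ((differentiable_id.sub_const p).pow m)).differentiableOn
    · exact hQ.differentiableOn
    · intro w hw; exact hw
  have I1 := integral_dbar_mul_eq_zero hχc hχs hUo hχU hFU
  have J1 := integrable_dbar_mul hχc hχs hUo hχU hFU
  have hdω : Continuous (dbar ω) := continuous_dbar hωc
  have hA : tsupport (dbar ω) ⊆ {w | Q w ≠ 0} := by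
    intro w hw h
    have h' := tsupport_dbar_cut_subset p hσ hw
    have := h1 w h'.1 h'.2
    rw [h, norm_zero] at this
    linarith
  have J2 : Integrable (fun w => dbar ω w * F w) := by
    apply (continuous_mul_of_tsupport hdω hUo hA hFU.continuousOn).integrable_of_hasCompactSupport
    exact (hasCompactSupport_dbar (hasCompactSupport_cut p hσ)).mul_right
  have hdχ : ∀ w, dbar (fun w => ω w * κ w) w = ω w * dbar κ w + dbar ω w := by
    intro w
    rw [dbar_mul (hωc.differentiable (by norm_num)).differentiableAt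
      (hκc.differentiable (by norm_num)).differentiableAt]
    congr 1
    by_cases h : dbar ω w = 0
    · rw [h, mul_zero]
    · have h' := dbar_cut_ne_zero hσ h
      rw [hκ1 w (h1 w h'.1 h'.2), one_mul]
  have hsplit : ∀ w, dbar ω w * F w
      = dbar (fun w => ω w * κ w) w * F w - ω w * dbar κ w * F w := by
    intro w
    rw [hdχ w]; ring
  have J3 : Integrable (fun w => ω w * dbar κ w * F w) := by
    have : (fun w => ω w * dbar κ w * F w)
        = fun w => dbar (fun w => ω w * κ w) w * F w - dbar ω w * F w := by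
      ext w
      rw [hsplit w]; ring
    rw [this]
    exact J1.sub J2
  have e1 : ∫ w, dbar ω w * F w = - ∫ w, ω w * dbar κ w * F w := by
    simp_rw [hsplit]
    rw [integral_sub J1 J3, I1, zero_sub]
  show ‖∫ w, dbar ω w * F w‖ ≤ _
  rw [e1, norm_neg]
  apply norm_integral_le_of_support (p := p) (by positivity)
  · intro w hw
    rw [hω, cut_eq_zero hσ hw.le]
    simp
  · intro w hw
    have hκd : dbar κ w = -((starRingEnd ℂ) (deriv Q w) * dbar (cut 0 R) (Q w)) := by
      have e : dbar κ w = dbar (fun _ => (1:ℂ)) w - dbar (fun v => cut 0 R (Q v)) w :=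
        dbar_sub (differentiableAt_const _)
          (((cut_contDiff 0 R).comp hQr).differentiable (by norm_num)).differentiableAt
      rw [e, dbar_const, dbar_comp_holo
        ((cut_contDiff 0 R).differentiable (by norm_num)).differentiableAt hQ.differentiableAt,
        zero_sub]
    by_cases h : dbar (cut 0 R) (Q w) = 0
    · rw [hκd, h]
      simp only [mul_zero, neg_zero, zero_mul, norm_zero]
      positivity
    · have h' := dbar_cut_ne_zero hR h
      rw [sub_zero] at h'
      have hgw := h2 w hw h'.2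
      have hdQ := h3 w hw
      have hcut := norm_dbar_cut_le hB 0 hR (Q w)
      rw [norm_mul, norm_mul, hκd, norm_neg, norm_mul, RCLike.norm_conj]
      simp only [hF]
      rw [norm_div, norm_mul, norm_pow, norm_pow]
      calc ‖ω w‖ * (‖deriv Q w‖ * ‖dbar (cut 0 R) (Q w)‖) * (‖g w‖ ^ l * ‖w - p‖ ^ m / ‖Q w‖)
          ≤ 1 * (M * (4 * B / R)) * (θ ^ l * (2 * σ) ^ m / R) := by
            gcongr
            · exact norm_cut_le p σ w
            · exact h'.1
        _ = M * (4 * B / R) * (θ ^ l * (2 * σ) ^ m / R) := by ring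

/-- Local maximum principle on an analytic curve in two complex variables. -/
theorem local_max {Q g : ℂ × ℂ → ℂ} (hQ : ContDiff ℂ 1 Q) (hg : Differentiable ℂ g)
    {y : ℂ × ℂ} (hQy : Q y = 0) (hQn : ¬ ∀ w, Q (y.1, w) = 0) (hgy : g y = 1)
    {ρ : ℝ} (hρ : 0 < ρ) :
    ∃ ε : ℝ, 0 < ε ∧ ∀ θ < 1, ∃ z : ℂ × ℂ, ε ≤ ‖z.1 - y.1‖ ∧ ‖z.1 - y.1‖ ≤ ρ ∧
      ‖z.2 - y.2‖ ≤ ρ ∧ Q z = 0 ∧ θ < ‖g z‖ := by
  obtain ⟨B, hB0, hB⟩ := exists_bound_deriv_smoothTransition
  have hQd : Differentiable ℂ Q := hQ.differentiable (by norm_num)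
  have hslice : ∀ a : ℂ, Differentiable ℂ (fun w => Q (a, w)) := fun a =>
    hQd.comp ((differentiable_const a).prodMk differentiable_id)
  have hsliceg : ∀ a : ℂ, Differentiable ℂ (fun w => g (a, w)) := fun a =>
    hg.comp ((differentiable_const a).prodMk differentiable_id)
  have hslice1 : ∀ b : ℂ, Differentiable ℂ (fun a => Q (a, b)) := fun b =>
    hQd.comp (differentiable_id.prodMk (differentiable_const b))
  have hsliceg1 : ∀ b : ℂ, Differentiable ℂ (fun a => g (a, b)) := fun b =>
    hg.comp (differentiable_id.prodMk (differentiable_const b))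
  -- order of vanishing
  have han : AnalyticAt ℂ (fun w => Q (y.1, w)) y.2 := (hslice y.1).analyticAt y.2
  have hne : ¬ ∀ᶠ w in 𝓝 y.2, Q (y.1, w) = 0 := by
    intro h
    apply hQn
    have h1 : AnalyticOnNhd ℂ (fun w => Q (y.1, w)) univ := fun w _ => (hslice y.1).analyticAt w
    have h2 : AnalyticOnNhd ℂ (fun _ : ℂ => (0:ℂ)) univ := fun w _ => analyticAt_const
    have := h1.eqOn_of_preconnected_of_eventuallyEq h2 isPreconnected_univ (mem_univ y.2) h
    intro w
    exact this (mem_univ w)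
  obtain ⟨n, q, hq, hq0, hfac⟩ := han.exists_eventuallyEq_pow_smul_nonzero_iff.mpr hne
  have hn : n ≠ 0 := by
    intro h
    have := hfac.self_of_nhds
    rw [h] at this
    simp only [pow_zero, one_smul] at this
    exact hq0 (this.symm.trans hQy)
  obtain ⟨m, rfl⟩ := Nat.exists_eq_succ_of_ne_zero hn
  obtain ⟨δ, hδ, hball⟩ : ∃ δ > 0, Metric.ball y.2 δ ⊆
      {w | Q (y.1, w) = (w - y.2) ^ (m + 1) • q w ∧ AnalyticAt ℂ q w ∧ q w ≠ 0} := by
    apply Metric.mem_nhds_iff.mp
    filter_upwards [hfac, hq.eventually_analyticAt, hq.continuousAt.eventually_ne hq0] with w a b c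
    exact ⟨a, b, c⟩
  set σ := min (δ / 3) (ρ / 2) with hσdef
  have hσ : 0 < σ := by positivity
  have hσδ : 2 * σ < δ := by
    have : σ ≤ δ / 3 := min_le_left _ _
    linarith
  have hσρ : 2 * σ ≤ ρ := by
    have : σ ≤ ρ / 2 := min_le_right _ _
    linarith
  have hmem : ∀ w, ‖w - y.2‖ ≤ 2 * σ → w ∈ Metric.ball y.2 δ := by
    intro w hw
    rw [Metric.mem_ball, dist_eq_norm]
    linarith
  -- zero free annulus
  set A : Set ℂ := {w | σ ≤ ‖w - y.2‖ ∧ ‖w - y.2‖ ≤ 2 * σ} with hA
  have hnc : Continuous fun w : ℂ => ‖w - y.2‖ := by fun_prop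
  have hAclosed : IsClosed A := (isClosed_le continuous_const hnc).inter
    (isClosed_le hnc continuous_const)
  have hAcomp : IsCompact A := by
    apply (isCompact_closedBall y.2 (2 * σ)).of_isClosed_subset hAclosed
    intro w hw
    rw [Metric.mem_closedBall, dist_eq_norm]
    exact hw.2
  have hA0 : ∀ w ∈ A, Q (y.1, w) ≠ 0 := by
    intro w hw
    have h := hball (hmem w hw.2)
    rw [h.1, smul_eq_mul]
    apply mul_ne_zero _ h.2.2
    apply pow_ne_zero
    intro h0
    have := hw.1
    rw [h0, norm_zero] at this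
    linarith
  have hev : ∀ᶠ a in 𝓝 y.1, ∀ w ∈ A, Q (a, w) ≠ 0 := by
    apply hAcomp.eventually_forall_of_forall_eventually (P := fun a w => Q (a, w) ≠ 0)
    intro w hw
    have := hQ.continuous.continuousAt.eventually_ne (hA0 w hw)
    simpa using this
  obtain ⟨δ', hδ', hball'⟩ : ∃ δ' > 0, Metric.ball y.1 δ' ⊆ {a | ∀ w ∈ A, Q (a, w) ≠ 0} :=
    Metric.mem_nhds_iff.mp hev
  set ε := min (δ' / 3) (ρ / 2) with hεdef
  have hε : 0 < ε := by positivity
  have hεδ : 2 * ε < δ' := by
    have : ε ≤ δ' / 3 := min_le_left _ _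
    linarith
  have hερ : 2 * ε ≤ ρ := by
    have : ε ≤ ρ / 2 := min_le_right _ _
    linarith
  have hfree : ∀ a w, ‖a - y.1‖ ≤ 2 * ε → w ∈ A → Q (a, w) ≠ 0 := by
    intro a w ha hw
    apply hball' _ w hw
    rw [Metric.mem_ball, dist_eq_norm]
    linarith
  refine ⟨ε, hε, ?_⟩
  intro θ₀ hθ₀
  by_contra hcon
  push Not at hcon
  -- choose theta
  set θ₁ := max θ₀ 0 with hθ₁
  have hθ₁1 : θ₁ < 1 := max_lt hθ₀ one_pos
  have hθ₁0 : 0 ≤ θ₁ := le_max_right _ _
  set θ := (1 + θ₁) / 2 with hθdef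
  have hθ1 : θ < 1 := by rw [hθdef]; linarith
  have hθ0 : 0 < θ := by rw [hθdef]; linarith
  have hθθ : θ₁ < θ := by rw [hθdef]; linarith
  -- the compact set
  set T : Set (ℂ × ℂ) := {z | (ε ≤ ‖z.1 - y.1‖ ∧ ‖z.1 - y.1‖ ≤ 2 * ε) ∧ ‖z.2 - y.2‖ ≤ 2 * σ}
    with hT
  have hc1 : Continuous fun z : ℂ × ℂ => ‖z.1 - y.1‖ := by fun_prop
  have hc2 : Continuous fun z : ℂ × ℂ => ‖z.2 - y.2‖ := by fun_prop
  have hTclosed : IsClosed T := ((isClosed_le continuous_const hc1).inter
    (isClosed_le hc1 continuous_const)).inter (isClosed_le hc2 continuous_const)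
  have hTcomp : IsCompact T := by
    apply ((isCompact_closedBall y.1 (2 * ε)).prod
      (isCompact_closedBall y.2 (2 * σ))).of_isClosed_subset hTclosed
    intro z hz
    constructor
    · rw [Metric.mem_closedBall, dist_eq_norm]; exact hz.1.2
    · rw [Metric.mem_closedBall, dist_eq_norm]; exact hz.2
  have hsmall : ∀ z ∈ T, Q z = 0 → ‖g z‖ ≤ θ₁ := by
    intro z hz h0
    exact (hcon z hz.1.1 (hz.1.2.trans hερ) (hz.2.trans hσρ) h0).trans (le_max_left _ _)
  obtain ⟨c₁, hc₁, hc₁'⟩ := exists_pos_le_norm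
    (S := T ∩ {z | θ ≤ ‖g z‖}) (hTcomp.inter_right (isClosed_le continuous_const hg.continuous.norm))
    (Q := Q) hQ.continuous.continuousOn (by
      rintro z ⟨hz, hz'⟩ h0
      have := hsmall z hz h0
      have hz'' : θ ≤ ‖g z‖ := hz'
      linarith)
  obtain ⟨c₂, hc₂, hc₂'⟩ := exists_pos_le_norm
    (S := T ∩ {z | σ ≤ ‖z.2 - y.2‖}) (hTcomp.inter_right (isClosed_le continuous_const hc2))
    (Q := Q) hQ.continuous.continuousOn (by
      rintro z ⟨hz, hz'⟩
      exact hfree z.1 z.2 hz.1.2 ⟨hz', hz.2⟩)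
  set R := min c₁ c₂ / 4 with hRdef
  have hR : 0 < R := by positivity
  have hRc₁ : 2 * R < c₁ := by
    have : min c₁ c₂ ≤ c₁ := min_le_left _ _
    rw [hRdef]; linarith
  have hRc₂ : 2 * R ≤ c₂ := by
    have : min c₁ c₂ ≤ c₂ := min_le_right _ _
    rw [hRdef]; linarith
  -- bound for the derivative
  obtain ⟨M, hM⟩ := hTcomp.exists_bound_of_continuousOn
    (f := fun z : ℂ × ℂ => fderiv ℂ Q z) (hQ.continuous_fderiv (by norm_num)).continuousOn
  have hderiv : ∀ z ∈ T, ‖deriv (fun w => Q (z.1, w)) z.2‖ ≤ M := by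
    intro z hz
    have h1 : HasDerivAt (fun w : ℂ => (z.1, w)) ((0:ℂ), (1:ℂ)) z.2 :=
      (hasDerivAt_const _ _).prodMk (hasDerivAt_id _)
    have h2 : HasDerivAt (fun w => Q (z.1, w)) (fderiv ℂ Q z (0, 1)) z.2 :=
      (hQd z).hasFDerivAt.comp_hasDerivAt z.2 h1
    rw [h2.deriv]
    calc ‖fderiv ℂ Q z (0, 1)‖ ≤ ‖fderiv ℂ Q z‖ * ‖((0:ℂ), (1:ℂ))‖ := (fderiv ℂ Q z).le_opNorm _
      _ ≤ M * 1 := by
          gcongr
          · exact (norm_nonneg _).trans (hM z hz)
          · exact hM z hz
          · simp [Prod.norm_def]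
      _ = M := mul_one M
  set ω := cut y.2 σ with hω
  set ω₁ := cut y.1 ε with hω₁
  set F : ℕ → ℂ → ℂ → ℂ := fun l a w => g (a, w) ^ l * (w - y.2) ^ m / Q (a, w) with hF
  set J : ℕ → ℂ → ℂ := fun l a => ∫ w, dbar ω w * F l a w with hJ
  -- Claim A
  have claimA : ∀ l, J l y.1 = -(2 * Real.pi) * (q y.2)⁻¹ := by
    intro l
    have hU : IsOpen (Metric.ball y.2 δ) := Metric.isOpen_ball
    have hs : tsupport ω ⊆ Metric.ball y.2 δ := by
      intro w hw
      have := tsupport_cut_subset y.2 hσ hw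
      rw [Metric.mem_closedBall, dist_eq_norm] at this
      exact hmem w this
    have hFd : DifferentiableOn ℂ (fun w => g (y.1, w) ^ l / q w) (Metric.ball y.2 δ) := by
      intro w hw
      apply DifferentiableAt.differentiableWithinAt
      apply DifferentiableAt.div
      · exact ((hsliceg y.1).pow l).differentiableAt
      · exact (hball hw).2.1.differentiableAt
      · exact (hball hw).2.2
    have hx1 : ω =ᶠ[𝓝 y.2] fun _ => 1 := by
      filter_upwards [Metric.ball_mem_nhds y.2 hσ] with w hw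
      apply cut_eq_one hσ
      rw [Metric.mem_ball, dist_eq_norm] at hw
      exact hw.le
    have := (integral_dbar_mul_div (cut_contDiff y.2 σ) (hasCompactSupport_cut y.2 hσ) hU hs hFd
      hx1).2
    have hgy' : g (y.1, y.2) = 1 := hgy
    rw [hgy'] at this
    rw [one_pow, one_div] at this
    rw [← this]
    simp only [hJ, hF]
    congr 1
    ext w
    by_cases h : dbar ω w = 0
    · rw [h]; simp
    · have h' := dbar_cut_ne_zero hσ h
      have hw := hball (hmem w h'.2)
      have hwne : w - y.2 ≠ 0 := by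
        intro h0
        rw [h0, norm_zero] at h'
        linarith [h'.1]
      rw [hw.1, smul_eq_mul]
      have := hw.2.2
      rw [← hω]
      field_simp
      ring
  -- Claim B
  have claimB : ∀ l a, ε ≤ ‖a - y.1‖ → ‖a - y.1‖ ≤ 2 * ε → ‖J l a‖ ≤
      (M * (4 * B / R) * (θ ^ l * (2 * σ) ^ m / R)) * (Real.pi * (2 * σ) ^ 2) := by
    intro l a ha1 ha2
    apply slice_estimate (hslice a) (hsliceg a) hσ hR hθ0.le hB
    · intro w hw1 hw2
      have hz : (a, w) ∈ T := ⟨⟨ha1, ha2⟩, hw2⟩
      exact hRc₂.trans (hc₂' (a, w) ⟨hz, hw1⟩)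
    · intro w hw hQw
      by_contra h
      have hz : (a, w) ∈ T := ⟨⟨ha1, ha2⟩, hw⟩
      have := hc₁' (a, w) ⟨hz, (not_le.mp h).le⟩
      linarith
    · intro w hw
      exact hderiv (a, w) ⟨⟨ha1, ha2⟩, hw⟩
  -- Claim C
  have claimC : ∀ l, -(2 * Real.pi) * J l y.1 = ∫ a, dbar ω₁ a / (a - y.1) * J l a := by
    intro l
    have hcp : ∀ w, dbar ω w * (-(2 * Real.pi) * F l y.1 w)
        = ∫ a, dbar ω w * (dbar ω₁ a * F l a w / (a - y.1)) := by
      intro w
      by_cases h : dbar ω w = 0
      · rw [h]; simp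
      · have h' := dbar_cut_ne_zero hσ h
        rw [integral_const_mul]
        congr 1
        have hU : IsOpen {a | Q (a, w) ≠ 0} := isOpen_ne_fun (hslice1 w).continuous continuous_const
        have hs : tsupport ω₁ ⊆ {a | Q (a, w) ≠ 0} := by
          intro a ha
          have := tsupport_cut_subset y.1 hε ha
          rw [Metric.mem_closedBall, dist_eq_norm] at this
          exact hfree a w this h'
        have hFd : DifferentiableOn ℂ (fun a => F l a w) {a | Q (a, w) ≠ 0} := by
          apply DifferentiableOn.div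
          · exact (((hsliceg1 w).pow l).mul (differentiable_const _)).differentiableOn
          · exact (hslice1 w).differentiableOn
          · intro a ha; exact ha
        have hx1 : ω₁ =ᶠ[𝓝 y.1] fun _ => 1 := by
          filter_upwards [Metric.ball_mem_nhds y.1 hε] with a ha
          apply cut_eq_one hε
          rw [Metric.mem_ball, dist_eq_norm] at ha
          exact ha.le
        exact ((integral_dbar_mul_div (cut_contDiff y.1 ε) (hasCompactSupport_cut y.1 hε) hU hs hFd
          hx1).2).symm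
    have e1 : -(2 * Real.pi) * J l y.1
        = ∫ w, ∫ a, dbar ω w * (dbar ω₁ a * F l a w / (a - y.1)) := by
      rw [← integral_const_mul]
      congr 1
      ext w
      rw [← hcp w]; ring
    rw [e1]
    rw [integral_integral_swap_of_hasCompactSupport]
    · congr 1
      ext a
      rw [← integral_const_mul]
      congr 1
      ext w
      ring
    · -- continuity
      set b : ℂ × ℂ → ℂ := fun x => dbar ω x.1 * dbar ω₁ x.2 with hb
      have hbc : Continuous b :=
        ((continuous_dbar (cut_contDiff y.2 σ)).comp continuous_fst).mul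
          ((continuous_dbar (cut_contDiff y.1 ε)).comp continuous_snd)
      set V : Set (ℂ × ℂ) := {x | Q (x.2, x.1) ≠ 0 ∧ x.2 - y.1 ≠ 0} with hV
      have hVo : IsOpen V := by
        apply IsOpen.inter
        · exact isOpen_ne_fun (hQ.continuous.comp (continuous_snd.prodMk continuous_fst))
            continuous_const
        · exact isOpen_ne_fun (by fun_prop) continuous_const
      have hbs : tsupport b ⊆ V := by
        have h1 : tsupport b ⊆ {x | (σ ≤ ‖x.1 - y.2‖ ∧ ‖x.1 - y.2‖ ≤ 2 * σ) ∧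
            (ε ≤ ‖x.2 - y.1‖ ∧ ‖x.2 - y.1‖ ≤ 2 * ε)} := by
          apply closure_minimal
          · intro x hx
            rw [Function.mem_support] at hx
            have h1 : dbar ω x.1 ≠ 0 := fun h => hx (by simp [hb, h])
            have h2 : dbar ω₁ x.2 ≠ 0 := fun h => hx (by simp [hb, h])
            exact ⟨dbar_cut_ne_zero hσ h1, dbar_cut_ne_zero hε h2⟩
          · have k1 : Continuous fun x : ℂ × ℂ => ‖x.1 - y.2‖ := by fun_prop
            have k2 : Continuous fun x : ℂ × ℂ => ‖x.2 - y.1‖ := by fun_prop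
            exact ((isClosed_le continuous_const k1).inter (isClosed_le k1 continuous_const)).inter
              ((isClosed_le continuous_const k2).inter (isClosed_le k2 continuous_const))
        intro x hx
        have hx' := h1 hx
        refine ⟨hfree x.2 x.1 hx'.2.2 hx'.1, ?_⟩
        intro h0
        have := hx'.2.1
        rw [h0, norm_zero] at this
        linarith
      have hFc : ContinuousOn (fun x : ℂ × ℂ => F l x.2 x.1 / (x.2 - y.1)) V := by
        apply ContinuousOn.div
        · apply ContinuousOn.div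
          · apply Continuous.continuousOn
            have := hg.continuous
            fun_prop
          · exact (hQ.continuous.comp (continuous_snd.prodMk continuous_fst)).continuousOn
          · intro x hx; exact hx.1
        · fun_prop
        · intro x hx; exact hx.2
      have := continuous_mul_of_tsupport hbc hVo hbs hFc
      convert this using 1
      ext x
      simp only [Function.uncurry, hb]
      ring
    · apply HasCompactSupport.intro ((isCompact_closedBall y.2 (2 * σ)).prod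
        (isCompact_closedBall y.1 (2 * ε)))
      rintro ⟨w, a⟩ hx
      simp only [Function.uncurry]
      rw [mem_prod, not_and_or] at hx
      rcases hx with hx | hx
      · rw [Metric.mem_closedBall, dist_eq_norm] at hx
        have : dbar ω w = 0 := by
          by_contra h
          exact hx (dbar_cut_ne_zero hσ h).2
        rw [this, zero_mul]
      · rw [Metric.mem_closedBall, dist_eq_norm] at hx
        have : dbar ω₁ a = 0 := by
          by_contra h
          exact hx (dbar_cut_ne_zero hε h).2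
        rw [this]
        simp
  -- final estimate
  have hM0 : 0 ≤ M := by
    have hz : (y.1 + ε, y.2) ∈ T := by
      refine ⟨⟨?_, ?_⟩, ?_⟩ <;> simp [abs_of_pos hε] <;> linarith
    exact (norm_nonneg _).trans (hM _ hz)
  have hfinal : ∀ l : ℕ, (2 * Real.pi) * ((2 * Real.pi) * ‖q y.2‖⁻¹) ≤
      ((4 * B / ε) / ε * ((M * (4 * B / R) * ((2 * σ) ^ m / R)) * (Real.pi * (2 * σ) ^ 2))
        * (Real.pi * (2 * ε) ^ 2)) * θ ^ l := by
    intro l
    have h1 : ‖-(2 * Real.pi) * J l y.1‖ = (2 * Real.pi) * ((2 * Real.pi) * ‖q y.2‖⁻¹) := by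
      rw [claimA l]
      simp [abs_of_pos Real.pi_pos]
    rw [← h1, claimC l]
    have h2 : ‖∫ a, dbar ω₁ a / (a - y.1) * J l a‖ ≤
        ((4 * B / ε) / ε * ((M * (4 * B / R) * (θ ^ l * (2 * σ) ^ m / R)) * (Real.pi * (2 * σ) ^ 2)))
        * (Real.pi * (2 * ε) ^ 2) := by
      apply norm_integral_le_of_support (p := y.1) (by positivity)
      · intro a ha
        have : dbar ω₁ a = 0 := by
          by_contra h
          exact absurd (dbar_cut_ne_zero hε h).2 (not_le.mpr ha)
        rw [this]; simp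
      · intro a ha
        by_cases h : dbar ω₁ a = 0
        · rw [h]
          simp only [zero_div, zero_mul, norm_zero]
          positivity
        · have h' := dbar_cut_ne_zero hε h
          rw [norm_mul, norm_div]
          gcongr
          · exact norm_dbar_cut_le hB y.1 hε a
          · exact h'.1
          · exact claimB l a h'.1 h'.2
    refine h2.trans (le_of_eq ?_)
    ring
  have hpos : 0 < (2 * Real.pi) * ((2 * Real.pi) * ‖q y.2‖⁻¹) := by
    have : 0 < ‖q y.2‖ := norm_pos_iff.mpr hq0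
    positivity
  have hlim : Tendsto (fun l : ℕ => ((4 * B / ε) / ε * ((M * (4 * B / R) * ((2 * σ) ^ m / R))
      * (Real.pi * (2 * σ) ^ 2)) * (Real.pi * (2 * ε) ^ 2)) * θ ^ l) atTop (𝓝 0) := by
    have := (tendsto_pow_atTop_nhds_zero_of_lt_one hθ0.le hθ1).const_mul
      ((4 * B / ε) / ε * ((M * (4 * B / R) * ((2 * σ) ^ m / R)) * (Real.pi * (2 * σ) ^ 2))
        * (Real.pi * (2 * ε) ^ 2))
    simpa using this
  have := ge_of_tendsto' hlim hfinal
  linarith

end Pool.Agent.GP
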