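import Pool.Agent.GP.MaxLocal

set_option autoImplicit false

open Complex MeasureTheory Set Filter Topology

namespace Pool.Agent.GP

lemma max_principle_aux {Q G : ℂ × ℂ → ℂ} (hQ : ContDiff ℂ 1 Q) (hG : Differentiable ℂ G)
    {x : ℂ × ℂ} (hx : ‖x‖ < 1) (hQx : Q x = 0) (hGx : G x ≠ 0) :
    ∃ y : ℂ × ℂ, ‖y‖ = 1 ∧ Q y = 0 ∧ ‖G x‖ ≤ ‖G y‖ := by
  by_contra hcon
  push Not at hcon
  have hGx0 : 0 < ‖G x‖ := norm_pos_iff.mpr hGx
  -- maximum on the boundary part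
  obtain ⟨M, hM0, hMx, hM⟩ : ∃ M : ℝ, 0 ≤ M ∧ M < ‖G x‖ ∧ ∀ y : ℂ × ℂ, ‖y‖ = 1 → Q y = 0 →
      ‖G y‖ ≤ M := by
    set S : Set (ℂ × ℂ) := {y | ‖y‖ = 1} ∩ {y | Q y = 0} with hS
    have hScomp : IsCompact S := by
      apply (isCompact_closedBall (0 : ℂ × ℂ) 1).of_isClosed_subset
      · exact (isClosed_eq continuous_norm continuous_const).inter
          (isClosed_eq hQ.continuous continuous_const)
      · intro y hy
        rw [Metric.mem_closedBall, dist_zero_right]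
        exact le_of_eq hy.1
    by_cases hne : S.Nonempty
    · obtain ⟨y, hy, hmax⟩ := hScomp.exists_isMaxOn hne hG.continuous.norm.continuousOn
      exact ⟨‖G y‖, norm_nonneg _, hcon y hy.1 hy.2, fun z h1 h2 => hmax ⟨h1, h2⟩⟩
    · exact ⟨0, le_rfl, hGx0, fun y h1 h2 => (hne ⟨y, h1, h2⟩).elim⟩
  obtain ⟨τ, hτ0, hτ⟩ : ∃ τ : ℝ, 0 < τ ∧ M * Real.exp τ < ‖G x‖ := by
    have h1 : Tendsto (fun τ : ℝ => M * Real.exp τ) (𝓝[>] 0) (𝓝 (M * Real.exp 0)) :=
      ((continuous_const.mul Real.continuous_exp).tendsto 0).mono_left nhdsWithin_le_nhds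
    rw [Real.exp_zero, mul_one] at h1
    have h2 := (h1.eventually_lt_const hMx).and self_mem_nhdsWithin
    obtain ⟨τ, hτ⟩ := h2.exists
    exact ⟨τ, hτ.2, hτ.1⟩
  set Ψ : ℂ × ℂ → ℝ := fun z => ‖G z‖ * Real.exp (τ * ‖z.1‖ ^ 2) with hΨ
  have hΨc : Continuous Ψ := by
    have := hG.continuous
    fun_prop
  set C : Set (ℂ × ℂ) := Metric.closedBall 0 1 ∩ {z | Q z = 0} with hC
  have hCcomp : IsCompact C := (isCompact_closedBall (0 : ℂ × ℂ) 1).inter_right
    (isClosed_eq hQ.continuous continuous_const)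
  have hxC : x ∈ C := ⟨by rw [Metric.mem_closedBall, dist_zero_right]; exact hx.le, hQx⟩
  obtain ⟨y, hyC, hymax⟩ := hCcomp.exists_isMaxOn ⟨x, hxC⟩ hΨc.continuousOn
  have hy1 : ‖y‖ ≤ 1 := by
    have := hyC.1
    rwa [Metric.mem_closedBall, dist_zero_right] at this
  have hΨy : ‖G x‖ ≤ Ψ y := by
    have h1 : Ψ x ≤ Ψ y := hymax hxC
    refine le_trans ?_ h1
    simp only [hΨ]
    have : 1 ≤ Real.exp (τ * ‖x.1‖ ^ 2) := Real.one_le_exp (by positivity)
    nlinarith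
  have hbdry : ∀ z : ℂ × ℂ, ‖z‖ = 1 → Q z = 0 → Ψ z < ‖G x‖ := by
    intro z hz hQz
    refine lt_of_le_of_lt ?_ hτ
    simp only [hΨ]
    gcongr
    · exact hM z hz hQz
    · have : ‖z.1‖ ≤ 1 := hz ▸ norm_fst_le z
      nlinarith [norm_nonneg z.1, mul_le_mul this this (norm_nonneg _) zero_le_one]
  have hy1' : ‖y‖ < 1 := by
    apply lt_of_le_of_ne hy1
    intro h
    exact absurd hΨy (not_le.mpr (hbdry y h hyC.2))
  have hGy : G y ≠ 0 := by
    intro h
    have : Ψ y = 0 := by simp [hΨ, h]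
    linarith
  have hGy0 : 0 < ‖G y‖ := norm_pos_iff.mpr hGy
  by_cases hcase : ∀ w, Q (y.1, w) = 0
  · -- the curve contains a vertical line
    have hd : DiffContOnCl ℂ (fun w : ℂ => G (y.1, w)) (Metric.ball 0 1) :=
      (hG.comp ((differentiable_const y.1).prodMk differentiable_id)).diffContOnCl
    obtain ⟨w, hw, hwmax⟩ := Complex.exists_mem_frontier_isMaxOn_norm Metric.isBounded_ball
      ⟨0, Metric.mem_ball_self one_pos⟩ hd
    rw [frontier_ball (0:ℂ) one_ne_zero, mem_sphere_zero_iff_norm] at hw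
    have hy2 : y.2 ∈ closure (Metric.ball (0:ℂ) 1) := by
      rw [closure_ball (0:ℂ) one_ne_zero, Metric.mem_closedBall, dist_zero_right]
      exact (norm_snd_le y).trans hy1
    have h1 : ‖G (y.1, y.2)‖ ≤ ‖G (y.1, w)‖ := hwmax hy2
    have h2 : ‖((y.1, w) : ℂ × ℂ)‖ = 1 := by
      rw [Prod.norm_def]
      simp only
      rw [hw]
      exact max_eq_right ((norm_fst_le y).trans hy1)
    have h3 := hbdry (y.1, w) h2 (hcase w)
    have h4 : Ψ y ≤ Ψ (y.1, w) := by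
      simp only [hΨ]
      gcongr
    linarith
  · set g : ℂ × ℂ → ℂ := fun z =>
      (G y)⁻¹ * (G z * Complex.exp (2 * τ * (starRingEnd ℂ) y.1 * (z.1 - y.1))) with hg
    have hgd : Differentiable ℂ g := by
      apply Differentiable.const_mul
      apply hG.mul
      apply Differentiable.cexp
      apply Differentiable.const_mul
      exact differentiable_fst.sub_const _
    have hgy : g y = 1 := by
      simp [hg, hGy]
    have hρ : 0 < 1 - ‖y‖ := by linarith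
    obtain ⟨ε, hε, hloc⟩ := local_max hQ hgd hyC.2 hcase hgy hρ
    have hθ : Real.exp (-(τ * ε ^ 2)) < 1 := by
      rw [Real.exp_lt_one_iff]
      have : 0 < τ * ε ^ 2 := by positivity
      linarith
    obtain ⟨z, hz1, hz2, hz3, hQz, hgz⟩ := hloc _ hθ
    have hzC : z ∈ C := by
      refine ⟨?_, hQz⟩
      rw [Metric.mem_closedBall, dist_zero_right]
      have h1 : ‖z - y‖ ≤ 1 - ‖y‖ := by
        rw [Prod.norm_def]
        exact max_le hz2 hz3
      calc ‖z‖ = ‖y + (z - y)‖ := by congr 1; abel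
        _ ≤ ‖y‖ + ‖z - y‖ := norm_add_le _ _
        _ ≤ 1 := by linarith
    have hΨz : Ψ z ≤ Ψ y := hymax hzC
    have hnorm : ‖g z‖ = ‖G z‖ * Real.exp (2 * τ * (y.1.re * (z.1.re - y.1.re) +
        y.1.im * (z.1.im - y.1.im))) / ‖G y‖ := by
      simp only [hg]
      rw [norm_mul, norm_mul, norm_inv, Complex.norm_exp, div_eq_inv_mul]
      congr 3
      simp
      ring
    have hbound : ‖g z‖ ≤ Real.exp (-(τ * ‖z.1 - y.1‖ ^ 2)) := by
      rw [hnorm, div_le_iff₀ hGy0]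
      have e : -(τ * ‖z.1 - y.1‖ ^ 2) = 2 * τ * (y.1.re * (z.1.re - y.1.re) +
          y.1.im * (z.1.im - y.1.im)) + (τ * ‖y.1‖ ^ 2 - τ * ‖z.1‖ ^ 2) := by
        rw [← Complex.normSq_eq_norm_sq, ← Complex.normSq_eq_norm_sq, ← Complex.normSq_eq_norm_sq,
          Complex.normSq_apply, Complex.normSq_apply, Complex.normSq_apply]
        simp
        ring
      rw [e, Real.exp_add, Real.exp_sub]
      have h5 : ‖G z‖ ≤ Real.exp (τ * ‖y.1‖ ^ 2) / Real.exp (τ * ‖z.1‖ ^ 2) * ‖G y‖ := by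
        rw [div_mul_eq_mul_div, le_div_iff₀ (Real.exp_pos _)]
        simp only [hΨ] at hΨz
        linarith
      calc ‖G z‖ * Real.exp (2 * τ * (y.1.re * (z.1.re - y.1.re) + y.1.im * (z.1.im - y.1.im)))
          ≤ (Real.exp (τ * ‖y.1‖ ^ 2) / Real.exp (τ * ‖z.1‖ ^ 2) * ‖G y‖) *
            Real.exp (2 * τ * (y.1.re * (z.1.re - y.1.re) + y.1.im * (z.1.im - y.1.im))) := by
            gcongr
        _ = _ := by ring
    have hlast : Real.exp (-(τ * ‖z.1 - y.1‖ ^ 2)) ≤ Real.exp (-(τ * ε ^ 2)) := by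
      gcongr
    linarith

/-- Maximum principle for the analytic curve `Q = 0` in the unit bidisc of `ℂ²`. -/
theorem max_principle {Q G : ℂ × ℂ → ℂ} (hQ : ContDiff ℂ 1 Q) (hG : Differentiable ℂ G)
    {x : ℂ × ℂ} (hx : ‖x‖ < 1) (hQx : Q x = 0) :
    ∃ y : ℂ × ℂ, ‖y‖ = 1 ∧ Q y = 0 ∧ ‖G x‖ ≤ ‖G y‖ := by
  by_cases hGx : G x = 0
  · obtain ⟨y, h1, h2, _⟩ := max_principle_aux (G := fun _ => 1) hQ (differentiable_const _) hx hQx
      one_ne_zero
    exact ⟨y, h1, h2, by rw [hGx, norm_zero]; exact norm_nonneg _⟩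
  · exact max_principle_aux hQ hG hx hQx hGx

end Pool.Agent.GP
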