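import Pool.Agent.GP.Ext

set_option autoImplicit false

open Set Filter Topology

namespace Pool.Agent.GP

section

variable {Y : Type*} [TopologicalSpace Y] [CompactSpace Y]

/-- If `P(X)` contains inverse square roots of `z_b - a_j` for a dense set of `a_j`, coded by
rapidly decreasing series, then `P(X)` has no nonzero bounded point derivation. -/
theorem root_noDer {a : ℕ → ℂ} {R c : ℕ → ℝ} {T : Bool → ℕ → C(Y, ℂ)} {Z W : Bool → C(Y, ℂ)}
    (hT : ∀ b j, T b j * T b j * (Z b - algebraMap ℂ C(Y, ℂ) (a j)) = 1)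
    (hTn : ∀ b j, ‖T b j‖ ≤ R j) (hZ : ∀ b, ‖Z b‖ ≤ 1) (ha : ∀ j, ‖a j‖ ≤ 1)
    (hc : ∀ j, 0 < c j) (hsum : Summable fun j => c j * R j)
    (htail : ∀ n, ∑' j, c (j + (n + 1)) * R (j + (n + 1)) ≤ c n / 8)
    (hdense : ∀ ζ : ℂ, ‖ζ‖ ≤ 1 → ∀ ε > 0, ∃ j, ‖ζ - a j‖ < ε)
    (hW : ∀ b, W b = ∑' j, (c j : ℂ) • T b j) :
    NoDer (Set.range fun (y : Y) (i : Fin 4) =>
      (![Z false, W false, Z true, W true] : Fin 4 → C(Y, ℂ)) i y) := by
  set F : Fin 4 → C(Y, ℂ) := ![Z false, W false, Z true, W true] with hF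
  intro z hz D hD hDb
  obtain ⟨D', φ', hD', hφ', hder, hmul, hφn⟩ := der_ext (F := F) hz hD hDb
  set B := PB F with hB
  have hBc : IsClosed (B : Set C(Y, ℂ)) := PB_closed F
  have hZB : ∀ b, Z b ∈ B := by
    intro b
    cases b
    · exact mem_PB F 0
    · exact mem_PB F 2
  have hWB : ∀ b, W b ∈ B := by
    intro b
    cases b
    · exact mem_PB F 1
    · exact mem_PB F 3
  set f : Bool → ℕ → C(Y, ℂ) := fun b j => Z b - algebraMap ℂ C(Y, ℂ) (a j) with hf
  have hfB : ∀ b j, f b j ∈ B := fun b j => B.sub_mem (hZB b) (B.algebraMap_mem _)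
  have hfn : ∀ b j, ‖f b j‖ ≤ 2 := by
    intro b j
    refine (norm_sub_le _ _).trans ?_
    have h1 : ‖algebraMap ℂ C(Y, ℂ) (a j)‖ ≤ 1 := by
      rw [ContinuousMap.norm_le _ zero_le_one]
      intro y
      simpa using ha j
    linarith [hZ b]
  have hTf : ∀ b j, T b j * T b j * f b j = 1 := hT
  -- the square roots
  set s : Bool → ℕ → C(Y, ℂ) := fun b j => T b j * f b j with hs
  have hss : ∀ b j, s b j * s b j = f b j := by
    intro b j
    calc s b j * s b j = (T b j * T b j * f b j) * f b j := by simp only [hs]; ring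
      _ = f b j := by rw [hTf, one_mul]
  have hsn : ∀ b j, ‖s b j‖ ≤ 2 := by
    intro b j
    rw [ContinuousMap.norm_le _ (by norm_num)]
    intro y
    have h1 : ‖s b j y‖ * ‖s b j y‖ ≤ 2 := by
      rw [← norm_mul]
      have h2 : s b j y * s b j y = f b j y := by
        have := congrArg (fun k : C(Y, ℂ) => k y) (hss b j)
        simpa using this
      rw [h2]
      exact ((f b j).norm_coe_le_norm y).trans (hfn b j)
    nlinarith [norm_nonneg (s b j y)]
  have hsummT : ∀ b, Summable fun j => (c j : ℂ) • T b j := by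
    intro b
    apply Summable.of_norm_bounded hsum
    intro j
    rw [norm_smul, Complex.norm_real, Real.norm_eq_abs, abs_of_pos (hc j)]
    have := hTn b j
    have := hc j
    gcongr
  -- membership
  have hTB : ∀ b n, T b n ∈ B := by
    intro b n
    induction n using Nat.strong_induction_on with
    | _ n ih =>
      set h : C(Y, ℂ) := ∑' j, (c (j + (n + 1)) : ℂ) • T b (j + (n + 1)) with hh
      have hnh : ‖h‖ ≤ c n / 8 := by
        refine le_trans ?_ (htail n)
        have hs1 : Summable fun j => c (j + (n + 1)) * R (j + (n + 1)) :=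
          (summable_nat_add_iff (f := fun j => c j * R j) (n + 1)).mpr hsum
        apply tsum_of_norm_bounded hs1.hasSum
        intro j
        rw [norm_smul, Complex.norm_real, Real.norm_eq_abs, abs_of_pos (hc _)]
        have := hc (j + (n + 1))
        gcongr
        exact hTn b _
      have hsplit : (c n : ℂ) • T b n + h
          = W b - ∑ j ∈ Finset.range n, (c j : ℂ) • T b j := by
        have := (hsummT b).sum_add_tsum_nat_add (n + 1)
        rw [hW b, ← this, Finset.sum_range_succ]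
        simp only [hh]
        abel
      apply gen_root hBc (f := f b n) (t := T b n) (h := h) (c := (c n : ℂ))
      · exact_mod_cast (hc n).ne'
      · exact hfB b n
      · exact hTf b n
      · rw [hsplit]
        refine B.sub_mem (hWB b) (B.sum_mem ?_)
        intro j hj
        exact B.smul_mem (ih j (Finset.mem_range.mp hj)) _
      · refine (norm_mul_le _ _).trans ?_
        have h1 := hsn b n
        simp only [hs] at h1
        rw [Complex.norm_real, Real.norm_eq_abs, abs_of_pos (hc n)]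
        have h2 : 0 < c n := hc n
        calc ‖h‖ * ‖T b n * f b n‖ ≤ (c n / 8) * 2 := by gcongr
          _ = c n / 4 := by ring
  have hsB : ∀ b j, s b j ∈ B := fun b j => B.mul_mem (hTB b j) (hfB b j)
  have hD1 : D' 1 = 0 := by
    have := hD' 1
    rw [map_one] at this
    rw [this, der_one hD]
  have hφ1 : φ' 1 = 1 := by
    have := hφ' 1
    rw [map_one, (MvPolynomial.eval z).map_one] at this
    exact this
  have hDc : ∀ k : ℂ, D' (algebraMap ℂ C(Y, ℂ) k) = 0 := by
    intro k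
    rw [Algebra.algebraMap_eq_smul_one, map_smul, hD1, smul_zero]
  have hφc : ∀ k : ℂ, φ' (algebraMap ℂ C(Y, ℂ) k) = k := by
    intro k
    rw [Algebra.algebraMap_eq_smul_one, map_smul, hφ1, smul_eq_mul, mul_one]
  have hDf : ∀ b j, D' (f b j) = D' (Z b) := by
    intro b j
    simp only [hf]
    rw [map_sub, hDc, sub_zero]
  have hφf : ∀ b j, φ' (f b j) = φ' (Z b) - a j := by
    intro b j
    simp only [hf]
    rw [map_sub, hφc]
  -- derivation vanishes on Z
  have hDZ : ∀ b, D' (Z b) = 0 := by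
    intro b
    have hest : ∀ j, ‖D' (Z b)‖ ^ 2 ≤ (16 * ‖D'‖ ^ 2) * ‖φ' (Z b) - a j‖ := by
      intro j
      have h1 : D' (Z b) = 2 * (φ' (s b j) * D' (s b j)) := by
        rw [← hDf b j, ← hss b j, hder _ (hsB b j) _ (hsB b j)]
        ring
      have h2 : ‖φ' (s b j)‖ ^ 2 = ‖φ' (Z b) - a j‖ := by
        rw [← norm_pow, pow_two, ← hmul _ (hsB b j) _ (hsB b j), hss b j, hφf]
      have h3 : ‖D' (s b j)‖ ≤ ‖D'‖ * 2 :=
        (D'.le_opNorm _).trans (by gcongr; exact hsn b j)
      rw [h1, norm_mul, norm_mul, ← h2]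
      have h4 : ‖(2:ℂ)‖ = 2 := by simp
      rw [h4]
      have h5 : ‖D' (s b j)‖ ^ 2 ≤ (‖D'‖ * 2) ^ 2 := by gcongr
      calc (2 * (‖φ' (s b j)‖ * ‖D' (s b j)‖)) ^ 2
          = 4 * ‖φ' (s b j)‖ ^ 2 * ‖D' (s b j)‖ ^ 2 := by ring
        _ ≤ 4 * ‖φ' (s b j)‖ ^ 2 * (‖D'‖ * 2) ^ 2 := by gcongr
        _ = 16 * ‖D'‖ ^ 2 * ‖φ' (s b j)‖ ^ 2 := by ring
    have hζ : ‖φ' (Z b)‖ ≤ 1 := (hφn _).trans (hZ b)
    by_contra hne
    have hpos : 0 < ‖D' (Z b)‖ ^ 2 := by
      have := norm_pos_iff.mpr hne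
      positivity
    have hK : 0 < 16 * ‖D'‖ ^ 2 + 1 := by positivity
    obtain ⟨j, hj⟩ := hdense _ hζ (‖D' (Z b)‖ ^ 2 / (16 * ‖D'‖ ^ 2 + 1)) (by positivity)
    have h1 := hest j
    have h2 : (16 * ‖D'‖ ^ 2) * ‖φ' (Z b) - a j‖ ≤ (16 * ‖D'‖ ^ 2 + 1) * ‖φ' (Z b) - a j‖ := by
      gcongr
      linarith
    have h3 : (16 * ‖D'‖ ^ 2 + 1) * ‖φ' (Z b) - a j‖ < ‖D' (Z b)‖ ^ 2 := by
      rw [lt_div_iff₀ hK] at hj
      linarith
    linarith
  have hDT : ∀ b j, D' (T b j) = 0 := by
    intro b j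
    have h1 : D' (T b j * T b j * f b j) = 0 := by rw [hTf, hD1]
    rw [hder _ (B.mul_mem (hTB b j) (hTB b j)) _ (hfB b j), hder _ (hTB b j) _ (hTB b j), hDf, hDZ,
      mul_zero, zero_add] at h1
    have h2 : φ' (T b j) * φ' (T b j) * φ' (f b j) = 1 := by
      rw [← hmul _ (hTB b j) _ (hTB b j), ← hmul _ (B.mul_mem (hTB b j) (hTB b j)) _ (hfB b j),
        hTf, hφ1]
    have h3 : φ' (f b j) ≠ 0 := by
      intro h
      rw [h, mul_zero] at h2
      exact zero_ne_one h2
    have h4 : φ' (T b j) ≠ 0 := by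
      intro h
      rw [h, zero_mul, zero_mul] at h2
      exact zero_ne_one h2
    rcases mul_eq_zero.mp h1 with h | h
    · exact absurd h h3
    · have h5 : 2 * φ' (T b j) * D' (T b j) = 0 := by linear_combination h
      rcases mul_eq_zero.mp h5 with h6 | h6
      · rcases mul_eq_zero.mp h6 with h7 | h7
        · norm_num at h7
        · exact absurd h7 h4
      · exact h6
  have hDW : ∀ b, D' (W b) = 0 := by
    intro b
    rw [hW b, D'.map_tsum (hsummT b)]
    simp [hDT]
  apply der_eq_zero hD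
  intro i
  rw [← hD', Phi_X]
  fin_cases i
  · exact hDZ false
  · exact hDW false
  · exact hDZ true
  · exact hDW true

end

end Pool.Agent.GP
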