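import Pool.Agent.GP.Elim
import Pool.Agent.GP.MaxPrinciple

set_option autoImplicit false

open Set Filter Topology

namespace Pool.Agent.GP

section Weights

/-- Exponents. -/
def NN (β : ℕ → ℕ) (j : ℕ) : ℕ := 2 ^ (j + 1) * β j

/-- The product of the exponents. -/
def LL (β : ℕ → ℕ) (n : ℕ) : ℕ := ∏ k ∈ Finset.range n, NN β k

/-- Complementary products. -/
def mm (β : ℕ → ℕ) (n j : ℕ) : ℕ := ∏ k ∈ (Finset.range n).erase j, NN β k

/-- The radii: `RR j ^ 2 = 2 ^ NN j`. -/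
noncomputable def RR (β : ℕ → ℕ) (j : ℕ) : ℝ := 2 ^ (2 ^ j * β j)

lemma RR_sq (β : ℕ → ℕ) (j : ℕ) : RR β j ^ 2 = 2 ^ NN β j := by
  unfold RR NN
  rw [← pow_mul]
  congr 1
  ring

lemma NN_mul_mm {β : ℕ → ℕ} {n j : ℕ} (hj : j < n) : NN β j * mm β n j = LL β n :=
  Finset.mul_prod_erase _ _ (Finset.mem_range.mpr hj)

lemma NN_pos {β : ℕ → ℕ} (hβ : ∀ j, 1 ≤ β j) (j : ℕ) : 0 < NN β j := by
  unfold NN
  have := hβ j
  positivity

lemma mm_pos {β : ℕ → ℕ} (hβ : ∀ j, 1 ≤ β j) (n j : ℕ) : 0 < mm β n j :=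
  Finset.prod_pos fun k _ => NN_pos hβ k

lemma sum_le_LL (β : ℕ → ℕ) (n : ℕ) :
    ∑ j ∈ Finset.range n, β j * mm β n j ≤ LL β n := by
  have h1 : ∀ j ∈ Finset.range n, ((β j * mm β n j : ℕ) : ℝ) = (LL β n : ℝ) * ((1/2) * (1 / 2) ^ j) := by
    intro j hj
    have h2 := NN_mul_mm (β := β) (Finset.mem_range.mp hj)
    rw [← h2]
    unfold NN
    push_cast
    rw [pow_succ]
    have : (2:ℝ) ^ j * (1 / 2) ^ j = 1 := by rw [← mul_pow]; norm_num
    linear_combination (-(β j : ℝ) * (mm β n j : ℝ)) * this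
  have h3 : ((∑ j ∈ Finset.range n, β j * mm β n j : ℕ) : ℝ) ≤ (LL β n : ℝ) := by
    rw [Nat.cast_sum, Finset.sum_congr rfl h1, ← Finset.mul_sum, ← Finset.mul_sum]
    have h4 := sum_geometric_two_le n
    have h5 : (0:ℝ) ≤ LL β n := Nat.cast_nonneg _
    nlinarith
  exact_mod_cast h3

/-- The auxiliary product. -/
noncomputable def GG (a : ℕ → ℂ) (β : ℕ → ℕ) (n : ℕ) (z : ℂ × ℂ) : ℂ :=
  ∏ j ∈ Finset.range n, ((z.1 - a j) * (z.2 - a j)) ^ mm β n j

lemma GG_differentiable (a : ℕ → ℂ) (β : ℕ → ℕ) (n : ℕ) : Differentiable ℂ (GG a β n) := by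
  have h : ContDiff ℂ 1 (GG a β n) := by
    unfold GG
    apply contDiff_prod
    intro j _
    exact ((contDiff_fst.sub contDiff_const).mul (contDiff_snd.sub contDiff_const)).pow _
  exact h.differentiable (by norm_num)

lemma weights {a : ℕ → ℂ} {β : ℕ → ℕ} (ha : ∀ j, ‖a j‖ ≤ 1) (hβ : ∀ j, 1 ≤ β j)
    (hβa : ∀ j, 4 ≤ ‖a j‖ ^ 2 * 2 ^ β j) {n : ℕ} {z : ℂ × ℂ} (hz : ‖z‖ ≤ 1)
    (hG : ‖GG a β n 0‖ ≤ ‖GG a β n z‖) (b : Bool) {j : ℕ} (hj : j < n) :
    1 ≤ ‖lin a (b, j) z‖ * RR β j ^ 2 := by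
  by_contra hcon
  rw [not_le] at hcon
  have hz1 : ∀ k, ‖z.1 - a k‖ ≤ 2 := fun k => by
    have := norm_sub_le z.1 (a k)
    have h2 := norm_fst_le z
    linarith [ha k]
  have hz2 : ∀ k, ‖z.2 - a k‖ ≤ 2 := fun k => by
    have := norm_sub_le z.2 (a k)
    have h2 := norm_snd_le z
    linarith [ha k]
  have hmem := Finset.mem_range.mpr hj
  -- lower bound at the origin
  have hlow : (∏ k ∈ Finset.range n, (4:ℝ) ^ mm β n k) ≤ ‖GG a β n 0‖ * 2 ^ LL β n := by
    unfold GG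
    rw [norm_prod]
    calc (∏ k ∈ Finset.range n, (4:ℝ) ^ mm β n k)
        ≤ ∏ k ∈ Finset.range n, (‖a k‖ ^ 2 * 2 ^ β k) ^ mm β n k := by
          apply Finset.prod_le_prod
          · intro k _; positivity
          · intro k _
            gcongr
            exact hβa k
      _ = (∏ k ∈ Finset.range n, ‖(((0 : ℂ × ℂ).1 - a k) * ((0 : ℂ × ℂ).2 - a k)) ^ mm β n k‖)
          * 2 ^ (∑ k ∈ Finset.range n, β k * mm β n k) := by
          rw [← Finset.prod_pow_eq_pow_sum, ← Finset.prod_mul_distrib]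
          apply Finset.prod_congr rfl
          intro k _
          rw [mul_pow, norm_pow, norm_mul]
          simp only [Prod.fst_zero, Prod.snd_zero, zero_sub, norm_neg]
          rw [← pow_two, ← pow_mul 2 (β k)]
      _ ≤ _ := by
          gcongr
          · norm_num
          · exact sum_le_LL β n
  -- upper bound at z
  have hup : ‖GG a β n z‖ * 2 ^ LL β n ≤
      2 ^ mm β n j * ∏ k ∈ (Finset.range n).erase j, (4:ℝ) ^ mm β n k := by
    unfold GG
    rw [norm_prod, ← Finset.mul_prod_erase _ _ hmem]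
    have h1 : ‖((z.1 - a j) * (z.2 - a j)) ^ mm β n j‖ * 2 ^ LL β n ≤ 2 ^ mm β n j := by
      rw [norm_pow, norm_mul, ← NN_mul_mm hj, pow_mul, ← RR_sq, ← mul_pow]
      have hR : 0 ≤ RR β j ^ 2 := by positivity
      apply pow_le_pow_left₀ (by positivity)
      cases b
      · have h : ‖z.1 - a j‖ * RR β j ^ 2 < 1 := hcon
        have h2 := hz2 j
        calc ‖z.1 - a j‖ * ‖z.2 - a j‖ * RR β j ^ 2
            = (‖z.1 - a j‖ * RR β j ^ 2) * ‖z.2 - a j‖ := by ring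
          _ ≤ 1 * 2 := by gcongr
          _ = 2 := by norm_num
      · have h : ‖z.2 - a j‖ * RR β j ^ 2 < 1 := hcon
        have h2 := hz1 j
        calc ‖z.1 - a j‖ * ‖z.2 - a j‖ * RR β j ^ 2
            = (‖z.2 - a j‖ * RR β j ^ 2) * ‖z.1 - a j‖ := by ring
          _ ≤ 1 * 2 := by gcongr
          _ = 2 := by norm_num
    have h2 : (∏ k ∈ (Finset.range n).erase j, ‖((z.1 - a k) * (z.2 - a k)) ^ mm β n k‖)
        ≤ ∏ k ∈ (Finset.range n).erase j, (4:ℝ) ^ mm β n k := by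
      apply Finset.prod_le_prod
      · intro k _; positivity
      · intro k _
        rw [norm_pow, norm_mul]
        gcongr
        have := hz1 k
        have := hz2 k
        calc ‖z.1 - a k‖ * ‖z.2 - a k‖ ≤ 2 * 2 := by gcongr
          _ = 4 := by norm_num
    calc ‖((z.1 - a j) * (z.2 - a j)) ^ mm β n j‖ *
          (∏ k ∈ (Finset.range n).erase j, ‖((z.1 - a k) * (z.2 - a k)) ^ mm β n k‖) * 2 ^ LL β n
        = (‖((z.1 - a j) * (z.2 - a j)) ^ mm β n j‖ * 2 ^ LL β n) *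
          (∏ k ∈ (Finset.range n).erase j, ‖((z.1 - a k) * (z.2 - a k)) ^ mm β n k‖) := by ring
      _ ≤ _ := by gcongr
  have hsplit : (∏ k ∈ Finset.range n, (4:ℝ) ^ mm β n k)
      = 4 ^ mm β n j * ∏ k ∈ (Finset.range n).erase j, (4:ℝ) ^ mm β n k :=
    (Finset.mul_prod_erase _ _ hmem).symm
  have hPpos : 0 < ∏ k ∈ (Finset.range n).erase j, (4:ℝ) ^ mm β n k :=
    Finset.prod_pos fun k _ => by positivity
  have h24 : (2:ℝ) ^ mm β n j < 4 ^ mm β n j :=
    pow_lt_pow_left₀ (by norm_num) (by norm_num) (mm_pos hβ n j).ne'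
  have hfin : (∏ k ∈ Finset.range n, (4:ℝ) ^ mm β n k) ≤
      2 ^ mm β n j * ∏ k ∈ (Finset.range n).erase j, (4:ℝ) ^ mm β n k := by
    refine hlow.trans (le_trans ?_ hup)
    gcongr
  rw [hsplit] at hfin
  have := mul_lt_mul_of_pos_right h24 hPpos
  linarith

end Weights

/-- The partial point in `ℂ^4`. -/
noncomputable def ptn (c : ℕ → ℂ) (n : ℕ) (ω : Om) : Fin 4 → ℂ :=
  ![ω.1.1, ∑ j ∈ Finset.range n, c j * ω.2 (false, j), ω.1.2,
    ∑ j ∈ Finset.range n, c j * ω.2 (true, j)]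

lemma eval_ptn_mem (c : ℕ → ℂ) (n : ℕ) (p : MvPolynomial (Fin 4) ℂ) :
    (fun ω : Om => MvPolynomial.eval (ptn c n ω) p)
      ∈ polyAlg (Finset.univ ×ˢ Finset.range n) := by
  set A := polyAlg (Finset.univ ×ˢ Finset.range n) with hA
  have hcoord : ∀ i : Fin 4, (fun ω : Om => ptn c n ω i) ∈ A := by
    intro i
    have hs : ∀ b : Bool, (fun ω : Om => ∑ j ∈ Finset.range n, c j * ω.2 (b, j)) ∈ A := by
      intro b
      have : (fun ω : Om => ∑ j ∈ Finset.range n, c j * ω.2 (b, j))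
          = ∑ j ∈ Finset.range n, (c j) • (fun ω : Om => ω.2 (b, j)) := by
        ext ω
        simp
      rw [this]
      apply A.sum_mem
      intro j hj
      apply A.smul_mem
      apply t_mem
      simp only [Finset.mem_product, Finset.mem_univ, true_and]
      exact hj
    fin_cases i
    · exact co_mem _ false
    · exact hs false
    · exact co_mem _ true
    · exact hs true
  induction p using MvPolynomial.induction_on with
  | C r =>
    have : (fun ω : Om => MvPolynomial.eval (ptn c n ω) (MvPolynomial.C r : MvPolynomial (Fin 4) ℂ))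
        = algebraMap ℂ (Om → ℂ) r := by
      ext ω; simp
    rw [this]
    exact A.algebraMap_mem r
  | add p q hp hq =>
    have : (fun ω : Om => MvPolynomial.eval (ptn c n ω) (p + q))
        = (fun ω : Om => MvPolynomial.eval (ptn c n ω) p)
          + (fun ω : Om => MvPolynomial.eval (ptn c n ω) q) := by
      ext ω; simp
    rw [this]
    exact A.add_mem hp hq
  | mul_X p i hp =>
    have : (fun ω : Om => MvPolynomial.eval (ptn c n ω) (p * MvPolynomial.X i))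
        = (fun ω : Om => MvPolynomial.eval (ptn c n ω) p) * (fun ω : Om => ptn c n ω i) := by
      ext ω; simp
    rw [this]
    exact A.mul_mem hp (hcoord i)

/-- The finite stage: every polynomial value at the base point is attained on the shell. -/
theorem finite_stage {a : ℕ → ℂ} {β : ℕ → ℕ} (ha : ∀ j, ‖a j‖ ≤ 1) (hβ : ∀ j, 1 ≤ β j)
    (hβa : ∀ j, 4 ≤ ‖a j‖ ^ 2 * 2 ^ β j) (c : ℕ → ℂ) {t0 : Bool × ℕ → ℂ}
    (ht0 : ∀ α, t0 α ^ 2 * lin a α 0 = 1) (n : ℕ) (p : MvPolynomial (Fin 4) ℂ) :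
    ∃ ω : Om, ‖ω.1‖ = 1 ∧ (∀ b, ∀ j < n, ω.2 (b, j) ^ 2 * lin a (b, j) ω.1 = 1 ∧
      ‖ω.2 (b, j)‖ ≤ RR β j) ∧
      MvPolynomial.eval (ptn c n ω) p = MvPolynomial.eval (ptn c n (0, t0)) p := by
  set lam := MvPolynomial.eval (ptn c n (0, t0)) p with hlam
  have hF : (fun ω : Om => MvPolynomial.eval (ptn c n ω) p) - algebraMap ℂ (Om → ℂ) lam
      ∈ polyAlg (Finset.univ ×ˢ Finset.range n) :=
    Subalgebra.sub_mem _ (eval_ptn_mem c n p) (Subalgebra.algebraMap_mem _ _)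
  obtain ⟨Q, hQ, hQ1, hQ2⟩ := elim a _ _ hF
  have hQ0 : Q 0 = 0 := by
    apply hQ1 (0, t0) (fun α _ => ht0 α)
    simp [hlam]
  obtain ⟨z, hz, hQz, hGz⟩ := max_principle hQ (GG_differentiable a β n) (x := 0)
    (by simp) hQ0
  have hw : ∀ b, ∀ j < n, 1 ≤ ‖lin a (b, j) z‖ * RR β j ^ 2 := fun b j hj =>
    weights ha hβ hβa hz.le hGz b hj
  have hlin : ∀ α ∈ (Finset.univ : Finset Bool) ×ˢ Finset.range n, lin a α z ≠ 0 := by
    rintro ⟨b, j⟩ hα h0
    simp only [Finset.mem_product, Finset.mem_univ, true_and, Finset.mem_range] at hα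
    have := hw b j hα
    rw [h0, norm_zero, zero_mul] at this
    linarith
  obtain ⟨t, ht, hFt⟩ := hQ2 z hlin hQz
  refine ⟨(z, t), hz, ?_, ?_⟩
  · intro b j hj
    have h1 := ht (b, j) (by simp [hj])
    refine ⟨h1, ?_⟩
    have h2 := hw b j hj
    have h3 : ‖t (b, j)‖ ^ 2 * ‖lin a (b, j) z‖ = 1 := by
      rw [← norm_pow, ← norm_mul, h1, norm_one]
    have hR : 0 ≤ RR β j := by unfold RR; positivity
    apply le_of_sq_le_sq _ hR
    have h4 : 0 ≤ ‖t (b, j)‖ ^ 2 := by positivity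
    calc ‖t (b, j)‖ ^ 2 = ‖t (b, j)‖ ^ 2 * 1 := by ring
      _ ≤ ‖t (b, j)‖ ^ 2 * (‖lin a (b, j) z‖ * RR β j ^ 2) := by gcongr
      _ = (‖t (b, j)‖ ^ 2 * ‖lin a (b, j) z‖) * RR β j ^ 2 := by ring
      _ = RR β j ^ 2 := by rw [h3, one_mul]
  · have : MvPolynomial.eval (ptn c n (z, t)) p - lam = 0 := by simpa using hFt
    exact sub_eq_zero.mp this

end Pool.Agent.GP
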