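import Pool.Agent.GP.Decay
import Pool.Agent.GP.Stage
import Pool.Agent.GP.RootNoDer

set_option autoImplicit false

open Set Filter Topology

namespace Pool.Agent.GP

/-- A sequence of nonzero points of the unit disc, dense in the closed unit disc. -/
lemma exists_dense_seq : ∃ a : ℕ → ℂ, (∀ j, a j ≠ 0) ∧ (∀ j, ‖a j‖ ≤ 1) ∧
    ∀ ζ : ℂ, ‖ζ‖ ≤ 1 → ∀ ε > 0, ∃ j, ‖ζ - a j‖ < ε := by
  let S := {x : ℂ // x ≠ 0 ∧ ‖x‖ ≤ 1}
  have : Nonempty S := ⟨⟨1, one_ne_zero, by simp⟩⟩
  refine ⟨fun j => (TopologicalSpace.denseSeq S j).1,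
    fun j => (TopologicalSpace.denseSeq S j).2.1, fun j => (TopologicalSpace.denseSeq S j).2.2, ?_⟩
  intro ζ hζ ε hε
  obtain ⟨x, hx⟩ : ∃ x : S, ‖ζ - x.1‖ < ε / 2 := by
    by_cases h : ζ = 0
    · set δ := min (ε / 4) 1 with hδ
      have hδ0 : 0 < δ := by positivity
      have h1 : ‖(δ : ℂ)‖ = δ := by
        rw [Complex.norm_real, Real.norm_eq_abs, abs_of_pos hδ0]
      refine ⟨⟨(δ : ℂ), by exact_mod_cast hδ0.ne', by rw [h1]; exact min_le_right _ _⟩, ?_⟩
      rw [h, zero_sub, norm_neg, h1]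
      have : δ ≤ ε / 4 := min_le_left _ _
      linarith
    · exact ⟨⟨ζ, h, hζ⟩, by simp; positivity⟩
  have hd := (TopologicalSpace.denseRange_denseSeq S).exists_dist_lt x (half_pos hε)
  obtain ⟨j, hj⟩ := hd
  refine ⟨j, ?_⟩
  rw [Subtype.dist_eq, dist_eq_norm] at hj
  calc ‖ζ - (TopologicalSpace.denseSeq S j).1‖
      = ‖(ζ - x.1) + (x.1 - (TopologicalSpace.denseSeq S j).1)‖ := by congr 1; ring
    _ ≤ ‖ζ - x.1‖ + ‖x.1 - (TopologicalSpace.denseSeq S j).1‖ := norm_add_le _ _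
    _ < ε := by linarith

lemma exists_exponents {a : ℕ → ℂ} (ha0 : ∀ j, a j ≠ 0) :
    ∃ β : ℕ → ℕ, (∀ j, 1 ≤ β j) ∧ ∀ j, 4 ≤ ‖a j‖ ^ 2 * 2 ^ β j := by
  have : ∀ j, ∃ b : ℕ, 1 ≤ b ∧ 4 ≤ ‖a j‖ ^ 2 * 2 ^ b := by
    intro j
    have hpos : 0 < ‖a j‖ ^ 2 := by
      have := norm_pos_iff.mpr (ha0 j)
      positivity
    obtain ⟨n, hn⟩ := pow_unbounded_of_one_lt (4 / ‖a j‖ ^ 2) (one_lt_two (α := ℝ))
    refine ⟨n + 1, by omega, ?_⟩
    rw [div_lt_iff₀ hpos] at hn
    have h2 : (2:ℝ) ^ (n + 1) = 2 ^ n * 2 := pow_succ _ _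
    rw [h2]
    linarith
  choose β h1 h2 using this
  exact ⟨β, h1, h2⟩

/-- The infinite point map. -/
noncomputable def ptI (c : ℕ → ℂ) (ω : Om) : Fin 4 → ℂ :=
  ![ω.1.1, ∑' j, c j * ω.2 (false, j), ω.1.2, ∑' j, c j * ω.2 (true, j)]

/-- Part A: a compact set in `ℂ^4` with nontrivial hull and no bounded point derivations. -/
theorem partA : ∃ X : Set (Fin 4 → ℂ), IsCompact X ∧ (∃ z, z ∉ X ∧ InHull X z) ∧ NoDer X := by
  obtain ⟨a, ha0, ha, hdense⟩ := exists_dense_seq
  obtain ⟨β, hβ, hβa⟩ := exists_exponents ha0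
  set R : ℕ → ℝ := RR β with hR
  have hR1 : ∀ j, 1 ≤ R j := fun j => one_le_pow₀ (by norm_num)
  set c : ℕ → ℂ := fun j => (cc R j : ℂ) with hc
  have hcn : ∀ j, ‖c j‖ = cc R j := by
    intro j
    simp only [hc]
    rw [Complex.norm_real, Real.norm_eq_abs, abs_of_pos (cc_pos hR1 j)]
  -- base point
  have hlin0 : ∀ α, lin a α 0 = - a α.2 := by
    rintro ⟨b, j⟩
    cases b <;> simp [lin, co]
  have hex : ∀ α : Bool × ℕ, ∃ s : ℂ, s ^ 2 = (lin a α 0)⁻¹ := fun α =>
    IsAlgClosed.exists_pow_nat_eq _ (by norm_num)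
  choose t0 ht0' using hex
  have hlin0' : ∀ α, lin a α 0 ≠ 0 := fun α => by
    rw [hlin0]; exact neg_ne_zero.mpr (ha0 _)
  have ht0 : ∀ α, t0 α ^ 2 * lin a α 0 = 1 := fun α => by
    rw [ht0', inv_mul_cancel₀ (hlin0' α)]
  have ht0n : ∀ α, ‖t0 α‖ ≤ R α.2 := by
    intro α
    apply le_of_sq_le_sq _ (by linarith [hR1 α.2])
    have h1 : ‖t0 α‖ ^ 2 * ‖a α.2‖ = 1 := by
      rw [← norm_pow, ht0', hlin0, norm_inv, norm_neg,
        inv_mul_cancel₀ (norm_ne_zero_iff.mpr (ha0 _))]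
    have h2 := hβa α.2
    have h3 := ha α.2
    have h4 : 0 < ‖a α.2‖ := norm_pos_iff.mpr (ha0 _)
    have h5 : 1 ≤ ‖a α.2‖ * R α.2 ^ 2 := by
      rw [hR, RR_sq]
      have h6 : (2:ℝ) ^ β α.2 ≤ 2 ^ NN β α.2 := by
        apply pow_le_pow_right₀ (by norm_num)
        unfold NN
        exact Nat.le_mul_of_pos_left _ (by positivity)
      have h7 : ‖a α.2‖ ^ 2 ≤ ‖a α.2‖ := by nlinarith
      calc (1:ℝ) ≤ 4 := by norm_num
        _ ≤ ‖a α.2‖ ^ 2 * 2 ^ β α.2 := h2
        _ ≤ ‖a α.2‖ * 2 ^ NN β α.2 := by gcongr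
    calc ‖t0 α‖ ^ 2 = ‖t0 α‖ ^ 2 * 1 := by ring
      _ ≤ ‖t0 α‖ ^ 2 * (‖a α.2‖ * R α.2 ^ 2) := by gcongr
      _ = (‖t0 α‖ ^ 2 * ‖a α.2‖) * R α.2 ^ 2 := by ring
      _ = R α.2 ^ 2 := by rw [h1, one_mul]
  -- compact sets
  set K : Set Om := Metric.closedBall 0 1 ×ˢ Set.univ.pi (fun α : Bool × ℕ =>
    Metric.closedBall (0:ℂ) (R α.2)) with hK
  have hKc : IsCompact K := (isCompact_closedBall _ _).prod
    (isCompact_univ_pi fun α => isCompact_closedBall _ _)
  have hKmem : ∀ ω : Om, ω ∈ K ↔ ‖ω.1‖ ≤ 1 ∧ ∀ α, ‖ω.2 α‖ ≤ R α.2 := by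
    intro ω
    simp [hK, Set.mem_prod, Set.mem_pi]
  set Y : Set Om := {ω | ‖ω.1‖ = 1 ∧ ∀ b j, ω.2 (b, j) ^ 2 * lin a (b, j) ω.1 = 1 ∧
    ‖ω.2 (b, j)‖ ≤ R j} with hY
  have hcoc : ∀ b, Continuous (co b) := by
    intro b
    cases b
    · exact continuous_fst
    · exact continuous_snd
  have hlinc : ∀ α, Continuous (fun ω : Om => lin a α ω.1) := by
    intro α
    exact ((hcoc α.1).comp continuous_fst).sub continuous_const
  have hevc : ∀ α, Continuous (fun ω : Om => ω.2 α) := fun α =>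
    (continuous_apply α).comp continuous_snd
  have hYclosed : IsClosed Y := by
    have h1 : Y = {ω : Om | ‖ω.1‖ = 1} ∩ ⋂ b, ⋂ j, ({ω : Om | ω.2 (b, j) ^ 2 * lin a (b, j) ω.1 = 1}
        ∩ {ω : Om | ‖ω.2 (b, j)‖ ≤ R j}) := by
      ext ω
      simp [hY]
    rw [h1]
    apply IsClosed.inter
    · exact isClosed_eq (by fun_prop) continuous_const
    · apply isClosed_iInter
      intro b
      apply isClosed_iInter
      intro j
      apply IsClosed.inter
      · exact isClosed_eq (((hevc (b, j)).pow 2).mul (hlinc (b, j))) continuous_const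
      · exact isClosed_le (hevc (b, j)).norm continuous_const
  have hYK : Y ⊆ K := by
    intro ω hω
    rw [hKmem]
    exact ⟨hω.1.le, fun α => (hω.2 α.1 α.2).2⟩
  have hYc : IsCompact Y := hKc.of_isClosed_subset hYclosed hYK
  have hcontK : ∀ b, ContinuousOn (fun ω : Om => ∑' j, c j * ω.2 (b, j)) K := by
    intro b
    apply continuousOn_tsum (u := fun j => cc R j * R j)
    · intro j
      exact (continuous_const.mul (hevc (b, j))).continuousOn
    · exact cc_summable hR1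
    · intro j ω hω
      rw [norm_mul, hcn]
      have := ((hKmem ω).mp hω).2 (b, j)
      have := (cc_pos hR1 j).le
      gcongr
  have hptc : ContinuousOn (ptI c) K := by
    rw [continuousOn_pi]
    intro i
    fin_cases i
    · exact (continuous_fst.comp continuous_fst).continuousOn
    · exact hcontK false
    · exact (continuous_snd.comp continuous_fst).continuousOn
    · exact hcontK true
  have hbaseK : ((0, t0) : Om) ∈ K := by
    rw [hKmem]
    exact ⟨by simp, ht0n⟩
  -- convergence of partial points at the base point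
  have hsum0 : ∀ ω ∈ K, ∀ b, Summable fun j => c j * ω.2 (b, j) := by
    intro ω hω b
    apply Summable.of_norm_bounded (cc_summable hR1)
    intro j
    rw [norm_mul, hcn]
    have := ((hKmem ω).mp hω).2 (b, j)
    have := (cc_pos hR1 j).le
    gcongr
  have hbase_lim : Tendsto (fun n => ptn c n (0, t0)) atTop (𝓝 (ptI c (0, t0))) := by
    rw [tendsto_pi_nhds]
    intro i
    fin_cases i
    · exact tendsto_const_nhds
    · exact (hsum0 _ hbaseK false).hasSum.tendsto_sum_nat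
    · exact tendsto_const_nhds
    · exact (hsum0 _ hbaseK true).hasSum.tendsto_sum_nat
  -- the hull statement
  have hhull : InHull (ptI c '' Y) (ptI c (0, t0)) := by
    intro p
    have hstage := fun n => finite_stage ha hβ hβa c ht0 n p
    choose w hw1 hw2 hw3 using hstage
    set w' : ℕ → Om := fun n => ((w n).1, fun α => if α.2 < n then (w n).2 α else 0) with hw'
    have hw'K : ∀ n, w' n ∈ K := by
      intro n
      rw [hKmem]
      refine ⟨(hw1 n).le, ?_⟩
      rintro ⟨b, j⟩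
      simp only [hw']
      split_ifs with h
      · exact (hw2 n b j h).2
      · rw [norm_zero]; linarith [hR1 j]
    have hw'pt : ∀ n, ptI c (w' n) = ptn c n (w n) := by
      intro n
      have hs : ∀ b, ∑' j, c j * (w' n).2 (b, j) = ∑ j ∈ Finset.range n, c j * (w n).2 (b, j) := by
        intro b
        rw [tsum_eq_sum (s := Finset.range n)]
        · apply Finset.sum_congr rfl
          intro j hj
          simp only [hw', Finset.mem_range.mp hj, if_true]
        · intro j hj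
          rw [Finset.mem_range] at hj
          simp only [hw', hj, if_false, mul_zero]
      unfold ptI ptn
      rw [hs false, hs true]
    obtain ⟨ω, hωK, φ, hφ, hlim⟩ := hKc.tendsto_subseq hw'K
    have hlim1 : Tendsto (fun n => (w' (φ n)).1) atTop (𝓝 ω.1) :=
      (continuous_fst.tendsto ω).comp hlim
    have hωY : ω ∈ Y := by
      refine ⟨?_, ?_⟩
      · have h1 : Tendsto (fun n => ‖(w' (φ n)).1‖) atTop (𝓝 ‖ω.1‖) := hlim1.norm
        have h2 : (fun n => ‖(w' (φ n)).1‖) = fun _ => 1 := by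
          ext n
          exact hw1 (φ n)
        rw [h2] at h1
        exact (tendsto_nhds_unique h1 tendsto_const_nhds)
      · intro b j
        refine ⟨?_, ((hKmem ω).mp hωK).2 (b, j)⟩
        have h1 : Tendsto (fun n => (w' (φ n)).2 (b, j) ^ 2 * lin a (b, j) (w' (φ n)).1) atTop
            (𝓝 (ω.2 (b, j) ^ 2 * lin a (b, j) ω.1)) :=
          ((((hevc (b, j)).pow 2).mul (hlinc (b, j))).tendsto ω).comp hlim
        have h2 : ∀ᶠ n in atTop, (w' (φ n)).2 (b, j) ^ 2 * lin a (b, j) (w' (φ n)).1 = 1 := by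
          filter_upwards [eventually_gt_atTop j] with n hn
          have hjn : j < φ n := lt_of_lt_of_le hn (hφ.id_le n)
          have h3 := (hw2 (φ n) b j hjn).1
          simp only [hw', hjn, if_true]
          exact h3
        have h4 : Tendsto (fun n => (w' (φ n)).2 (b, j) ^ 2 * lin a (b, j) (w' (φ n)).1) atTop
            (𝓝 1) := tendsto_const_nhds.congr' (h2.mono fun n hn => hn.symm)
        exact tendsto_nhds_unique h1 h4
    refine ⟨ptI c ω, ⟨ω, hωY, rfl⟩, le_of_eq ?_⟩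
    congr 1
    have e1 : Tendsto (fun n => MvPolynomial.eval (ptI c (w' (φ n))) p) atTop
        (𝓝 (MvPolynomial.eval (ptI c ω) p)) := by
      have h1 : Tendsto (fun n => ptI c (w' (φ n))) atTop (𝓝 (ptI c ω)) := by
        have h2 := hptc ω hωK
        apply h2.tendsto.comp
        rw [tendsto_nhdsWithin_iff]
        exact ⟨hlim, Eventually.of_forall fun n => hw'K (φ n)⟩
      exact ((MvPolynomial.continuous_eval p).tendsto _).comp h1
    have e2 : Tendsto (fun n => MvPolynomial.eval (ptI c (w' (φ n))) p) atTop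
        (𝓝 (MvPolynomial.eval (ptI c (0, t0)) p)) := by
      have h1 : ∀ n, MvPolynomial.eval (ptI c (w' (φ n))) p
          = MvPolynomial.eval (ptn c (φ n) (0, t0)) p := by
        intro n
        rw [hw'pt, hw3]
      simp_rw [h1]
      exact ((MvPolynomial.continuous_eval p).tendsto _).comp (hbase_lim.comp hφ.tendsto_atTop)
    exact tendsto_nhds_unique e2 e1
  -- function algebra on Y
  have : CompactSpace Y := isCompact_iff_compactSpace.mp hYc
  let Z : Bool → C(Y, ℂ) := fun b => ⟨fun y => co b y.1.1,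
    (hcoc b).comp (continuous_fst.comp continuous_subtype_val)⟩
  let T : Bool → ℕ → C(Y, ℂ) := fun b j => ⟨fun y => y.1.2 (b, j),
    (hevc (b, j)).comp continuous_subtype_val⟩
  have hTn : ∀ b j, ‖T b j‖ ≤ R j := by
    intro b j
    rw [ContinuousMap.norm_le _ (by linarith [hR1 j])]
    intro y
    exact (y.2.2 b j).2
  have hsummT : ∀ b, Summable fun j => (cc R j : ℂ) • T b j := by
    intro b
    apply Summable.of_norm_bounded (cc_summable hR1)
    intro j
    rw [norm_smul]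
    have h1 : ‖((cc R j : ℝ) : ℂ)‖ = cc R j := hcn j
    rw [h1]
    have := hTn b j
    have := (cc_pos hR1 j).le
    gcongr
  let W : Bool → C(Y, ℂ) := fun b => ∑' j, (cc R j : ℂ) • T b j
  have hNoDer := root_noDer (a := a) (R := R) (c := cc R) (T := T) (Z := Z) (W := W)
    (by
      intro b j
      ext y
      have := (y.2.2 b j).1
      have e : (T b j * T b j * (Z b - algebraMap ℂ C(Y, ℂ) (a j))) y
          = y.1.2 (b, j) * y.1.2 (b, j) * (co b y.1.1 - a j) := by simp [T, Z]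
      rw [e, ← pow_two]
      exact this) hTn
    (by
      intro b
      rw [ContinuousMap.norm_le _ zero_le_one]
      intro y
      have h1 : ‖y.1.1‖ = 1 := y.2.1
      cases b
      · exact (norm_fst_le y.1.1).trans h1.le
      · exact (norm_snd_le y.1.1).trans h1.le)
    ha (cc_pos hR1) (cc_summable hR1) (cc_tail hR1) hdense (fun b => rfl)
  have hrange : (Set.range fun (y : Y) (i : Fin 4) =>
      (![Z false, W false, Z true, W true] : Fin 4 → C(Y, ℂ)) i y) = ptI c '' Y := by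
    have hWy : ∀ b (y : Y), W b y = ∑' j, c j * y.1.2 (b, j) := by
      intro b y
      have := ContinuousMap.tsum_apply (hsummT b) y
      rw [show W b y = (∑' j, (cc R j : ℂ) • T b j) y from rfl, ← this]
      rfl
    have hpt : ∀ y : Y, (fun i : Fin 4 =>
        (![Z false, W false, Z true, W true] : Fin 4 → C(Y, ℂ)) i y) = ptI c y.1 := by
      intro y
      ext i
      fin_cases i
      · rfl
      · exact hWy false y
      · rfl
      · exact hWy true y
    ext x
    constructor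
    · rintro ⟨y, rfl⟩
      exact ⟨y.1, y.2, (hpt y).symm⟩
    · rintro ⟨ω, hω, rfl⟩
      exact ⟨⟨ω, hω⟩, hpt ⟨ω, hω⟩⟩
  rw [hrange] at hNoDer
  refine ⟨ptI c '' Y, hYc.image_of_continuousOn (hptc.mono hYK), ⟨ptI c (0, t0), ?_, hhull⟩, hNoDer⟩
  rintro ⟨ω, hω, h⟩
  have h0 : ω.1.1 = 0 := by
    have := congrFun h 0
    simpa [ptI] using this
  have h2 : ω.1.2 = 0 := by
    have := congrFun h 2
    simpa [ptI] using this
  have h3 : ‖ω.1‖ = 1 := hω.1
  rw [Prod.norm_def, h0, h2] at h3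
  simp at h3

end Pool.Agent.GP
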