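import Pool.Agent.GP.CheeseAbs
import Pool.Agent.GP.Grid

set_option autoImplicit false

open Set Filter Topology

namespace Pool.Agent.GP

/-- The grid sizes. -/
noncomputable def nn (k : ℕ) : ℕ := 2 ^ (4 ^ k)

lemma nn_pos (k : ℕ) : 1 ≤ nn k := Nat.one_le_two_pow

/-- The radii. -/
noncomputable def rr (η : ℝ) (k : ℕ) : ℝ := η * (1 / 2) ^ k / (nn k : ℝ) ^ 2

lemma rr_pos {η : ℝ} (hη : 0 < η) (k : ℕ) : 0 < rr η k := by
  unfold rr
  have : (0:ℝ) < nn k := by exact_mod_cast nn_pos k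
  positivity

lemma rr_le {η : ℝ} (hη : 0 < η) (k : ℕ) : rr η k * (nn k : ℝ) ^ 2 ≤ η := by
  have : (0:ℝ) < nn k := by exact_mod_cast nn_pos k
  have h1 : rr η k * (nn k : ℝ) ^ 2 = η * (1 / 2) ^ k := by
    unfold rr
    field_simp
  rw [h1]
  have h2 : (1 / 2 : ℝ) ^ k ≤ 1 := pow_le_one₀ (by norm_num) (by norm_num)
  nlinarith

lemma base_dist {M : ℕ} (hM : 1 ≤ M) {s : ℝ} (hs : s = 1 ∨ s = -1) (k : ℕ) (p q : ℤ) :
    1 / (3 * M * nn k : ℝ) ≤ ‖((s / (3 * M) : ℝ) : ℂ) - gpt (nn k) p q‖ := by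
  have hn0 : (0:ℝ) < nn k := by exact_mod_cast nn_pos k
  have hM0 : (0:ℝ) < M := by exact_mod_cast hM
  refine le_trans ?_ (Complex.abs_re_le_norm _)
  have hre : (((s / (3 * M) : ℝ) : ℂ) - gpt (nn k) p q).re = s / (3 * M) - (p:ℝ) / nn k := by
    simp only [Complex.sub_re, Complex.ofReal_re, gpt]
  rw [hre]
  have h3 : ¬ (3 : ℕ) ∣ nn k := by
    intro h
    unfold nn at h
    have := (Nat.prime_three.dvd_of_dvd_pow h)
    omega
  have h3' : ¬ (3 : ℤ) ∣ (nn k : ℤ) := by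
    intro h
    exact h3 (by exact_mod_cast h)
  rcases hs with hs | hs
  · have hne : (nn k : ℤ) - 3 * M * p ≠ 0 := by
      intro h
      apply h3'
      exact ⟨M * p, by linarith⟩
    have h1 : (1:ℝ) ≤ |(nn k : ℝ) - 3 * M * p| := by
      have := Int.one_le_abs hne
      have h2 : (1:ℝ) ≤ ((|(nn k : ℤ) - 3 * M * p| : ℤ) : ℝ) := by exact_mod_cast this
      push_cast at h2
      exact h2
    have e : s / (3 * M) - (p:ℝ) / nn k = ((nn k : ℝ) - 3 * M * p) / (3 * M * nn k) := by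
      rw [hs]
      field_simp
    rw [e, abs_div, abs_of_pos (by positivity : (0:ℝ) < 3 * M * nn k)]
    gcongr
  · have hne : (nn k : ℤ) + 3 * M * p ≠ 0 := by
      intro h
      apply h3'
      exact ⟨-(M * p), by linarith⟩
    have h1 : (1:ℝ) ≤ |(nn k : ℝ) + 3 * M * p| := by
      have := Int.one_le_abs hne
      have h2 : (1:ℝ) ≤ ((|(nn k : ℤ) + 3 * M * p| : ℤ) : ℝ) := by exact_mod_cast this
      push_cast at h2
      exact h2
    have e : s / (3 * M) - (p:ℝ) / nn k = -(((nn k : ℝ) + 3 * M * p) / (3 * M * nn k)) := by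
      rw [hs]
      field_simp
      ring
    rw [e, abs_neg, abs_div, abs_of_pos (by positivity : (0:ℝ) < 3 * M * nn k)]
    gcongr

lemma level_sum {M : ℕ} (hM : 1 ≤ M) {η : ℝ} (hη : 0 < η) {s : ℝ} (hs : s = 1 ∨ s = -1) (k : ℕ) :
    ∑ x ∈ box (nn k), rr η k / ‖((s / (3 * M) : ℝ) : ℂ) - gpt (nn k) x.1 x.2‖
      ≤ η * (3 * M + 36) * (1 / 2) ^ k := by
  have hn0 : (0:ℝ) < nn k := by exact_mod_cast nn_pos k
  have hn1 : (1:ℝ) ≤ nn k := by exact_mod_cast nn_pos k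
  have hM0 : (0:ℝ) < M := by exact_mod_cast hM
  have h1 := grid_upper (nn_pos k) (z := ((s / (3 * M) : ℝ) : ℂ)) (δ := 1 / (3 * M * nn k : ℝ))
    (by positivity) (fun x _ => base_dist hM hs k x.1 x.2)
  have h2 : ∑ x ∈ box (nn k), rr η k / ‖((s / (3 * M) : ℝ) : ℂ) - gpt (nn k) x.1 x.2‖
      = rr η k * ∑ x ∈ box (nn k), 1 / ‖((s / (3 * M) : ℝ) : ℂ) - gpt (nn k) x.1 x.2‖ := by
    rw [Finset.mul_sum]
    apply Finset.sum_congr rfl
    intro x _
    ring
  rw [h2]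
  have hr := (rr_pos hη k).le
  calc rr η k * ∑ x ∈ box (nn k), 1 / ‖((s / (3 * M) : ℝ) : ℂ) - gpt (nn k) x.1 x.2‖
      ≤ rr η k * (1 / (1 / (3 * M * nn k : ℝ)) + 36 * (nn k : ℝ) ^ 2) := by gcongr
    _ = rr η k * (3 * M * nn k + 36 * (nn k : ℝ) ^ 2) := by rw [one_div_one_div]
    _ ≤ rr η k * ((3 * M + 36) * (nn k : ℝ) ^ 2) := by
        apply mul_le_mul_of_nonneg_left _ hr
        have : (nn k : ℝ) ≤ (nn k : ℝ) ^ 2 := by nlinarith
        nlinarith
    _ = η * (3 * M + 36) * (1 / 2) ^ k := by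
        unfold rr
        field_simp

lemma nn_log (k : ℕ) : (4:ℝ) ^ k / 2 ≤ ∑ i ∈ Finset.range (nn k), (1 : ℝ) / (i + 1) := by
  have h1 := log_add_one_le_harmonic (nn k)
  have h2 : ((harmonic (nn k) : ℚ) : ℝ) = ∑ i ∈ Finset.range (nn k), (1 : ℝ) / (i + 1) := by
    unfold harmonic
    push_cast
    apply Finset.sum_congr rfl
    intro i _
    rw [one_div]
  rw [h2] at h1
  refine le_trans ?_ h1
  have h3 : Real.log (nn k : ℝ) ≤ Real.log ((nn k + 1 : ℕ) : ℝ) := by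
    apply Real.log_le_log
    · exact_mod_cast nn_pos k
    · push_cast
      linarith
  refine le_trans ?_ h3
  unfold nn
  push_cast
  rw [Real.log_pow]
  have := Real.log_two_gt_d9
  push_cast
  have h4 : (0:ℝ) < 4 ^ k := by positivity
  nlinarith

theorem partB : ∃ K : Set (Fin 2 → ℂ), IsCompact K ∧ NoDer K ∧ ∃ κ₁ ∈ K, ∃ κ₂ ∈ K, κ₂ ≠ κ₁ ∧
      ∃ c < (2:ℝ), ∀ p : MvPolynomial (Fin 2) ℂ, (∀ x ∈ K, ‖MvPolynomial.eval x p‖ ≤ 1) →
        ‖MvPolynomial.eval κ₁ p - MvPolynomial.eval κ₂ p‖ ≤ c := by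
  obtain ⟨B, hB0, hB⟩ := exists_bound_deriv_smoothTransition
  obtain ⟨M0, hM0⟩ := exists_nat_ge (100 * B)
  set M : ℕ := M0 + 2 with hMdef
  have hM1 : 1 ≤ M := by omega
  have hMr : 100 * B ≤ M := by rw [hMdef]; push_cast; linarith
  have hM2 : (2:ℝ) ≤ M := by rw [hMdef]; push_cast; linarith [(Nat.cast_nonneg M0 : (0:ℝ) ≤ M0)]
  set η : ℝ := 1 / (128 * (B + 1) * (3 * M + 36)) with hη
  have hη0 : 0 < η := by positivity
  have hη1 : 12 * M * η ≤ 1 := by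
    rw [hη, mul_one_div, div_le_one (by positivity)]
    nlinarith [mul_pos hB0 (by linarith : (0:ℝ) < M)]
  have hη2 : η ≤ 1 := by nlinarith
  -- the index type
  let J := Σ k : ℕ, {x : ℤ × ℤ // x ∈ box (nn k)}
  have hmem0 : ∀ k, ((0, 0) : ℤ × ℤ) ∈ box (nn k) := by
    intro k
    rw [mem_box]
    simp
  have : Infinite J := Infinite.of_injective (fun k : ℕ => (⟨k, ⟨(0, 0), hmem0 k⟩⟩ : J)) (by
    intro a b hab
    exact congrArg Sigma.fst hab)
  obtain ⟨hJ⟩ := nonempty_denumerable J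
  let e : J ≃ ℕ := Denumerable.eqv J
  let A : ℕ → ℂ := fun j => gpt (nn (e.symm j).1) (e.symm j).2.1.1 (e.symm j).2.1.2
  let ρ : ℕ → ℝ := fun j => rr η (e.symm j).1
  have hρ0 : ∀ j, 0 < ρ j := fun j => rr_pos hη0 _
  have hnn1 : ∀ k, (1:ℝ) ≤ nn k := fun k => by exact_mod_cast nn_pos k
  have hrrη : ∀ k, rr η k ≤ η := by
    intro k
    have h1 := rr_le hη0 k
    have h2 := hnn1 k
    have h3 := (rr_pos hη0 k).le
    have h4 : (1:ℝ) ≤ (nn k : ℝ) ^ 2 := by nlinarith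
    nlinarith
  have hρ1 : ∀ j, ρ j ≤ 1 := fun j => (hrrη _).trans hη2
  have hA : ∀ j, ‖A j‖ ≤ 2 := by
    intro j
    have hm := (e.symm j).2.2
    rw [mem_box] at hm
    have hn0 : (0:ℝ) < nn (e.symm j).1 := by linarith [hnn1 (e.symm j).1]
    refine (Complex.norm_le_abs_re_add_abs_im _).trans ?_
    have h1 : |(A j).re| ≤ 1 := by
      show |((e.symm j).2.1.1 : ℝ) / (nn (e.symm j).1 : ℝ)| ≤ 1
      rw [abs_div, abs_of_pos hn0, div_le_one hn0, abs_le]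
      exact ⟨by exact_mod_cast hm.1.1, by exact_mod_cast hm.1.2⟩
    have h2 : |(A j).im| ≤ 1 := by
      show |((e.symm j).2.1.2 : ℝ) / (nn (e.symm j).1 : ℝ)| ≤ 1
      rw [abs_div, abs_of_pos hn0, div_le_one hn0, abs_le]
      exact ⟨by exact_mod_cast hm.2.1, by exact_mod_cast hm.2.2⟩
    linarith
  have hbase : ∀ s : ℝ, (s = 1 ∨ s = -1) → ∀ j, 4 * ρ j ≤ ‖((s / (3 * M) : ℝ) : ℂ) - A j‖ := by
    intro s hs j
    refine le_trans ?_ (base_dist hM1 hs (e.symm j).1 (e.symm j).2.1.1 (e.symm j).2.1.2)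
    show 4 * rr η (e.symm j).1 ≤ _
    set k := (e.symm j).1
    have hk := hnn1 k
    have h1 := rr_le hη0 k
    have hr := (rr_pos hη0 k).le
    rw [le_div_iff₀ (by positivity)]
    have h2 : rr η k * nn k ≤ η := by
      refine le_trans ?_ h1
      apply mul_le_mul_of_nonneg_left _ hr
      nlinarith
    calc 4 * rr η k * (3 * M * nn k) = 12 * M * (rr η k * nn k) := by ring
      _ ≤ 12 * M * η := by gcongr
      _ ≤ 1 := hη1
  have hsum : ∀ s : ℝ, (s = 1 ∨ s = -1) → ∀ S : Finset ℕ,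
      ∑ j ∈ S, ρ j / ‖((s / (3 * M) : ℝ) : ℂ) - A j‖ ≤ 2 * (η * (3 * M + 36)) := by
    intro s hs S
    let g : J → ℝ := fun t => rr η t.1 / ‖((s / (3 * M) : ℝ) : ℂ) - gpt (nn t.1) t.2.1.1 t.2.1.2‖
    have hg0 : ∀ t, 0 ≤ g t := fun t => div_nonneg (rr_pos hη0 _).le (norm_nonneg _)
    have h1 : ∑ j ∈ S, ρ j / ‖((s / (3 * M) : ℝ) : ℂ) - A j‖
        = ∑ t ∈ S.map e.symm.toEmbedding, g t := by
      rw [Finset.sum_map]
      rfl
    set T := S.map e.symm.toEmbedding with hT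
    set L := T.sup (fun t => t.1) + 1 with hL
    have hsub : T ⊆ (Finset.range L).sigma (fun k => (box (nn k)).attach) := by
      intro t ht
      rw [Finset.mem_sigma]
      refine ⟨?_, Finset.mem_attach _ _⟩
      rw [Finset.mem_range, hL]
      have := Finset.le_sup (f := fun t : J => t.1) ht
      omega
    rw [h1]
    calc ∑ t ∈ T, g t ≤ ∑ t ∈ (Finset.range L).sigma (fun k => (box (nn k)).attach), g t :=
          Finset.sum_le_sum_of_subset_of_nonneg hsub fun t _ _ => hg0 t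
      _ = ∑ k ∈ Finset.range L, ∑ x ∈ (box (nn k)).attach, g ⟨k, x⟩ := Finset.sum_sigma _ _ _
      _ = ∑ k ∈ Finset.range L, ∑ x ∈ box (nn k),
            rr η k / ‖((s / (3 * M) : ℝ) : ℂ) - gpt (nn k) x.1 x.2‖ := by
          apply Finset.sum_congr rfl
          intro k _
          exact Finset.sum_attach (box (nn k))
            (fun x => rr η k / ‖((s / (3 * M) : ℝ) : ℂ) - gpt (nn k) x.1 x.2‖)
      _ ≤ ∑ k ∈ Finset.range L, η * (3 * M + 36) * (1 / 2) ^ k :=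
          Finset.sum_le_sum fun k _ => level_sum hM1 hη0 hs k
      _ = η * (3 * M + 36) * ∑ k ∈ Finset.range L, (1 / 2 : ℝ) ^ k := by rw [Finset.mul_sum]
      _ ≤ η * (3 * M + 36) * 2 := by
          apply mul_le_mul_of_nonneg_left _ (by positivity)
          exact sum_geometric_two_le L
      _ = 2 * (η * (3 * M + 36)) := by ring
  have hM0' : (0:ℝ) < M := by linarith
  have hnx : ∀ s : ℝ, (s = 1 ∨ s = -1) → ‖((s / (3 * M) : ℝ) : ℂ)‖ ≤ 1 / 4 := by
    intro s hs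
    rw [Complex.norm_real, Real.norm_eq_abs, abs_div]
    have h1 : |s| = 1 := by
      rcases hs with h | h <;> rw [h] <;> norm_num
    rw [h1, abs_of_pos (by positivity : (0:ℝ) < 3 * M)]
    rw [div_le_div_iff₀ (by positivity) (by norm_num)]
    linarith
  have hxydist : ‖((((1:ℝ) / (3 * M) : ℝ)) : ℂ) - (((-1:ℝ) / (3 * M) : ℝ) : ℂ)‖ = 2 / (3 * M) := by
    rw [← Complex.ofReal_sub, Complex.norm_real, Real.norm_eq_abs]
    have : (1:ℝ) / (3 * M) - (-1:ℝ) / (3 * M) = 2 / (3 * M) := by ring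
    rw [this, abs_of_pos (by positivity)]
  apply cheese_abs (A := A) (ρ := ρ) hρ0 hρ1 hA hB (x := (((1:ℝ) / (3 * M) : ℝ) : ℂ))
    (y := (((-1:ℝ) / (3 * M) : ℝ) : ℂ)) ?_ (hnx 1 (Or.inl rfl)) (hnx (-1) (Or.inr rfl))
    (hbase 1 (Or.inl rfl)) (hbase (-1) (Or.inr rfl)) (hsum 1 (Or.inl rfl)) (hsum (-1) (Or.inr rfl))
    ?_ (C := 37) ?_
  · intro h
    have := hxydist
    rw [h, sub_self, norm_zero] at this
    have h2 : (0:ℝ) < 2 / (3 * M) := by positivity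
    linarith
  · rw [hxydist]
    have h1 : B * (64 * (2 / (3 * M))) ≤ 1 / 2 := by
      rw [show B * (64 * (2 / (3 * (M:ℝ)))) = (128 * B) / (3 * M) by ring,
        div_le_div_iff₀ (by positivity) (by norm_num)]
      linarith
    have h2 : B * (32 * (2 * (η * (3 * M + 36)))) ≤ 1 / 2 := by
      rw [hη]
      have : B * (32 * (2 * (1 / (128 * (B + 1) * (3 * M + 36)) * (3 * M + 36))))
          = B / (2 * (B + 1)) := by
        field_simp
        norm_num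
      rw [this, div_le_div_iff₀ (by positivity) (by norm_num)]
      linarith
    linarith
  · intro ζ hζ hζA M'
    obtain ⟨k, hk⟩ := pow_unbounded_of_one_lt (4 * M' / η) (by norm_num : (1:ℝ) < 2)
    let emb : {x : ℤ × ℤ // x ∈ box (nn k)} ↪ ℕ :=
      ⟨fun x => e ⟨k, x⟩, fun a b hab => by
        have h := e.injective hab
        exact eq_of_heq (Sigma.mk.inj h).2⟩
    refine ⟨(box (nn k)).attach.map emb, rr η k, (rr_pos hη0 k).le, ?_, ?_⟩
    · intro z hz hzA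
      have h1 : ∑ j ∈ (box (nn k)).attach.map emb, rr η k / ‖z - A j‖
          = rr η k * ∑ x ∈ box (nn k), 1 / ‖z - gpt (nn k) x.1 x.2‖ := by
        rw [Finset.sum_map, Finset.mul_sum, ← Finset.sum_attach (box (nn k))]
        apply Finset.sum_congr rfl
        intro x _
        have : A (emb x) = gpt (nn k) x.1.1 x.1.2 := by
          show gpt (nn (e.symm (e ⟨k, x⟩)).1) (e.symm (e ⟨k, x⟩)).2.1.1 (e.symm (e ⟨k, x⟩)).2.1.2 = _
          rw [Equiv.symm_apply_apply]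
        rw [this]
        ring
      rw [h1]
      have hd : ∀ x ∈ box (nn k), rr η k ≤ ‖z - gpt (nn k) x.1 x.2‖ := by
        intro x hx
        have h2 := hzA (e ⟨k, ⟨x, hx⟩⟩)
        have h3 : ρ (e ⟨k, ⟨x, hx⟩⟩) = rr η k := by
          show rr η (e.symm (e ⟨k, ⟨x, hx⟩⟩)).1 = _
          rw [Equiv.symm_apply_apply]
        have h4 : A (e ⟨k, ⟨x, hx⟩⟩) = gpt (nn k) x.1 x.2 := by
          show gpt (nn (e.symm (e ⟨k, ⟨x, hx⟩⟩)).1) (e.symm (e ⟨k, ⟨x, hx⟩⟩)).2.1.1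
            (e.symm (e ⟨k, ⟨x, hx⟩⟩)).2.1.2 = _
          rw [Equiv.symm_apply_apply]
        rw [h3, h4] at h2
        exact h2
      have h5 := grid_upper (nn_pos k) (rr_pos hη0 k) hd
      have hr := rr_pos hη0 k
      calc rr η k * ∑ x ∈ box (nn k), 1 / ‖z - gpt (nn k) x.1 x.2‖
          ≤ rr η k * (1 / rr η k + 36 * (nn k : ℝ) ^ 2) := by gcongr
        _ = 1 + 36 * (rr η k * (nn k : ℝ) ^ 2) := by field_simp
        _ ≤ 1 + 36 * η := by linarith [rr_le hη0 k]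
        _ ≤ 37 := by linarith
    · have h1 : ∑ j ∈ (box (nn k)).attach.map emb, rr η k / ‖ζ - A j‖ ^ 2
          = rr η k * ∑ x ∈ box (nn k), 1 / ‖ζ - gpt (nn k) x.1 x.2‖ ^ 2 := by
        rw [Finset.sum_map, Finset.mul_sum, ← Finset.sum_attach (box (nn k))]
        apply Finset.sum_congr rfl
        intro x _
        have : A (emb x) = gpt (nn k) x.1.1 x.1.2 := by
          show gpt (nn (e.symm (e ⟨k, x⟩)).1) (e.symm (e ⟨k, x⟩)).2.1.1 (e.symm (e ⟨k, x⟩)).2.1.2 = _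
          rw [Equiv.symm_apply_apply]
        rw [this]
        ring
      rw [h1]
      have hne : ∀ x ∈ box (nn k), ζ - gpt (nn k) x.1 x.2 ≠ 0 := by
        intro x hx h0
        have h2 := hζA (e ⟨k, ⟨x, hx⟩⟩)
        have h4 : A (e ⟨k, ⟨x, hx⟩⟩) = gpt (nn k) x.1 x.2 := by
          show gpt (nn (e.symm (e ⟨k, ⟨x, hx⟩⟩)).1) (e.symm (e ⟨k, ⟨x, hx⟩⟩)).2.1.1
            (e.symm (e ⟨k, ⟨x, hx⟩⟩)).2.1.2 = _
          rw [Equiv.symm_apply_apply]
        rw [h4, h0, norm_zero] at h2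
        linarith [hρ0 (e ⟨k, ⟨x, hx⟩⟩)]
      have h5 := grid_lower (nn_pos k) ((Complex.abs_re_le_norm ζ).trans hζ)
        ((Complex.abs_im_le_norm ζ).trans hζ) hne
      have hr := rr_pos hη0 k
      have hn0 : (0:ℝ) < nn k := by linarith [hnn1 k]
      have h6 : (4:ℝ) ^ k = 2 ^ k * 2 ^ k := by
        rw [← mul_pow]; norm_num
      calc M' ≤ η * 2 ^ k / 4 := by
            rw [div_lt_iff₀ hη0] at hk
            linarith
        _ = η * (1 / 2) ^ k / 2 * ((4:ℝ) ^ k / 2) := by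
            rw [h6, one_div, inv_pow]
            field_simp
            norm_num
        _ = rr η k * ((nn k : ℝ) ^ 2 / 2 * ((4:ℝ) ^ k / 2)) := by
            unfold rr
            field_simp
        _ ≤ rr η k * ((nn k : ℝ) ^ 2 / 2 * ∑ i ∈ Finset.range (nn k), (1 : ℝ) / (i + 1)) := by
            have := nn_log k
            gcongr
        _ ≤ rr η k * ∑ x ∈ box (nn k), 1 / ‖ζ - gpt (nn k) x.1 x.2‖ ^ 2 := by gcongr

end Pool.Agent.GP
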