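import Pool.Agent.GP.Ext

set_option autoImplicit false

open Set Filter Topology

namespace Pool.Agent.GP

/-- Partial evaluation of the last `n` variables. -/
noncomputable def evR {m n : ℕ} (v : Fin n → ℂ) :
    MvPolynomial (Fin (m + n)) ℂ →ₐ[ℂ] MvPolynomial (Fin m) ℂ :=
  MvPolynomial.aeval (Fin.append (fun i : Fin m => (MvPolynomial.X i : MvPolynomial (Fin m) ℂ))
    (fun j : Fin n => MvPolynomial.C (v j)))

lemma eval_evR {m n : ℕ} (u : Fin m → ℂ) (v : Fin n → ℂ) (p : MvPolynomial (Fin (m + n)) ℂ) :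
    MvPolynomial.eval u (evR v p) = MvPolynomial.eval (Fin.append u v) p := by
  induction p using MvPolynomial.induction_on with
  | C a =>
    unfold evR
    rw [MvPolynomial.aeval_C, MvPolynomial.algebraMap_eq, MvPolynomial.eval_C, MvPolynomial.eval_C]
  | add p q hp hq => rw [map_add, map_add, map_add, hp, hq]
  | mul_X p i hp =>
    rw [map_mul, map_mul, map_mul, hp, MvPolynomial.eval_X]
    congr 1
    unfold evR
    rw [MvPolynomial.aeval_X]
    refine Fin.addCases (fun i => ?_) (fun j => ?_) i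
    · rw [Fin.append_left, Fin.append_left, MvPolynomial.eval_X]
    · rw [Fin.append_right, Fin.append_right, MvPolynomial.eval_C]

/-- Partial evaluation of the first `m` variables. -/
noncomputable def evL {m n : ℕ} (u : Fin m → ℂ) :
    MvPolynomial (Fin (m + n)) ℂ →ₐ[ℂ] MvPolynomial (Fin n) ℂ :=
  MvPolynomial.aeval (Fin.append (fun i : Fin m => (MvPolynomial.C (u i) : MvPolynomial (Fin n) ℂ))
    (fun j : Fin n => MvPolynomial.X j))

lemma eval_evL {m n : ℕ} (u : Fin m → ℂ) (v : Fin n → ℂ) (p : MvPolynomial (Fin (m + n)) ℂ) :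
    MvPolynomial.eval v (evL u p) = MvPolynomial.eval (Fin.append u v) p := by
  induction p using MvPolynomial.induction_on with
  | C a =>
    unfold evL
    rw [MvPolynomial.aeval_C, MvPolynomial.algebraMap_eq, MvPolynomial.eval_C, MvPolynomial.eval_C]
  | add p q hp hq => rw [map_add, map_add, map_add, hp, hq]
  | mul_X p i hp =>
    rw [map_mul, map_mul, map_mul, hp, MvPolynomial.eval_X]
    congr 1
    unfold evL
    rw [MvPolynomial.aeval_X]
    refine Fin.addCases (fun i => ?_) (fun j => ?_) i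
    · rw [Fin.append_left, Fin.append_left, MvPolynomial.eval_C]
    · rw [Fin.append_right, Fin.append_right, MvPolynomial.eval_X]

/-- The product set. -/
def prodSet {m n : ℕ} (X : Set (Fin m → ℂ)) (K : Set (Fin n → ℂ)) : Set (Fin (m + n) → ℂ) :=
  (fun x : (Fin m → ℂ) × (Fin n → ℂ) => Fin.append x.1 x.2) '' (X ×ˢ K)

lemma prodSet_isCompact {m n : ℕ} {X : Set (Fin m → ℂ)} {K : Set (Fin n → ℂ)} (hX : IsCompact X)
    (hK : IsCompact K) : IsCompact (prodSet X K) := by
  apply (hX.prod hK).image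
  apply continuous_pi
  intro i
  refine Fin.addCases (fun i => ?_) (fun j => ?_) i
  · simp only [Fin.append_left]
    exact (continuous_apply i).comp continuous_fst
  · simp only [Fin.append_right]
    exact (continuous_apply j).comp continuous_snd

lemma append_mem {m n : ℕ} {X : Set (Fin m → ℂ)} {K : Set (Fin n → ℂ)} {u : Fin m → ℂ}
    {v : Fin n → ℂ} (hu : u ∈ X) (hv : v ∈ K) : Fin.append u v ∈ prodSet X K :=
  ⟨(u, v), ⟨hu, hv⟩, rfl⟩

lemma mem_left {m n : ℕ} {X : Set (Fin m → ℂ)} {K : Set (Fin n → ℂ)} {x : Fin (m + n) → ℂ}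
    (hx : x ∈ prodSet X K) : (fun i => x (Fin.castAdd n i)) ∈ X := by
  obtain ⟨⟨u, v⟩, ⟨hu, _⟩, rfl⟩ := hx
  have : (fun i => (fun x : (Fin m → ℂ) × (Fin n → ℂ) => Fin.append x.1 x.2) (u, v) (Fin.castAdd n i)) = u := by
    ext i
    simp only [Fin.append_left]
  rw [this]
  exact hu

lemma mem_right {m n : ℕ} {X : Set (Fin m → ℂ)} {K : Set (Fin n → ℂ)} {x : Fin (m + n) → ℂ}
    (hx : x ∈ prodSet X K) : (fun j => x (Fin.natAdd m j)) ∈ K := by
  obtain ⟨⟨u, v⟩, ⟨_, hv⟩, rfl⟩ := hx
  have : (fun j => (fun x : (Fin m → ℂ) × (Fin n → ℂ) => Fin.append x.1 x.2) (u, v) (Fin.natAdd m j)) = v := by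
    ext i
    simp only [Fin.append_right]
  rw [this]
  exact hv

lemma inHull_append {m n : ℕ} {X : Set (Fin m → ℂ)} {K : Set (Fin n → ℂ)} {ξ : Fin m → ℂ}
    (hξ : InHull X ξ) {κ : Fin n → ℂ} (hκ : κ ∈ K) : InHull (prodSet X K) (Fin.append ξ κ) := by
  intro p
  obtain ⟨u, hu, h⟩ := hξ (evR κ p)
  rw [eval_evR, eval_evR] at h
  exact ⟨_, append_mem hu hκ, h⟩

lemma inHull_left {m n : ℕ} {X : Set (Fin m → ℂ)} {K : Set (Fin n → ℂ)} {z : Fin (m + n) → ℂ}
    (hz : InHull (prodSet X K) z) : InHull X (fun i => z (Fin.castAdd n i)) := by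
  intro p
  obtain ⟨x, hx, h⟩ := hz (MvPolynomial.rename (Fin.castAdd n) p)
  rw [MvPolynomial.eval_rename, MvPolynomial.eval_rename] at h
  exact ⟨_, mem_left hx, h⟩

lemma inHull_right {m n : ℕ} {X : Set (Fin m → ℂ)} {K : Set (Fin n → ℂ)} {z : Fin (m + n) → ℂ}
    (hz : InHull (prodSet X K) z) : InHull K (fun j => z (Fin.natAdd m j)) := by
  intro p
  obtain ⟨x, hx, h⟩ := hz (MvPolynomial.rename (Fin.natAdd m) p)
  rw [MvPolynomial.eval_rename, MvPolynomial.eval_rename] at h
  exact ⟨_, mem_right hx, h⟩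

theorem noDer_prod {m n : ℕ} {X : Set (Fin m → ℂ)} {K : Set (Fin n → ℂ)} (hX : NoDer X)
    (hK : NoDer K) : NoDer (prodSet X K) := by
  intro z hz D hD ⟨C, hC⟩
  apply der_eq_zero hD
  have hL : D ∘ₗ (MvPolynomial.rename (R := ℂ) (Fin.castAdd n : Fin m → Fin (m + n))).toLinearMap = 0 := by
    apply hX _ (inHull_left hz)
    · intro p q
      simp only [LinearMap.comp_apply, AlgHom.toLinearMap_apply]
      rw [map_mul, hD, MvPolynomial.eval_rename, MvPolynomial.eval_rename]
      rfl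
    · refine ⟨C, fun p M hM => hC _ M fun x hx => ?_⟩
      simp only [AlgHom.toLinearMap_apply]
      rw [MvPolynomial.eval_rename]
      exact hM _ (mem_left hx)
  have hR : D ∘ₗ (MvPolynomial.rename (R := ℂ) (Fin.natAdd m : Fin n → Fin (m + n))).toLinearMap = 0 := by
    apply hK _ (inHull_right hz)
    · intro p q
      simp only [LinearMap.comp_apply, AlgHom.toLinearMap_apply]
      rw [map_mul, hD, MvPolynomial.eval_rename, MvPolynomial.eval_rename]
      rfl
    · refine ⟨C, fun p M hM => hC _ M fun x hx => ?_⟩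
      simp only [AlgHom.toLinearMap_apply]
      rw [MvPolynomial.eval_rename]
      exact hM _ (mem_right hx)
  intro i
  refine Fin.addCases (fun i => ?_) (fun j => ?_) i
  · have := LinearMap.congr_fun hL (MvPolynomial.X i)
    simpa using this
  · have := LinearMap.congr_fun hR (MvPolynomial.X j)
    simpa using this

/-- A map holomorphic on a disc with image in the hull is constant when there is no nonzero
bounded point derivation. -/
theorem noDisc {N : ℕ} {X : Set (Fin N → ℂ)} (hX : NoDer X) (f : ℂ → (Fin N → ℂ))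
    (hf : DifferentiableOn ℂ f (Metric.ball (0 : ℂ) 1))
    (hm : ∀ ζ ∈ Metric.ball (0:ℂ) 1, InHull X (f ζ)) :
    ∃ c : Fin N → ℂ, ∀ ζ ∈ Metric.ball (0 : ℂ) 1, f ζ = c := by
  have hfi : ∀ i, DifferentiableOn ℂ (fun ζ => f ζ i) (Metric.ball (0 : ℂ) 1) := by
    intro i
    exact (differentiableOn_pi.mp hf) i
  have hp : ∀ p : MvPolynomial (Fin N) ℂ,
      DifferentiableOn ℂ (fun ζ => MvPolynomial.eval (f ζ) p) (Metric.ball (0 : ℂ) 1) := by
    intro p
    induction p using MvPolynomial.induction_on with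
    | C a => simp only [MvPolynomial.eval_C]; exact differentiableOn_const _
    | add p q hp hq => simp only [map_add]; exact hp.add hq
    | mul_X p i hp => simp only [map_mul, MvPolynomial.eval_X]; exact hp.mul (hfi i)
  have hpa : ∀ ζ ∈ Metric.ball (0:ℂ) 1, ∀ p : MvPolynomial (Fin N) ℂ,
      DifferentiableAt ℂ (fun ζ => MvPolynomial.eval (f ζ) p) ζ := fun ζ hζ p =>
    (hp p).differentiableAt (Metric.isOpen_ball.mem_nhds hζ)
  have hder : ∀ ζ ∈ Metric.ball (0:ℂ) 1, ∀ i, deriv (fun ζ => f ζ i) ζ = 0 := by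
    intro ζ hζ i
    let D : MvPolynomial (Fin N) ℂ →ₗ[ℂ] ℂ :=
      { toFun := fun p => deriv (fun ζ => MvPolynomial.eval (f ζ) p) ζ
        map_add' := by
          intro p q
          simp only [map_add]
          exact deriv_fun_add (hpa ζ hζ p) (hpa ζ hζ q)
        map_smul' := by
          intro a p
          simp only [MvPolynomial.smul_eval, RingHom.id_apply, smul_eq_mul]
          exact deriv_const_mul a (hpa ζ hζ p) }
    have hD0 : D = 0 := by
      apply hX (f ζ) (hm ζ hζ) D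
      · intro p q
        show deriv (fun ζ => MvPolynomial.eval (f ζ) (p * q)) ζ = _ * deriv _ ζ + _ * deriv _ ζ
        simp only [map_mul]
        rw [deriv_fun_mul (hpa ζ hζ p) (hpa ζ hζ q)]
        ring
      · rw [Metric.mem_ball, dist_zero_right] at hζ
        set r : ℝ := (1 - ‖ζ‖) / 2 with hr
        have hr0 : 0 < r := by rw [hr]; linarith
        have hsub : Metric.closedBall ζ r ⊆ Metric.ball (0:ℂ) 1 := by
          intro w hw
          rw [Metric.mem_closedBall, dist_eq_norm] at hw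
          rw [Metric.mem_ball, dist_zero_right]
          calc ‖w‖ = ‖(w - ζ) + ζ‖ := by congr 1; ring
            _ ≤ ‖w - ζ‖ + ‖ζ‖ := norm_add_le _ _
            _ < 1 := by rw [hr] at hw; linarith
        refine ⟨1 / r, fun p M hM => ?_⟩
        have h1 : ‖deriv (fun ζ => MvPolynomial.eval (f ζ) p) ζ‖ ≤ M / r := by
          apply Complex.norm_deriv_le_of_forall_mem_sphere_norm_le hr0
          · exact ((hp p).mono hsub).diffContOnCl_ball (Subset.refl _)
          · intro w hw
            obtain ⟨x, hx, h⟩ := hm w (hsub (Metric.sphere_subset_closedBall hw)) p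
            exact h.trans (hM x hx)
        calc ‖D p‖ ≤ M / r := h1
          _ = 1 / r * M := by ring
    have := LinearMap.congr_fun hD0 (MvPolynomial.X i)
    have h2 : D (MvPolynomial.X i) = deriv (fun ζ => f ζ i) ζ := by
      show deriv (fun ζ => MvPolynomial.eval (f ζ) (MvPolynomial.X i)) ζ = _
      simp only [MvPolynomial.eval_X]
    rw [h2] at this
    exact this
  have hconst : ∀ i, ∃ a, ∀ ζ ∈ Metric.ball (0:ℂ) 1, f ζ i = a := by
    intro i
    exact Metric.isOpen_ball.exists_is_const_of_deriv_eq_zero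
      (convex_ball (0:ℂ) 1).isPreconnected (hfi i) (fun ζ hζ => hder ζ hζ i)
  choose c hc using hconst
  exact ⟨c, fun ζ hζ => funext fun i => hc i ζ hζ⟩

theorem gleason_prod {m n : ℕ} {X : Set (Fin m → ℂ)} {K : Set (Fin n → ℂ)} {ξ : Fin m → ℂ}
    (hξ : InHull X ξ) {κ₁ κ₂ : Fin n → ℂ} {c : ℝ}
    (hc : ∀ p : MvPolynomial (Fin n) ℂ, (∀ x ∈ K, ‖MvPolynomial.eval x p‖ ≤ 1) →
        ‖MvPolynomial.eval κ₁ p - MvPolynomial.eval κ₂ p‖ ≤ c)
    (p : MvPolynomial (Fin (m + n)) ℂ) (hp : ∀ x ∈ prodSet X K, ‖MvPolynomial.eval x p‖ ≤ 1) :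
    ‖MvPolynomial.eval (Fin.append ξ κ₁) p - MvPolynomial.eval (Fin.append ξ κ₂) p‖ ≤ c := by
  have := hc (evL ξ p) (by
    intro v hv
    rw [eval_evL, ← eval_evR]
    obtain ⟨u, hu, h⟩ := hξ (evR v p)
    refine h.trans ?_
    rw [eval_evR]
    exact hp _ (append_mem hu hv))
  rwa [eval_evL, eval_evL] at this

end Pool.Agent.GP
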